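import Pool.Agent.MP_8322c3_lc.AmalgPos

set_option autoImplicit false

namespace Pool.Agent.MP8322

/-- the structure whose colours are the symmetric differences of sections of `D` -/
theorem exists_diff {K : Set U} (hK : Nice K) {o D : U} (ho : o ∈ K) (hD : D ∈ K) :
    ∃ R ∈ K, ∀ k u v, Rel R k u v ↔ u ∈ o ∧ v ∈ o ∧
      ¬ (ZFSet.pair u (num k) ∈ D ↔ ZFSet.pair v (num k) ∈ D) := by
  have he := hK.empty
  have h1 : Dfn K (fun l => ∃ k ∈ nth l 1, ∃ u ∈ nth l 2, ∃ v ∈ nth l 2,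
      nth l 0 = ZFSet.pair k (ZFSet.pair u v) ∧
      ¬ (ZFSet.pair u k ∈ nth l 3 ↔ ZFSet.pair v k ∈ nth l 3)) := by
    apply Dfn.bex hK (DfnT.var he 1)
    simp only [nth_tail, Nat.reduceAdd]
    apply Dfn.bex hK (DfnT.var he 3)
    simp only [nth_tail, Nat.reduceAdd]
    apply Dfn.bex hK (DfnT.var he 4)
    simp only [nth_tail, Nat.reduceAdd]
    refine (Dfn.eq he (DfnT.var he 3) (DfnT.pair hK (DfnT.var he 2)
      (DfnT.pair hK (DfnT.var he 1) (DfnT.var he 0)))).and ?_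
    exact ((Dfn.mem he (DfnT.pair hK (DfnT.var he 1) (DfnT.var he 2)) (DfnT.var he 6)).iff
      (Dfn.mem he (DfnT.pair hK (DfnT.var he 0) (DfnT.var he 2)) (DfnT.var he 6))).not
  have h2 := hK.sepD h1 (l := [ZFSet.omega, o, D]) (((WL.nil.cons hD).cons ho).cons hK.omega)
    (hK.prod hK.omega (hK.prod ho ho))
  simp only [nth_cons_zero, nth_cons_succ] at h2
  refine ⟨_, h2, fun k u v => ?_⟩
  unfold Rel
  rw [ZFSet.mem_sep]
  constructor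
  · rintro ⟨_, k', _, u', hu, v', hv, e, h⟩
    obtain ⟨rfl, e'⟩ := ZFSet.pair_inj.1 e
    obtain ⟨rfl, rfl⟩ := ZFSet.pair_inj.1 e'
    exact ⟨hu, hv, h⟩
  · rintro ⟨hu, hv, h⟩
    refine ⟨?_, num k, num_mem_omega k, u, hu, v, hv, rfl, h⟩
    rw [ZFSet.pair_mem_prod, ZFSet.pair_mem_prod]
    exact ⟨num_mem_omega k, hu, hv⟩

theorem nonempty_part {K : Set U} (hK : Nice K) {o : U} (ho : o ∈ K) :
    ZFSet.sep (fun y => y ≠ ∅) o ∈ K := by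
  have h3 : Dfn K (fun l => ¬ ∀ x ∈ nth l 0, False) :=
    (Dfn.ball hK (DfnT.var hK.empty 0) ⟨.neg (.eq 0 0), fun l _ => by simp [Sat]⟩).not
  have h4 := hK.sepD h3 (l := []) WL.nil ho
  have : ZFSet.sep (fun y => y ≠ ∅) o = ZFSet.sep (fun u => ¬ ∀ x ∈ nth [u] 0, False) o := by
    ext z
    simp only [ZFSet.mem_sep, nth_cons_zero]
    refine and_congr_right fun _ => ?_
    rw [Ne, ZFSet.eq_empty]
  rw [this]
  exact h4

/-- the sets listing all reals of the class along the nonempty elements of `o` -/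
theorem exists_list {K : Set U} (hK : Nice K) {o F σ : U} (ho : o ∈ K)
    (hF : F ∈ K) (hF' : IsBij o (ZFSet.sep (fun y => y ∈ K) (ZFSet.powerset ZFSet.omega)) F)
    (hσ : σ ∈ K) (hσ' : IsBij o (ZFSet.sep (fun y => y ≠ ∅) o) σ) :
    ∃ D ∈ K, (∀ n, ZFSet.pair ∅ (num n) ∉ D) ∧
      (∀ β ∈ o, ∀ γ ∈ o, β ≠ ∅ → γ ≠ ∅ → β ≠ γ →
        ∃ n, ¬ (ZFSet.pair β (num n) ∈ D ↔ ZFSet.pair γ (num n) ∈ D)) ∧
      (∀ X ∈ K, X ⊆ ZFSet.omega → ∃ β ∈ o, β ≠ ∅ ∧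
        ∀ n, ZFSet.pair β (num n) ∈ D ↔ num n ∈ X) := by
  have he := hK.empty
  have hP := hK.power _ hK.omega
  have h1 : Dfn K (fun l => ∃ β ∈ nth l 1, ∃ k ∈ nth l 2, nth l 0 = ZFSet.pair β k ∧
      ∃ α ∈ nth l 1, ∃ X ∈ nth l 3, ZFSet.pair α β ∈ nth l 4 ∧ ZFSet.pair α X ∈ nth l 5 ∧
        k ∈ X) := by
    apply Dfn.bex hK (DfnT.var he 1)
    simp only [nth_tail, Nat.reduceAdd]
    apply Dfn.bex hK (DfnT.var he 3)
    simp only [nth_tail, Nat.reduceAdd]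
    refine (Dfn.eq he (DfnT.var he 2) (DfnT.pair hK (DfnT.var he 1) (DfnT.var he 0))).and ?_
    apply Dfn.bex hK (DfnT.var he 3)
    simp only [nth_tail, Nat.reduceAdd]
    apply Dfn.bex hK (DfnT.var he 6)
    simp only [nth_tail, Nat.reduceAdd]
    exact (Dfn.mem he (DfnT.pair hK (DfnT.var he 1) (DfnT.var he 3)) (DfnT.var he 8)).and
      ((Dfn.mem he (DfnT.pair hK (DfnT.var he 1) (DfnT.var he 0)) (DfnT.var he 9)).and
      (Dfn.mem he (DfnT.var he 2) (DfnT.var he 0)))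
  have h2 := hK.sepD h1 (l := [o, ZFSet.omega,
    ZFSet.sep (fun y => y ∈ K) (ZFSet.powerset ZFSet.omega), σ, F])
    (((((WL.nil.cons hF).cons hσ).cons hP).cons hK.omega).cons ho) (hK.prod ho hK.omega)
  simp only [nth_cons_zero, nth_cons_succ] at h2
  have key : ∀ {α β X : U}, ZFSet.pair α β ∈ σ → ZFSet.pair α X ∈ F → ∀ n,
      (ZFSet.pair β (num n) ∈ ZFSet.sep (fun w => ∃ β ∈ o, ∃ k ∈ ZFSet.omega,
        w = ZFSet.pair β k ∧ ∃ α ∈ o, ∃ X ∈ ZFSet.sep (fun y => y ∈ K)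
          (ZFSet.powerset ZFSet.omega), ZFSet.pair α β ∈ σ ∧ ZFSet.pair α X ∈ F ∧ k ∈ X)
        (ZFSet.prod o ZFSet.omega) ↔ num n ∈ X) := by
    intro α β X hαβ hαX n
    have hαo := isBij_dom hσ' hαβ
    have hβo := (ZFSet.mem_sep.1 (isBij_ran hσ' hαβ)).1
    rw [ZFSet.mem_sep]
    constructor
    · rintro ⟨_, β', _, k, _, e, α', _, X', _, h3, h4, h5⟩
      obtain ⟨rfl, rfl⟩ := ZFSet.pair_inj.1 e
      have := hσ'.1.2 _ _ _ hαβ h3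
      subst this
      rw [isBij_func hF' hαX h4]
      exact h5
    · intro h
      exact ⟨ZFSet.pair_mem_prod.2 ⟨hβo, num_mem_omega n⟩, β, hβo, num n, num_mem_omega n, rfl,
        α, hαo, X, isBij_ran hF' hαX, hαβ, hαX, h⟩
  refine ⟨_, h2, ?_, ?_, ?_⟩
  · intro n hn
    obtain ⟨_, β', _, k, _, e, α', _, X', _, h3, _⟩ := ZFSet.mem_sep.1 hn
    obtain ⟨rfl, rfl⟩ := ZFSet.pair_inj.1 e
    exact (ZFSet.mem_sep.1 (isBij_ran hσ' h3)).2 rfl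
  · intro β hβ γ hγ hβ0 hγ0 hne
    obtain ⟨α, hα⟩ := hσ'.2 β (ZFSet.mem_sep.2 ⟨hβ, hβ0⟩)
    obtain ⟨α', hα'⟩ := hσ'.2 γ (ZFSet.mem_sep.2 ⟨hγ, hγ0⟩)
    obtain ⟨X, hX, _⟩ := hF'.1.1.2 α (isBij_dom hσ' hα)
    obtain ⟨Y, hY, _⟩ := hF'.1.1.2 α' (isBij_dom hσ' hα')
    have hXo := ZFSet.mem_powerset.1 (ZFSet.mem_sep.1 (isBij_ran hF' hX)).1
    have hYo := ZFSet.mem_powerset.1 (ZFSet.mem_sep.1 (isBij_ran hF' hY)).1
    by_contra hcon
    push Not at hcon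
    apply hne
    have hXY : X = Y := by
      ext z
      constructor
      · intro hz
        obtain ⟨n, rfl⟩ := (mem_omega_iff z).1 (hXo hz)
        exact (key hα' hY n).1 ((hcon n).1 ((key hα hX n).2 hz))
      · intro hz
        obtain ⟨n, rfl⟩ := (mem_omega_iff z).1 (hYo hz)
        exact (key hα hX n).1 ((hcon n).2 ((key hα' hY n).2 hz))
    subst hXY
    have := hF'.1.2 _ _ _ hX hY
    subst this
    exact isBij_func hσ' hα hα'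
  · intro X hX hXo
    obtain ⟨α, hα⟩ := hF'.2 X (ZFSet.mem_sep.2 ⟨ZFSet.mem_powerset.2 hXo, hX⟩)
    obtain ⟨β, hβ, _⟩ := hσ'.1.1.2 α (isBij_dom hF' hα)
    have h3 := ZFSet.mem_sep.1 (isBij_ran hσ' hβ)
    exact ⟨β, h3.1, h3.2, key hβ hα⟩

theorem taut1 {a b d : Prop} (h : ¬ ((a ↔ b) ∧ (b ↔ d))) :
    ¬ ((¬ (a ↔ b) ↔ ¬ (b ↔ d)) ∧ (¬ (a ↔ b) ↔ ¬ (a ↔ d))) := by
  by_cases ha : a <;> by_cases hb : b <;> by_cases hd : d <;> simp_all

theorem taut2 {a b : Prop} (h : ¬ a) : (¬ (a ↔ b)) ↔ b := by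
  by_cases hb : b <;> simp_all

theorem not_spec_of_CH {K : Set U} (hK : Nice K) {o F σ : U} (ho : IsOmega1 K o)
    (hF : F ∈ K) (hF' : IsBij o (ZFSet.sep (fun y => y ∈ K) (ZFSet.powerset ZFSet.omega)) F)
    (hσ : σ ∈ K) (hσ' : IsBij o (ZFSet.sep (fun y => y ≠ ∅) o) σ) :
    ¬ Amalgamation K phi := by
  intro hAP
  have hoK := ho.1
  have he := hK.empty
  obtain ⟨D, hD, hD0, hD1, hD2⟩ := exists_list hK hoK hF hF' hσ hσ'
  obtain ⟨R, hR, hR'⟩ := exists_diff hK hoK hD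
  have h0 : (∅ : U) ∈ o := by
    rcases ZFSet.isOrdinal_empty.mem_trichotomous ho.2.1 with h | h | h
    · exact h
    · exfalso
      apply ho.2.2.1
      refine ⟨∅, he, ⟨⟨ZFSet.empty_subset _, ?_⟩, ?_⟩⟩
      · intro z hz
        rw [← h] at hz
        exact absurd hz (ZFSet.notMem_empty _)
      · intro a b d ha
        exact absurd ha (ZFSet.notMem_empty _)
    · exact absurd h (ZFSet.notMem_empty _)
  -- two different points with equal sections: one of them is empty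
  have hsec : ∀ u ∈ o, ∀ v ∈ o, ∀ w ∈ o, u ≠ v → v ≠ w → u ≠ w →
      ∃ n, ¬ ((ZFSet.pair u (num n) ∈ D ↔ ZFSet.pair v (num n) ∈ D) ∧
        (ZFSet.pair v (num n) ∈ D ↔ ZFSet.pair w (num n) ∈ D)) := by
    intro u hu v hv w hw huv hvw huw
    by_cases hu0 : u = ∅
    · have hv0 : v ≠ ∅ := fun h => huv (hu0.trans h.symm)
      have hw0 : w ≠ ∅ := fun h => huw (hu0.trans h.symm)
      obtain ⟨n, hn⟩ := hD1 v hv w hw hv0 hw0 hvw
      exact ⟨n, fun h => hn h.2⟩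
    · by_cases hv0 : v = ∅
      · have hw0 : w ≠ ∅ := fun h => hvw (hv0.trans h.symm)
        obtain ⟨n, hn⟩ := hD1 u hu w hw hu0 hw0 huw
        exact ⟨n, fun h => hn (h.1.trans h.2)⟩
      · obtain ⟨n, hn⟩ := hD1 u hu v hv hu0 hv0 huv
        exact ⟨n, fun h => hn h.1⟩
  have hn : NoMono o R :=
  { symm := by
      intro x hx y hy k
      rw [hR', hR']
      rintro ⟨h1, h2, h3⟩
      exact ⟨h2, h1, fun h => h3 h.symm⟩
    tri := by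
      intro x hx y hy z hz hxy hyz hxz
      obtain ⟨n, hn⟩ := hsec x hx y hy z hz hxy hyz hxz
      refine ⟨n, ?_⟩
      rw [hR', hR', hR']
      simp only [hx, hy, hz, true_and]
      exact taut1 hn }
  -- the modified structure
  obtain ⟨R₁, hR₁e⟩ : ∃ R₁ : U, R₁ = insert (ZFSet.pair (num 0) (ZFSet.pair ∅ ∅)) R := ⟨_, rfl⟩
  obtain ⟨A₀, hA₀e⟩ : ∃ A₀ : U, A₀ = ZFSet.sep (fun y => y ≠ ∅) o := ⟨_, rfl⟩
  have hA₀m : ∀ {x}, x ∈ A₀ ↔ x ∈ o ∧ x ≠ ∅ := by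
    intro x
    rw [hA₀e, ZFSet.mem_sep]
  have hne : ∀ k u v, (u ≠ ∅ ∨ v ≠ ∅) →
      (Rel R₁ k u v ↔ Rel R k u v) := by
    intro k u v huv
    unfold Rel
    rw [hR₁e, ZFSet.mem_insert_iff]
    constructor
    · rintro (h | h)
      · obtain ⟨_, h⟩ := ZFSet.pair_inj.1 h
        obtain ⟨rfl, rfl⟩ := ZFSet.pair_inj.1 h
        rcases huv with h | h
        · exact absurd rfl h
        · exact absurd rfl h
      · exact h
    · exact Or.inr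
  have hR₁ : R₁ ∈ K := by
    rw [hR₁e]
    exact hK.insert (hK.pair (hK.num 0) (hK.pair he he)) hR
  have hn₁ : NoMono o R₁ :=
  { symm := by
      intro x hx y hy k h
      by_cases hxy : x = y
      · subst hxy
        exact h
      · have h1 : x ≠ ∅ ∨ y ≠ ∅ := by
          by_contra hcon
          push Not at hcon
          exact hxy (hcon.1.trans hcon.2.symm)
        rw [hne k x y h1] at h
        rw [hne k y x h1.symm]
        exact hn.symm x hx y hy k h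
    tri := by
      intro x hx y hy z hz hxy hyz hxz
      obtain ⟨k, hk⟩ := hn.tri x hx y hy z hz hxy hyz hxz
      refine ⟨k, ?_⟩
      have h1 : x ≠ ∅ ∨ y ≠ ∅ := by
        by_contra hcon
        push Not at hcon
        exact hxy (hcon.1.trans hcon.2.symm)
      have h2 : y ≠ ∅ ∨ z ≠ ∅ := by
        by_contra hcon
        push Not at hcon
        exact hyz (hcon.1.trans hcon.2.symm)
      have h3 : x ≠ ∅ ∨ z ≠ ∅ := by
        by_contra hcon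
        push Not at hcon
        exact hxz (hcon.1.trans hcon.2.symm)
      rw [hne k x y h1, hne k y z h2, hne k x z h3]
      exact hk }
  have hpart : A₀ ∈ K := hA₀e ▸ nonempty_part hK hoK
  have hM₀ : IsModel K phi A₀ R := by
    refine ⟨hpart, hR, ⟨o, ho, σ, hσ, hA₀e ▸ hσ'⟩, (holds_phi _ _).2 ?_⟩
    exact
    { symm := fun x hx y hy => hn.symm x (hA₀m.1 hx).1 y (hA₀m.1 hy).1
      tri := fun x hx y hy z hz => hn.tri x (hA₀m.1 hx).1 y (hA₀m.1 hy).1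
        z (hA₀m.1 hz).1 }
  have hM₁ : IsModel K phi o R₁ :=
    ⟨hoK, hR₁, ⟨o, ho, exists_id hK hoK⟩, (holds_phi _ _).2 hn₁⟩
  have hM₂ : IsModel K phi o R := ⟨hoK, hR, ⟨o, ho, exists_id hK hoK⟩, (holds_phi _ _).2 hn⟩
  have hs₁ : IsSub A₀ R o R₁ :=
    ⟨fun x hx => (hA₀m.1 hx).1, fun k x hx y _ => (hne k x y (Or.inl (hA₀m.1 hx).2)).symm⟩
  have hs₂ : IsSub A₀ R o R := ⟨fun x hx => (hA₀m.1 hx).1, fun _ _ _ _ _ => Iff.rfl⟩
  obtain ⟨B, S, ⟨_, hS, _, hH⟩, f₁, hf₁, f₂, hf₂, he₁, he₂, hag⟩ :=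
    hAP _ _ _ _ _ _ hM₀ hM₁ hM₂ hs₁ hs₂
  have hnS := (holds_phi _ _).1 hH
  obtain ⟨a₁, ha₁, _⟩ := he₁.1.1.2 ∅ h0
  obtain ⟨a₂, ha₂, _⟩ := he₂.1.1.2 ∅ h0
  have ha₁B := (ZFSet.pair_mem_prod.1 (he₁.1.1.1 ha₁)).2
  have ha₂B := (ZFSet.pair_mem_prod.1 (he₂.1.1.1 ha₂)).2
  have hne12 : a₁ ≠ a₂ := by
    rintro rfl
    have h0' : Rel R₁ 0 ∅ ∅ := by
      unfold Rel
      rw [hR₁e]
      exact ZFSet.mem_insert _ _
    have h1 := (he₁.2 0 _ _ _ _ ha₁ ha₁).1 h0'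
    have h2 := (he₂.2 0 _ _ _ _ ha₂ ha₂).2 h1
    rw [hR'] at h2
    exact h2.2.2 Iff.rfl
  -- the colour of the two images of the empty set
  obtain ⟨X, hX⟩ : ∃ X : U, X = ZFSet.sep (fun k => ZFSet.pair k (ZFSet.pair a₁ a₂) ∈ S)
    ZFSet.omega := ⟨_, rfl⟩
  have hXK : X ∈ K := by
    rw [hX]
    have h1 : Dfn K (fun l => ZFSet.pair (nth l 0) (ZFSet.pair (nth l 1) (nth l 2)) ∈ nth l 3) :=
      Dfn.mem he (DfnT.pair hK (DfnT.var he 0) (DfnT.pair hK (DfnT.var he 1) (DfnT.var he 2)))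
        (DfnT.var he 3)
    have ha₁K : a₁ ∈ K := hK.snd (hK.trans _ hf₁ _ ha₁)
    have ha₂K : a₂ ∈ K := hK.snd (hK.trans _ hf₂ _ ha₂)
    have h2 := hK.sepD h1 (l := [a₁, a₂, S]) (((WL.nil.cons hS).cons ha₂K).cons ha₁K) hK.omega
    simp only [nth_cons_zero, nth_cons_succ] at h2
    exact h2
  obtain ⟨β, hβ, hβ0, hβX⟩ := hD2 _ hXK (hX ▸ ZFSet.sep_subset)
  have hβX' : ∀ n, ZFSet.pair β (num n) ∈ D ↔ Rel S n a₁ a₂ := by
    intro n
    rw [hβX n, hX, ZFSet.mem_sep]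
    unfold Rel
    exact ⟨fun h => h.2, fun h => ⟨num_mem_omega n, h⟩⟩
  obtain ⟨b, hb, _⟩ := he₁.1.1.2 β hβ
  have hb' : ZFSet.pair β b ∈ f₂ := (hag β (hA₀m.2 ⟨hβ, hβ0⟩) b).1 hb
  have hbB := (ZFSet.pair_mem_prod.1 (he₁.1.1.1 hb)).2
  have hb1 : b ≠ a₁ := by
    rintro rfl
    exact hβ0 (he₁.1.2 _ _ _ hb ha₁)
  have hb2 : b ≠ a₂ := by
    rintro rfl
    exact hβ0 (he₂.1.2 _ _ _ hb' ha₂)
  obtain ⟨k, hk⟩ := hnS.tri a₁ ha₁B a₂ ha₂B b hbB hne12 (Ne.symm hb2) (Ne.symm hb1)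
  apply hk
  have c1 : Rel S k a₁ b ↔ ZFSet.pair β (num k) ∈ D := by
    rw [← he₁.2 k _ _ _ _ ha₁ hb, hne k ∅ β (Or.inr hβ0), hR']
    simp only [h0, hβ, true_and]
    exact taut2 (hD0 k)
  have c2 : Rel S k a₂ b ↔ ZFSet.pair β (num k) ∈ D := by
    rw [← he₂.2 k _ _ _ _ ha₂ hb', hR']
    simp only [h0, hβ, true_and]
    exact taut2 (hD0 k)
  rw [c1, c2, ← hβX' k]
  exact ⟨Iff.rfl, Iff.rfl⟩

end Pool.Agent.MP8322
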