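import Pool.Agent.MP_8322c3_lc.Sentence

set_option autoImplicit false

namespace Pool.Agent.MP8322

theorem IsOmega1.unique {K : Set U} {o o' : U} (h : IsOmega1 K o) (h' : IsOmega1 K o') :
    o = o' := by
  rcases h.2.1.mem_trichotomous h'.2.1 with h1 | h1 | h1
  · exact absurd (h'.2.2.2 o h1) h.2.2.1
  · exact h1
  · exact absurd (h.2.2.2 o' h1) h'.2.2.1

/-- the colour of a pair -/
def cl (R x y : U) : ℕ → Prop := fun k => Rel R k x y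

theorem NoMono.cl_symm {A R : U} (h : NoMono A R) {x y : U} (hx : x ∈ A) (hy : y ∈ A) :
    cl R x y = cl R y x := by
  funext k
  exact propext ⟨h.symm x hx y hy k, h.symm y hy x hx k⟩

theorem NoMono.cl_tri {A R : U} (h : NoMono A R) {x y z : U} (hx : x ∈ A) (hy : y ∈ A)
    (hz : z ∈ A) (hxy : x ≠ y) (hyz : y ≠ z) (hxz : x ≠ z) (e1 : cl R x y = cl R y z)
    (e2 : cl R x y = cl R x z) : False := by
  obtain ⟨k, hk⟩ := h.tri x hx y hy z hz hxy hyz hxz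
  apply hk
  have h1 := congrFun e1 k
  have h2 := congrFun e2 k
  exact ⟨Iff.of_eq h1, Iff.of_eq h2⟩

theorem noMono_of_cl {A R : U} (hs : ∀ x ∈ A, ∀ y ∈ A, cl R x y = cl R y x)
    (ht : ∀ x ∈ A, ∀ y ∈ A, ∀ z ∈ A, x ≠ y → y ≠ z → x ≠ z → cl R x y = cl R y z →
      cl R x y = cl R x z → False) : NoMono A R where
  symm := by
    intro x hx y hy k h
    have := congrFun (hs x hx y hy) k
    exact Eq.mp this h
  tri := by
    intro x hx y hy z hz hxy hyz hxz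
    by_contra hcon
    push Not at hcon
    refine ht x hx y hy z hz hxy hyz hxz ?_ ?_
    · funext k
      exact propext (hcon k).1
    · funext k
      exact propext (hcon k).2

/-- the structure whose colours are the symmetric differences of sections of `E` -/
theorem exists_noMono {K : Set U} (hK : Nice K) {o E : U} (ho : o ∈ K) (hE : E ∈ K)
    (hE' : ∀ α ∈ o, ∀ β ∈ o, α ≠ β →
      ∃ n, ¬ (ZFSet.pair α (num n) ∈ E ↔ ZFSet.pair β (num n) ∈ E)) :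
    ∃ R ∈ K, NoMono o R := by
  have he := hK.empty
  have h1 : Dfn K (fun l => ∃ k ∈ nth l 1, ∃ u ∈ nth l 2, ∃ v ∈ nth l 2,
      nth l 0 = ZFSet.pair k (ZFSet.pair u v) ∧
      ¬ (ZFSet.pair u k ∈ nth l 3 ↔ ZFSet.pair v k ∈ nth l 3)) := by
    apply Dfn.bex hK (DfnT.var he 1)
    simp only [nth_tail, Nat.reduceAdd]
    apply Dfn.bex hK (DfnT.var he 3)
    simp only [nth_tail, Nat.reduceAdd]
    apply Dfn.bex hK (DfnT.var he 4)
    simp only [nth_tail, Nat.reduceAdd]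
    refine (Dfn.eq he (DfnT.var he 3) (DfnT.pair hK (DfnT.var he 2)
      (DfnT.pair hK (DfnT.var he 1) (DfnT.var he 0)))).and ?_
    exact ((Dfn.mem he (DfnT.pair hK (DfnT.var he 1) (DfnT.var he 2)) (DfnT.var he 6)).iff
      (Dfn.mem he (DfnT.pair hK (DfnT.var he 0) (DfnT.var he 2)) (DfnT.var he 6))).not
  have h2 := hK.sepD h1 (l := [ZFSet.omega, o, E]) (((WL.nil.cons hE).cons ho).cons hK.omega)
    (hK.prod hK.omega (hK.prod ho ho))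
  simp only [nth_cons_zero, nth_cons_succ] at h2
  refine ⟨_, h2, ?_⟩
  have key : ∀ u ∈ o, ∀ v ∈ o, ∀ k, Rel (ZFSet.sep (fun w => ∃ k ∈ ZFSet.omega, ∃ u ∈ o, ∃ v ∈ o,
      w = ZFSet.pair k (ZFSet.pair u v) ∧ ¬ (ZFSet.pair u k ∈ E ↔ ZFSet.pair v k ∈ E))
      (ZFSet.prod ZFSet.omega (ZFSet.prod o o))) k u v ↔
      ¬ (ZFSet.pair u (num k) ∈ E ↔ ZFSet.pair v (num k) ∈ E) := by
    intro u hu v hv k
    unfold Rel
    rw [ZFSet.mem_sep]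
    constructor
    · rintro ⟨_, k', _, u', _, v', _, e, h⟩
      obtain ⟨rfl, e'⟩ := ZFSet.pair_inj.1 e
      obtain ⟨rfl, rfl⟩ := ZFSet.pair_inj.1 e'
      exact h
    · intro h
      refine ⟨?_, num k, num_mem_omega k, u, hu, v, hv, rfl, h⟩
      rw [ZFSet.pair_mem_prod, ZFSet.pair_mem_prod]
      exact ⟨num_mem_omega k, hu, hv⟩
  exact
  { symm := by
      intro x hx y hy k
      rw [key x hx y hy, key y hy x hx]
      tauto
    tri := by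
      intro x hx y hy z hz hxy hyz hxz
      obtain ⟨n, hn⟩ := hE' x hx y hy hxy
      refine ⟨n, ?_⟩
      rw [key x hx y hy, key y hy z hz, key x hx z hz]
      tauto }

/-- the identity function is in the class -/
theorem exists_id {K : Set U} (hK : Nice K) {o : U} (ho : o ∈ K) : ∃ f ∈ K, IsBij o o f := by
  have he := hK.empty
  have h1 : Dfn K (fun l => ∃ a ∈ nth l 1, nth l 0 = ZFSet.pair a a) := by
    apply Dfn.bex hK (DfnT.var he 1)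
    simp only [nth_tail, Nat.reduceAdd]
    exact Dfn.eq he (DfnT.var he 1) (DfnT.pair hK (DfnT.var he 0) (DfnT.var he 0))
  have h2 := hK.sepD h1 (l := [o]) (WL.nil.cons ho) (hK.prod ho ho)
  simp only [nth_cons_zero, nth_cons_succ] at h2
  refine ⟨_, h2, ?_⟩
  have key : ∀ x y, ZFSet.pair x y ∈ ZFSet.sep (fun u => ∃ a ∈ o, u = ZFSet.pair a a)
      (ZFSet.prod o o) ↔ x ∈ o ∧ x = y := by
    intro x y
    rw [ZFSet.mem_sep]
    constructor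
    · rintro ⟨_, a, ha, e⟩
      obtain ⟨rfl, rfl⟩ := ZFSet.pair_inj.1 e
      exact ⟨ha, rfl⟩
    · rintro ⟨hx, rfl⟩
      exact ⟨ZFSet.pair_mem_prod.2 ⟨hx, hx⟩, x, hx, rfl⟩
  refine ⟨⟨⟨ZFSet.sep_subset, ?_⟩, ?_⟩, ?_⟩
  · intro z hz
    exact ⟨z, (key z z).2 ⟨hz, rfl⟩, fun w hw => ((key z w).1 hw).2.symm⟩
  · intro a b d ha hb
    rw [((key a d).1 ha).2, ((key b d).1 hb).2]
  · intro d hd
    exact ⟨d, (key d d).2 ⟨hd, rfl⟩⟩

theorem isBij_func {o A g : U} (h : IsBij o A g) {a x y : U} (hx : ZFSet.pair a x ∈ g)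
    (hy : ZFSet.pair a y ∈ g) : x = y := by
  obtain ⟨v, _, hv⟩ := h.1.1.2 a (ZFSet.pair_mem_prod.1 (h.1.1.1 hx)).1
  rw [hv x hx, hv y hy]

theorem isBij_dom {o A g : U} (h : IsBij o A g) {a x : U} (hx : ZFSet.pair a x ∈ g) : a ∈ o :=
  (ZFSet.pair_mem_prod.1 (h.1.1.1 hx)).1

theorem isBij_ran {o A g : U} (h : IsBij o A g) {a x : U} (hx : ZFSet.pair a x ∈ g) : x ∈ A :=
  (ZFSet.pair_mem_prod.1 (h.1.1.1 hx)).2

/-- one half of the universe of the amalgam -/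
theorem exists_half {K : Set U} (hK : Nice K) {o t g A : U} (ho : o ∈ K) (ht : t ∈ K)
    (hg : g ∈ K) (hA : A ∈ K) (i : ℕ) : ∃ h ∈ K, ∀ u x, ZFSet.pair u x ∈ h ↔
      u ∈ o ∧ x ∈ A ∧ ∃ a ∈ o, ZFSet.pair u (ZFSet.pair a (num i)) ∈ t ∧ ZFSet.pair a x ∈ g := by
  have he := hK.empty
  have h1 : Dfn K (fun l => ∃ u ∈ nth l 1, ∃ x ∈ nth l 4, nth l 0 = ZFSet.pair u x ∧
      ∃ a ∈ nth l 1, ZFSet.pair u (ZFSet.pair a (nth l 5)) ∈ nth l 2 ∧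
        ZFSet.pair a x ∈ nth l 3) := by
    apply Dfn.bex hK (DfnT.var he 1)
    simp only [nth_tail, Nat.reduceAdd]
    apply Dfn.bex hK (DfnT.var he 5)
    simp only [nth_tail, Nat.reduceAdd]
    refine (Dfn.eq he (DfnT.var he 2) (DfnT.pair hK (DfnT.var he 1) (DfnT.var he 0))).and ?_
    apply Dfn.bex hK (DfnT.var he 3)
    simp only [nth_tail, Nat.reduceAdd]
    exact (Dfn.mem he (DfnT.pair hK (DfnT.var he 2) (DfnT.pair hK (DfnT.var he 0)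
      (DfnT.var he 8))) (DfnT.var he 5)).and
      (Dfn.mem he (DfnT.pair hK (DfnT.var he 0) (DfnT.var he 1)) (DfnT.var he 6))
  have h2 := hK.sepD h1 (l := [o, t, g, A, num i])
    (((((WL.nil.cons (hK.num i)).cons hA).cons hg).cons ht).cons ho) (hK.prod ho hA)
  simp only [nth_cons_zero, nth_cons_succ] at h2
  refine ⟨_, h2, fun u x => ?_⟩
  rw [ZFSet.mem_sep]
  constructor
  · rintro ⟨_, u', hu', x', hx', e, h⟩
    obtain ⟨rfl, rfl⟩ := ZFSet.pair_inj.1 e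
    exact ⟨hu', hx', h⟩
  · rintro ⟨hu, hx, h⟩
    exact ⟨ZFSet.pair_mem_prod.2 ⟨hu, hx⟩, u, hu, x, hx, rfl, h⟩

/-- the list of the colours of a structure -/
theorem exists_colours {K : Set U} (hK : Nice K) {o s g A R : U} (ho : o ∈ K)
    (hs : s ∈ K) (hs' : ∀ α ∈ o, ∀ β ∈ o, ∃ γ ∈ o, ZFSet.pair γ (ZFSet.pair α β) ∈ s)
    (hs'' : ∀ γ ∈ o, ∀ w w', ZFSet.pair γ w ∈ s → ZFSet.pair γ w' ∈ s → w = w')
    (hg : g ∈ K) (hg' : IsBij o A g) (hA : A ∈ K) (hR : R ∈ K) :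
    ∃ S ∈ K, ∀ x ∈ A, ∀ y ∈ A, ∃ γ ∈ o, ∀ n, ZFSet.pair γ (num n) ∈ S ↔ Rel R n x y := by
  have he := hK.empty
  have h1 : Dfn K (fun l => ∃ γ ∈ nth l 1, ∃ n ∈ nth l 6, nth l 0 = ZFSet.pair γ n ∧
      ∃ α ∈ nth l 1, ∃ β ∈ nth l 1, ∃ x ∈ nth l 4, ∃ y ∈ nth l 4,
        ZFSet.pair γ (ZFSet.pair α β) ∈ nth l 2 ∧ ZFSet.pair α x ∈ nth l 3 ∧
        ZFSet.pair β y ∈ nth l 3 ∧ ZFSet.pair n (ZFSet.pair x y) ∈ nth l 5) := by
    apply Dfn.bex hK (DfnT.var he 1)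
    simp only [nth_tail, Nat.reduceAdd]
    apply Dfn.bex hK (DfnT.var he 7)
    simp only [nth_tail, Nat.reduceAdd]
    refine (Dfn.eq he (DfnT.var he 2) (DfnT.pair hK (DfnT.var he 1) (DfnT.var he 0))).and ?_
    apply Dfn.bex hK (DfnT.var he 3)
    simp only [nth_tail, Nat.reduceAdd]
    apply Dfn.bex hK (DfnT.var he 4)
    simp only [nth_tail, Nat.reduceAdd]
    apply Dfn.bex hK (DfnT.var he 8)
    simp only [nth_tail, Nat.reduceAdd]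
    apply Dfn.bex hK (DfnT.var he 9)
    simp only [nth_tail, Nat.reduceAdd]
    refine (Dfn.mem he (DfnT.pair hK (DfnT.var he 5) (DfnT.pair hK (DfnT.var he 3)
      (DfnT.var he 2))) (DfnT.var he 8)).and ?_
    refine (Dfn.mem he (DfnT.pair hK (DfnT.var he 3) (DfnT.var he 1)) (DfnT.var he 9)).and ?_
    refine (Dfn.mem he (DfnT.pair hK (DfnT.var he 2) (DfnT.var he 0)) (DfnT.var he 9)).and ?_
    exact Dfn.mem he (DfnT.pair hK (DfnT.var he 4) (DfnT.pair hK (DfnT.var he 1)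
      (DfnT.var he 0))) (DfnT.var he 11)
  have h2 := hK.sepD h1 (l := [o, s, g, A, R, ZFSet.omega])
    ((((((WL.nil.cons hK.omega).cons hR).cons hA).cons hg).cons hs).cons ho)
    (hK.prod ho hK.omega)
  simp only [nth_cons_zero, nth_cons_succ] at h2
  refine ⟨_, h2, fun x hx y hy => ?_⟩
  obtain ⟨α, hα⟩ := hg'.2 x hx
  obtain ⟨β, hβ⟩ := hg'.2 y hy
  have hαo := isBij_dom hg' hα
  have hβo := isBij_dom hg' hβ
  obtain ⟨γ, hγ, hγs⟩ := hs' α hαo β hβo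
  refine ⟨γ, hγ, fun n => ?_⟩
  rw [ZFSet.mem_sep]
  constructor
  · rintro ⟨_, γ', _, n', _, e, α', _, β', _, x', _, y', _, h3, h4, h5, h6⟩
    obtain ⟨rfl, rfl⟩ := ZFSet.pair_inj.1 e
    obtain ⟨rfl, rfl⟩ := ZFSet.pair_inj.1 (hs'' γ hγ _ _ hγs h3)
    rw [isBij_func hg' hα h4, isBij_func hg' hβ h5]
    exact h6
  · intro h
    exact ⟨ZFSet.pair_mem_prod.2 ⟨hγ, num_mem_omega n⟩, γ, hγ, num n, num_mem_omega n, rfl,
      α, hαo, β, hβo, x, hx, y, hy, hγs, hα, hβ, h⟩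

/-- the relation of the amalgam -/
def amF (A₀ R₁ R₂ r h₁ h₂ k u v x y : U) : Prop :=
  (ZFSet.pair u x ∈ h₁ ∧ ZFSet.pair v y ∈ h₁ ∧ ZFSet.pair k (ZFSet.pair x y) ∈ R₁) ∨
  (ZFSet.pair u x ∈ h₂ ∧ ZFSet.pair v y ∈ h₂ ∧ ZFSet.pair k (ZFSet.pair x y) ∈ R₂) ∨
  (ZFSet.pair u x ∈ h₁ ∧ ZFSet.pair v y ∈ h₂ ∧
    ((x ∈ A₀ ∧ y ∉ A₀) ∧ ZFSet.pair k (ZFSet.pair x y) ∈ R₂ ∨ ¬ (x ∈ A₀ ∧ y ∉ A₀) ∧ k ∈ r)) ∨
  (ZFSet.pair u x ∈ h₂ ∧ ZFSet.pair v y ∈ h₁ ∧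
    ((y ∈ A₀ ∧ x ∉ A₀) ∧ ZFSet.pair k (ZFSet.pair x y) ∈ R₂ ∨ ¬ (y ∈ A₀ ∧ x ∉ A₀) ∧ k ∈ r))

theorem exists_amRel {K : Set U} (hK : Nice K) {o A A₀ R₁ R₂ r h₁ h₂ : U} (ho : o ∈ K)
    (hA : A ∈ K) (hA₀ : A₀ ∈ K) (hR₁ : R₁ ∈ K) (hR₂ : R₂ ∈ K) (hr : r ∈ K) (hh₁ : h₁ ∈ K)
    (hh₂ : h₂ ∈ K) : ∃ S ∈ K, ∀ k u v, Rel S k u v ↔
      u ∈ o ∧ v ∈ o ∧ ∃ x ∈ A, ∃ y ∈ A, amF A₀ R₁ R₂ r h₁ h₂ (num k) u v x y := by
  have he := hK.empty
  have h1 : Dfn K (fun l => ∃ k ∈ nth l 1, ∃ u ∈ nth l 2, ∃ v ∈ nth l 2,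
      nth l 0 = ZFSet.pair k (ZFSet.pair u v) ∧
      ∃ x ∈ nth l 3, ∃ y ∈ nth l 3,
        amF (nth l 4) (nth l 5) (nth l 6) (nth l 7) (nth l 8) (nth l 9) k u v x y) := by
    apply Dfn.bex hK (DfnT.var he 1)
    simp only [nth_tail, Nat.reduceAdd]
    apply Dfn.bex hK (DfnT.var he 3)
    simp only [nth_tail, Nat.reduceAdd]
    apply Dfn.bex hK (DfnT.var he 4)
    simp only [nth_tail, Nat.reduceAdd]
    refine (Dfn.eq he (DfnT.var he 3) (DfnT.pair hK (DfnT.var he 2)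
      (DfnT.pair hK (DfnT.var he 1) (DfnT.var he 0)))).and ?_
    apply Dfn.bex hK (DfnT.var he 6)
    simp only [nth_tail, Nat.reduceAdd]
    apply Dfn.bex hK (DfnT.var he 7)
    simp only [nth_tail, Nat.reduceAdd]
    -- `k = 4, u = 3, v = 2, x = 1, y = 0, A₀ = 9, R₁ = 10, R₂ = 11, r = 12, h₁ = 13, h₂ = 14`
    unfold amF
    have pm : ∀ i j k, Dfn K (fun l => ZFSet.pair (nth l i) (nth l j) ∈ nth l k) :=
      fun i j k => Dfn.mem he (DfnT.pair hK (DfnT.var he i) (DfnT.var he j)) (DfnT.var he k)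
    have pm3 : ∀ m i j k, Dfn K (fun l =>
        ZFSet.pair (nth l m) (ZFSet.pair (nth l i) (nth l j)) ∈ nth l k) :=
      fun m i j k => Dfn.mem he (DfnT.pair hK (DfnT.var he m)
        (DfnT.pair hK (DfnT.var he i) (DfnT.var he j))) (DfnT.var he k)
    have vm : ∀ i j, Dfn K (fun l => nth l i ∈ nth l j) :=
      fun i j => Dfn.mem he (DfnT.var he i) (DfnT.var he j)
    refine Dfn.or ((pm _ _ _).and ((pm _ _ _).and (pm3 _ _ _ _))) ?_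
    refine Dfn.or ((pm _ _ _).and ((pm _ _ _).and (pm3 _ _ _ _))) ?_
    refine Dfn.or ((pm _ _ _).and ((pm _ _ _).and (Dfn.or
      (((vm _ _).and (vm _ _).not).and (pm3 _ _ _ _))
      (((vm _ _).and (vm _ _).not).not.and (vm _ _))))) ?_
    exact (pm _ _ _).and ((pm _ _ _).and (Dfn.or
      (((vm _ _).and (vm _ _).not).and (pm3 _ _ _ _))
      (((vm _ _).and (vm _ _).not).not.and (vm _ _))))
  have h2 := hK.sepD h1 (l := [ZFSet.omega, o, A, A₀, R₁, R₂, r, h₁, h₂])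
    (((((((((WL.nil.cons hh₂).cons hh₁).cons hr).cons hR₂).cons hR₁).cons hA₀).cons hA).cons
      ho).cons hK.omega) (hK.prod hK.omega (hK.prod ho ho))
  simp only [nth_cons_zero, nth_cons_succ] at h2
  refine ⟨_, h2, fun k u v => ?_⟩
  unfold Rel
  rw [ZFSet.mem_sep]
  constructor
  · rintro ⟨_, k', _, u', hu', v', hv', e, h⟩
    obtain ⟨rfl, e'⟩ := ZFSet.pair_inj.1 e
    obtain ⟨rfl, rfl⟩ := ZFSet.pair_inj.1 e'
    exact ⟨hu', hv', h⟩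
  · rintro ⟨hu, hv, h⟩
    refine ⟨?_, num k, num_mem_omega k, u, hu, v, hv, rfl, h⟩
    rw [ZFSet.pair_mem_prod, ZFSet.pair_mem_prod]
    exact ⟨num_mem_omega k, hu, hv⟩

/-- the amalgam has no monochromatic triangle -/
theorem amalgam_noMono {o A₀ R₀ A₁ R₁ A₂ R₂ S : U} {r : ℕ → Prop} {h₁ h₂ : U → U → Prop}
    (hn₁ : NoMono A₁ R₁) (hn₂ : NoMono A₂ R₂) (hs₁ : IsSub A₀ R₀ A₁ R₁)
    (hs₂ : IsSub A₀ R₀ A₂ R₂)
    (hr₁ : ∀ x ∈ A₁, ∀ y ∈ A₁, cl R₁ x y ≠ r) (hr₂ : ∀ x ∈ A₂, ∀ y ∈ A₂, cl R₂ x y ≠ r)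
    (h₁A : ∀ u x, h₁ u x → x ∈ A₁) (h₂A : ∀ u x, h₂ u x → x ∈ A₂)
    (h₁i : ∀ u v x, h₁ u x → h₁ v x → u = v) (h₂i : ∀ u v x, h₂ u x → h₂ v x → u = v)
    (hcov : ∀ u ∈ o, (∃ x, h₁ u x) ∨ ∃ x, h₂ u x)
    (S11 : ∀ u v x y, h₁ u x → h₁ v y → cl S u v = cl R₁ x y)
    (S22 : ∀ u v x y, h₂ u x → h₂ v y → cl S u v = cl R₂ x y)
    (S12 : ∀ u v x y, h₁ u x → h₂ v y → x ∈ A₀ → y ∉ A₀ → cl S u v = cl R₂ x y)
    (S12' : ∀ u v x y, h₁ u x → h₂ v y → ¬ (x ∈ A₀ ∧ y ∉ A₀) → cl S u v = r)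
    (S21 : ∀ u v x y, h₂ u x → h₁ v y → y ∈ A₀ → x ∉ A₀ → cl S u v = cl R₂ x y)
    (S21' : ∀ u v x y, h₂ u x → h₁ v y → ¬ (y ∈ A₀ ∧ x ∉ A₀) → cl S u v = r) :
    NoMono o S := by
  have hsub : ∀ x ∈ A₀, ∀ y ∈ A₀, cl R₁ x y = cl R₂ x y := by
    intro x hx y hy
    funext k
    exact propext ((hs₁.2 k x hx y hy).symm.trans (hs₂.2 k x hx y hy))
  have hsym : ∀ u ∈ o, ∀ v ∈ o, cl S u v = cl S v u := by
    intro u hu v hv
    rcases hcov u hu with ⟨x, hx⟩ | ⟨x, hx⟩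
    · rcases hcov v hv with ⟨y, hy⟩ | ⟨y, hy⟩
      · rw [S11 u v x y hx hy, S11 v u y x hy hx]
        exact hn₁.cl_symm (h₁A u x hx) (h₁A v y hy)
      · by_cases h : x ∈ A₀ ∧ y ∉ A₀
        · rw [S12 u v x y hx hy h.1 h.2, S21 v u y x hy hx h.1 h.2]
          exact hn₂.cl_symm (hs₂.1 h.1) (h₂A v y hy)
        · rw [S12' u v x y hx hy h, S21' v u y x hy hx h]
    · rcases hcov v hv with ⟨y, hy⟩ | ⟨y, hy⟩
      · by_cases h : y ∈ A₀ ∧ x ∉ A₀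
        · rw [S21 u v x y hx hy h.1 h.2, S12 v u y x hy hx h.1 h.2]
          exact hn₂.cl_symm (h₂A u x hx) (hs₂.1 h.1)
        · rw [S21' u v x y hx hy h, S12' v u y x hy hx h]
      · rw [S22 u v x y hx hy, S22 v u y x hy hx]
        exact hn₂.cl_symm (h₂A u x hx) (h₂A v y hy)
  -- two points of the first kind and one of the second kind
  have h112 : ∀ u v w x y z, h₁ u x → h₁ v y → h₂ w z → u ≠ v → cl S u v = cl S v w →
      cl S u v = cl S u w → False := by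
    intro u v w x y z hx hy hz huv e1 e2
    have hxy : x ≠ y := by
      rintro rfl
      exact huv (h₁i u v x hx hy)
    rw [S11 u v x y hx hy] at e1 e2
    by_cases h1 : x ∈ A₀ ∧ z ∉ A₀
    · by_cases h2 : y ∈ A₀ ∧ z ∉ A₀
      · rw [S12 v w y z hy hz h2.1 h2.2, hsub x h1.1 y h2.1] at e1
        rw [S12 u w x z hx hz h1.1 h1.2, hsub x h1.1 y h2.1] at e2
        refine hn₂.cl_tri (hs₂.1 h1.1) (hs₂.1 h2.1) (h₂A w z hz) hxy ?_ ?_ e1 e2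
        · rintro rfl
          exact h2.2 h2.1
        · rintro rfl
          exact h1.2 h1.1
      · rw [S12' v w y z hy hz h2] at e1
        exact hr₁ x (h₁A u x hx) y (h₁A v y hy) e1
    · rw [S12' u w x z hx hz h1] at e2
      exact hr₁ x (h₁A u x hx) y (h₁A v y hy) e2
  -- one point of the first kind and two of the second kind
  have h122 : ∀ u v w x y z, h₁ u x → h₂ v y → h₂ w z → v ≠ w → cl S v w = cl S u v →
      cl S v w = cl S u w → False := by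
    intro u v w x y z hx hy hz hvw e1 e2
    have hyz : y ≠ z := by
      rintro rfl
      exact hvw (h₂i v w y hy hz)
    rw [S22 v w y z hy hz] at e1 e2
    by_cases h1 : x ∈ A₀ ∧ y ∉ A₀
    · by_cases h2 : x ∈ A₀ ∧ z ∉ A₀
      · rw [S12 u v x y hx hy h1.1 h1.2] at e1
        rw [S12 u w x z hx hz h2.1 h2.2] at e2
        refine hn₂.cl_tri (hs₂.1 h1.1) (h₂A v y hy) (h₂A w z hz) ?_ hyz ?_ e1.symm
          (e1.symm.trans e2)
        · rintro rfl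
          exact h1.2 h1.1
        · rintro rfl
          exact h2.2 h2.1
      · rw [S12' u w x z hx hz h2] at e2
        exact hr₂ y (h₂A v y hy) z (h₂A w z hz) e2
    · rw [S12' u v x y hx hy h1] at e1
      exact hr₂ y (h₂A v y hy) z (h₂A w z hz) e1
  refine noMono_of_cl hsym ?_
  intro u hu v hv w hw huv hvw huw e1 e2
  have s1 := hsym u hu v hv
  have s2 := hsym v hv w hw
  have s3 := hsym u hu w hw
  rcases hcov u hu with ⟨x, hx⟩ | ⟨x, hx⟩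
  · rcases hcov v hv with ⟨y, hy⟩ | ⟨y, hy⟩
    · rcases hcov w hw with ⟨z, hz⟩ | ⟨z, hz⟩
      · rw [S11 u v x y hx hy, S11 v w y z hy hz] at e1
        rw [S11 u v x y hx hy, S11 u w x z hx hz] at e2
        refine hn₁.cl_tri (h₁A u x hx) (h₁A v y hy) (h₁A w z hz) ?_ ?_ ?_ e1 e2
        · rintro rfl
          exact huv (h₁i u v x hx hy)
        · rintro rfl
          exact hvw (h₁i v w y hy hz)
        · rintro rfl
          exact huw (h₁i u w x hx hz)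
      · exact h112 u v w x y z hx hy hz huv e1 e2
    · rcases hcov w hw with ⟨z, hz⟩ | ⟨z, hz⟩
      · exact h112 u w v x z y hx hz hy huw (e2.symm.trans (e1.trans s2)) e2.symm
      · exact h122 u v w x y z hx hy hz hvw e1.symm (e1.symm.trans e2)
  · rcases hcov v hv with ⟨y, hy⟩ | ⟨y, hy⟩
    · rcases hcov w hw with ⟨z, hz⟩ | ⟨z, hz⟩
      · exact h112 v w u y z x hy hz hx hvw (e1.symm.trans (e2.trans s3)) (e1.symm.trans s1)
      · exact h122 v u w y x z hy hx hz huw (e2.symm.trans s1) (e2.symm.trans e1)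
    · rcases hcov w hw with ⟨z, hz⟩ | ⟨z, hz⟩
      · exact h122 w u v z x y hz hx hy huv (e2.trans s3) (e1.trans s2)
      · rw [S22 u v x y hx hy, S22 v w y z hy hz] at e1
        rw [S22 u v x y hx hy, S22 u w x z hx hz] at e2
        refine hn₂.cl_tri (h₂A u x hx) (h₂A v y hy) (h₂A w z hz) ?_ ?_ ?_ e1 e2
        · rintro rfl
          exact huv (h₂i u v x hx hy)
        · rintro rfl
          exact hvw (h₂i v w y hy hz)
        · rintro rfl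
          exact huw (h₂i u w x hx hz)

/-- a half of the universe, with its properties -/
structure Half (o A h : U) : Prop where
  dom : ∀ u x, ZFSet.pair u x ∈ h → u ∈ o
  ran : ∀ u x, ZFSet.pair u x ∈ h → x ∈ A
  func : ∀ u x y, ZFSet.pair u x ∈ h → ZFSet.pair u y ∈ h → x = y
  inj : ∀ u v x, ZFSet.pair u x ∈ h → ZFSet.pair v x ∈ h → u = v
  surj : ∀ x ∈ A, ∃ u, ZFSet.pair u x ∈ h

theorem half_of {o t g A h : U} {i : ℕ} (hi : i < 2)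
    (ht : IsBij o (ZFSet.prod o {num 0, num 1}) t) (hg : IsBij o A g)
    (hh : ∀ u x, ZFSet.pair u x ∈ h ↔ u ∈ o ∧ x ∈ A ∧
      ∃ a ∈ o, ZFSet.pair u (ZFSet.pair a (num i)) ∈ t ∧ ZFSet.pair a x ∈ g) : Half o A h where
  dom := fun u x h => ((hh u x).1 h).1
  ran := fun u x h => ((hh u x).1 h).2.1
  func := by
    intro u x y hx hy
    obtain ⟨_, _, a, _, h1, h2⟩ := (hh u x).1 hx
    obtain ⟨_, _, b, _, h3, h4⟩ := (hh u y).1 hy
    have e := (ZFSet.pair_inj.1 (isBij_func ht h1 h3)).1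
    subst e
    exact isBij_func hg h2 h4
  inj := by
    intro u v x hx hy
    obtain ⟨_, _, a, _, h1, h2⟩ := (hh u x).1 hx
    obtain ⟨_, _, b, _, h3, h4⟩ := (hh v x).1 hy
    have e := hg.1.2 _ _ _ h2 h4
    subst e
    exact ht.1.2 _ _ _ h1 h3
  surj := by
    intro x hx
    obtain ⟨a, ha⟩ := hg.2 x hx
    have hao := isBij_dom hg ha
    have hi' : num i ∈ ({num 0, num 1} : U) := by
      rw [ZFSet.mem_pair]
      interval_cases i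
      · exact Or.inl rfl
      · exact Or.inr rfl
    obtain ⟨u, hu⟩ := ht.2 (ZFSet.pair a (num i)) (ZFSet.pair_mem_prod.2 ⟨hao, hi'⟩)
    exact ⟨u, (hh u x).2 ⟨isBij_dom ht hu, hx, a, hao, hu, ha⟩⟩

/-- a restricted inverse of the two halves -/
theorem exists_emb {K : Set U} (hK : Nice K) {o A A₀ h₁ h₂ : U} (ho : o ∈ K) (hA : A ∈ K)
    (hA₀ : A₀ ∈ K) (hh₁ : h₁ ∈ K) (hh₂ : h₂ ∈ K) : ∃ f ∈ K, f ⊆ ZFSet.prod A o ∧
      ∀ x u, ZFSet.pair x u ∈ f ↔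
      x ∈ A ∧ u ∈ o ∧ ((x ∈ A₀ ∧ ZFSet.pair u x ∈ h₁) ∨ (x ∉ A₀ ∧ ZFSet.pair u x ∈ h₂)) := by
  have he := hK.empty
  have h1 : Dfn K (fun l => ∃ x ∈ nth l 1, ∃ u ∈ nth l 2, nth l 0 = ZFSet.pair x u ∧
      ((x ∈ nth l 3 ∧ ZFSet.pair u x ∈ nth l 4) ∨ (x ∉ nth l 3 ∧ ZFSet.pair u x ∈ nth l 5))) := by
    apply Dfn.bex hK (DfnT.var he 1)
    simp only [nth_tail, Nat.reduceAdd]
    apply Dfn.bex hK (DfnT.var he 3)
    simp only [nth_tail, Nat.reduceAdd]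
    refine (Dfn.eq he (DfnT.var he 2) (DfnT.pair hK (DfnT.var he 1) (DfnT.var he 0))).and ?_
    exact ((Dfn.mem he (DfnT.var he 1) (DfnT.var he 5)).and
      (Dfn.mem he (DfnT.pair hK (DfnT.var he 0) (DfnT.var he 1)) (DfnT.var he 6))).or
      ((Dfn.mem he (DfnT.var he 1) (DfnT.var he 5)).not.and
      (Dfn.mem he (DfnT.pair hK (DfnT.var he 0) (DfnT.var he 1)) (DfnT.var he 7)))
  have h2 := hK.sepD h1 (l := [A, o, A₀, h₁, h₂])
    (((((WL.nil.cons hh₂).cons hh₁).cons hA₀).cons ho).cons hA) (hK.prod hA ho)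
  simp only [nth_cons_zero, nth_cons_succ] at h2
  refine ⟨_, h2, ZFSet.sep_subset, fun x u => ?_⟩
  rw [ZFSet.mem_sep]
  constructor
  · rintro ⟨_, x', hx', u', hu', e, h⟩
    obtain ⟨rfl, rfl⟩ := ZFSet.pair_inj.1 e
    exact ⟨hx', hu', h⟩
  · rintro ⟨hx, hu, h⟩
    exact ⟨ZFSet.pair_mem_prod.2 ⟨hx, hu⟩, x, hx, u, hu, rfl, h⟩

theorem spec_of_rich {K : Set U} (hK : Nice K) {o t s E : U} (ho : IsOmega1 K o)
    (ht : t ∈ K) (ht' : IsBij o (ZFSet.prod o {num 0, num 1}) t)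
    (hs : s ∈ K) (hs' : ∀ α ∈ o, ∀ β ∈ o, ∃ γ ∈ o, ZFSet.pair γ (ZFSet.pair α β) ∈ s)
    (hs'' : ∀ γ ∈ o, ∀ w w', ZFSet.pair γ w ∈ s → ZFSet.pair γ w' ∈ s → w = w')
    (hE : E ∈ K)
    (hE' : ∀ α ∈ o, ∀ β ∈ o, α ≠ β → ∃ n, ¬ (ZFSet.pair α (num n) ∈ E ↔ ZFSet.pair β (num n) ∈ E))
    (hQ : ∀ S₁ ∈ K, ∀ S₂ ∈ K, ∃ r ∈ K, ∀ α ∈ o,
      (∃ n, ¬ (num n ∈ r ↔ ZFSet.pair α (num n) ∈ S₁)) ∧
      (∃ n, ¬ (num n ∈ r ↔ ZFSet.pair α (num n) ∈ S₂))) :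
    AlephOneInSpec K phi := by
  have hoK := ho.1
  have hmodel : ∀ R ∈ K, NoMono o R → IsModel K phi o R := fun R hR hn =>
    ⟨hoK, hR, ⟨o, ho, exists_id hK hoK⟩, (holds_phi _ _).2 hn⟩
  refine ⟨?_, ?_⟩
  · obtain ⟨R, hR, hn⟩ := exists_noMono hK hoK hE hE'
    exact ⟨o, R, hmodel R hR hn⟩
  · rintro A₀ R₀ A₁ R₁ A₂ R₂ hM₀ ⟨hA₁, hR₁, ⟨o₁, ho₁, g₁, hg₁, hg₁'⟩, hH₁⟩
      ⟨hA₂, hR₂, ⟨o₂, ho₂, g₂, hg₂, hg₂'⟩, hH₂⟩ hs₁ hs₂
    have e1 := ho₁.unique ho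
    have e2 := ho₂.unique ho
    subst e1
    subst e2
    have hn₁ := (holds_phi _ _).1 hH₁
    have hn₂ := (holds_phi _ _).1 hH₂
    have hA₀ : A₀ ∈ K := hM₀.1
    obtain ⟨S₁, hS₁, hc₁⟩ := exists_colours hK hoK hs hs' hs'' hg₁ hg₁' hA₁ hR₁
    obtain ⟨S₂, hS₂, hc₂⟩ := exists_colours hK hoK hs hs' hs'' hg₂ hg₂' hA₂ hR₂
    obtain ⟨r, hr, hrQ⟩ := hQ S₁ hS₁ S₂ hS₂
    obtain ⟨h₁, hh₁, hh₁'⟩ := exists_half hK hoK ht hg₁ hA₁ 0
    obtain ⟨h₂, hh₂, hh₂'⟩ := exists_half hK hoK ht hg₂ hA₂ 1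
    have H₁ := half_of (by norm_num) ht' hg₁' hh₁'
    have H₂ := half_of (by norm_num) ht' hg₂' hh₂'
    have hexcl : ∀ u x y, ZFSet.pair u x ∈ h₁ → ZFSet.pair u y ∈ h₂ → False := by
      intro u x y hx hy
      obtain ⟨_, _, a, _, h3, _⟩ := (hh₁' u x).1 hx
      obtain ⟨_, _, b, _, h4, _⟩ := (hh₂' u y).1 hy
      have e := (ZFSet.pair_inj.1 (isBij_func ht' h3 h4)).2
      have := num_injective e
      omega
    have hcov : ∀ u ∈ o₂, (∃ x, ZFSet.pair u x ∈ h₁) ∨ ∃ x, ZFSet.pair u x ∈ h₂ := by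
      intro u hu
      obtain ⟨w, hw, _⟩ := ht'.1.1.2 u hu
      obtain ⟨a, ha, b, hb, rfl⟩ := ZFSet.mem_prod.1 (isBij_ran ht' hw)
      rcases ZFSet.mem_pair.1 hb with rfl | rfl
      · left
        obtain ⟨x, hx, _⟩ := hg₁'.1.1.2 a ha
        exact ⟨x, (hh₁' u x).2 ⟨hu, isBij_ran hg₁' hx, a, ha, hw, hx⟩⟩
      · right
        obtain ⟨x, hx, _⟩ := hg₂'.1.1.2 a ha
        exact ⟨x, (hh₂' u x).2 ⟨hu, isBij_ran hg₂' hx, a, ha, hw, hx⟩⟩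
    obtain ⟨S, hS, hS'⟩ := exists_amRel hK hoK (hK.union hA₁ hA₂) hA₀ hR₁ hR₂ hr hh₁ hh₂
    have m₁ : ∀ {u x : U}, ZFSet.pair u x ∈ h₁ → x ∈ A₁ ∪ A₂ := fun h =>
      ZFSet.mem_union.2 (Or.inl (H₁.ran _ _ h))
    have m₂ : ∀ {u x : U}, ZFSet.pair u x ∈ h₂ → x ∈ A₁ ∪ A₂ := fun h =>
      ZFSet.mem_union.2 (Or.inr (H₂.ran _ _ h))
    have S11 : ∀ u v x y, ZFSet.pair u x ∈ h₁ → ZFSet.pair v y ∈ h₁ → cl S u v = cl R₁ x y := by
      intro u v x y hx hy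
      funext k
      apply propext
      unfold cl
      rw [hS' k u v]
      constructor
      · rintro ⟨_, _, x', _, y', _, h3⟩
        rcases h3 with ⟨h4, h5, h6⟩ | ⟨h4, _, _⟩ | ⟨_, h5, _⟩ | ⟨h4, _, _⟩
        · rw [H₁.func _ _ _ hx h4, H₁.func _ _ _ hy h5]
          exact h6
        · exact absurd h4 (fun h => hexcl _ _ _ hx h)
        · exact absurd h5 (fun h => hexcl _ _ _ hy h)
        · exact absurd h4 (fun h => hexcl _ _ _ hx h)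
      · intro h
        exact ⟨H₁.dom _ _ hx, H₁.dom _ _ hy, x, m₁ hx, y, m₁ hy, Or.inl ⟨hx, hy, h⟩⟩
    have S22 : ∀ u v x y, ZFSet.pair u x ∈ h₂ → ZFSet.pair v y ∈ h₂ → cl S u v = cl R₂ x y := by
      intro u v x y hx hy
      funext k
      apply propext
      unfold cl
      rw [hS' k u v]
      constructor
      · rintro ⟨_, _, x', _, y', _, h3⟩
        rcases h3 with ⟨h4, _, _⟩ | ⟨h4, h5, h6⟩ | ⟨h4, _, _⟩ | ⟨_, h5, _⟩
        · exact absurd hx (fun h => hexcl _ _ _ h4 h)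
        · rw [H₂.func _ _ _ hx h4, H₂.func _ _ _ hy h5]
          exact h6
        · exact absurd hx (fun h => hexcl _ _ _ h4 h)
        · exact absurd hy (fun h => hexcl _ _ _ h5 h)
      · intro h
        exact ⟨H₂.dom _ _ hx, H₂.dom _ _ hy, x, m₂ hx, y, m₂ hy, Or.inr (Or.inl ⟨hx, hy, h⟩)⟩
    have S12g : ∀ u v x y, ZFSet.pair u x ∈ h₁ → ZFSet.pair v y ∈ h₂ → ∀ k, Rel S k u v ↔
        ((x ∈ A₀ ∧ y ∉ A₀) ∧ Rel R₂ k x y ∨ ¬ (x ∈ A₀ ∧ y ∉ A₀) ∧ num k ∈ r) := by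
      intro u v x y hx hy k
      rw [hS' k u v]
      constructor
      · rintro ⟨_, _, x', _, y', _, h3⟩
        rcases h3 with ⟨_, h5, _⟩ | ⟨h4, _, _⟩ | ⟨h4, h5, h6⟩ | ⟨h4, _, _⟩
        · exact absurd hy (fun h => hexcl _ _ _ h5 h)
        · exact absurd h4 (fun h => hexcl _ _ _ hx h)
        · rw [H₁.func _ _ _ hx h4, H₂.func _ _ _ hy h5]
          exact h6
        · exact absurd h4 (fun h => hexcl _ _ _ hx h)
      · intro h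
        exact ⟨H₁.dom _ _ hx, H₂.dom _ _ hy, x, m₁ hx, y, m₂ hy,
          Or.inr (Or.inr (Or.inl ⟨hx, hy, h⟩))⟩
    have S21g : ∀ u v x y, ZFSet.pair u x ∈ h₂ → ZFSet.pair v y ∈ h₁ → ∀ k, Rel S k u v ↔
        ((y ∈ A₀ ∧ x ∉ A₀) ∧ Rel R₂ k x y ∨ ¬ (y ∈ A₀ ∧ x ∉ A₀) ∧ num k ∈ r) := by
      intro u v x y hx hy k
      rw [hS' k u v]
      constructor
      · rintro ⟨_, _, x', _, y', _, h3⟩
        rcases h3 with ⟨h4, _, _⟩ | ⟨_, h5, _⟩ | ⟨h4, _, _⟩ | ⟨h4, h5, h6⟩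
        · exact absurd hx (fun h => hexcl _ _ _ h4 h)
        · exact absurd h5 (fun h => hexcl _ _ _ hy h)
        · exact absurd hx (fun h => hexcl _ _ _ h4 h)
        · rw [H₂.func _ _ _ hx h4, H₁.func _ _ _ hy h5]
          exact h6
      · intro h
        exact ⟨H₂.dom _ _ hx, H₁.dom _ _ hy, x, m₂ hx, y, m₁ hy,
          Or.inr (Or.inr (Or.inr ⟨hx, hy, h⟩))⟩
    have S12 : ∀ u v x y, ZFSet.pair u x ∈ h₁ → ZFSet.pair v y ∈ h₂ → x ∈ A₀ → y ∉ A₀ →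
        cl S u v = cl R₂ x y := by
      intro u v x y hx hy h3 h4
      funext k
      apply propext
      unfold cl
      rw [S12g u v x y hx hy k]
      tauto
    have S12' : ∀ u v x y, ZFSet.pair u x ∈ h₁ → ZFSet.pair v y ∈ h₂ → ¬ (x ∈ A₀ ∧ y ∉ A₀) →
        cl S u v = fun k => num k ∈ r := by
      intro u v x y hx hy h3
      funext k
      apply propext
      unfold cl
      rw [S12g u v x y hx hy k]
      tauto
    have S21 : ∀ u v x y, ZFSet.pair u x ∈ h₂ → ZFSet.pair v y ∈ h₁ → y ∈ A₀ → x ∉ A₀ →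
        cl S u v = cl R₂ x y := by
      intro u v x y hx hy h3 h4
      funext k
      apply propext
      unfold cl
      rw [S21g u v x y hx hy k]
      tauto
    have S21' : ∀ u v x y, ZFSet.pair u x ∈ h₂ → ZFSet.pair v y ∈ h₁ → ¬ (y ∈ A₀ ∧ x ∉ A₀) →
        cl S u v = fun k => num k ∈ r := by
      intro u v x y hx hy h3
      funext k
      apply propext
      unfold cl
      rw [S21g u v x y hx hy k]
      tauto
    have hr₁ : ∀ x ∈ A₁, ∀ y ∈ A₁, cl R₁ x y ≠ fun k => num k ∈ r := by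
      intro x hx y hy e
      obtain ⟨γ, hγ, hγ'⟩ := hc₁ x hx y hy
      obtain ⟨n, hn⟩ := (hrQ γ hγ).1
      apply hn
      rw [hγ' n]
      exact (Iff.of_eq (congrFun e n)).symm
    have hr₂ : ∀ x ∈ A₂, ∀ y ∈ A₂, cl R₂ x y ≠ fun k => num k ∈ r := by
      intro x hx y hy e
      obtain ⟨γ, hγ, hγ'⟩ := hc₂ x hx y hy
      obtain ⟨n, hn⟩ := (hrQ γ hγ).2
      apply hn
      rw [hγ' n]
      exact (Iff.of_eq (congrFun e n)).symm
    have hnS : NoMono o₂ S := amalgam_noMono (h₁ := fun u x => ZFSet.pair u x ∈ h₁)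
      (h₂ := fun u x => ZFSet.pair u x ∈ h₂) hn₁ hn₂ hs₁ hs₂ hr₁ hr₂ H₁.ran H₂.ran H₁.inj H₂.inj
      hcov S11 S22 S12 S12' S21 S21'
    obtain ⟨f₁, hf₁, hfs₁, hf₁'⟩ := exists_emb hK hoK hA₁ hA₁ hh₁ hh₁
    obtain ⟨f₂, hf₂, hfs₂, hf₂'⟩ := exists_emb hK hoK hA₂ hA₀ hh₁ hh₂
    have hf₁'' : ∀ x u, ZFSet.pair x u ∈ f₁ ↔ ZFSet.pair u x ∈ h₁ := by
      intro x u
      rw [hf₁']
      constructor
      · rintro ⟨hx, _, ⟨_, h⟩ | ⟨h, _⟩⟩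
        · exact h
        · exact absurd hx h
      · intro h
        exact ⟨H₁.ran _ _ h, H₁.dom _ _ h, Or.inl ⟨H₁.ran _ _ h, h⟩⟩
    refine ⟨o₂, S, hmodel S hS hnS, f₁, hf₁, f₂, hf₂, ⟨⟨⟨?_, ?_⟩, ?_⟩, ?_⟩,
      ⟨⟨⟨?_, ?_⟩, ?_⟩, ?_⟩, ?_⟩
    · exact hfs₁
    · intro z hz
      obtain ⟨u, hu⟩ := H₁.surj z hz
      exact ⟨u, (hf₁'' _ _).2 hu, fun v hv => H₁.inj _ _ _ ((hf₁'' _ _).1 hv) hu⟩
    · intro a b u ha hb
      exact H₁.func _ _ _ ((hf₁'' _ _).1 ha) ((hf₁'' _ _).1 hb)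
    · intro k x y u v hx hy
      exact (Iff.of_eq (congrFun (S11 u v x y ((hf₁'' _ _).1 hx) ((hf₁'' _ _).1 hy)) k)).symm
    · exact hfs₂
    · intro z hz
      by_cases hz₀ : z ∈ A₀
      · obtain ⟨u, hu⟩ := H₁.surj z (hs₁.1 hz₀)
        refine ⟨u, (hf₂' _ _).2 ⟨hz, H₁.dom _ _ hu, Or.inl ⟨hz₀, hu⟩⟩, fun v hv => ?_⟩
        rcases ((hf₂' _ _).1 hv).2.2 with ⟨_, h⟩ | ⟨h, _⟩
        · exact H₁.inj _ _ _ h hu
        · exact absurd hz₀ h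
      · obtain ⟨u, hu⟩ := H₂.surj z hz
        refine ⟨u, (hf₂' _ _).2 ⟨hz, H₂.dom _ _ hu, Or.inr ⟨hz₀, hu⟩⟩, fun v hv => ?_⟩
        rcases ((hf₂' _ _).1 hv).2.2 with ⟨h, _⟩ | ⟨_, h⟩
        · exact absurd h hz₀
        · exact H₂.inj _ _ _ h hu
    · intro a b u ha hb
      rcases ((hf₂' _ _).1 ha).2.2 with ⟨_, h3⟩ | ⟨_, h3⟩
      · rcases ((hf₂' _ _).1 hb).2.2 with ⟨_, h4⟩ | ⟨_, h4⟩
        · exact H₁.func _ _ _ h3 h4
        · exact absurd h4 (fun h => hexcl _ _ _ h3 h)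
      · rcases ((hf₂' _ _).1 hb).2.2 with ⟨_, h4⟩ | ⟨_, h4⟩
        · exact absurd h3 (fun h => hexcl _ _ _ h4 h)
        · exact H₂.func _ _ _ h3 h4
    · intro k x y u v hx hy
      suffices e : cl S u v = cl R₂ x y from (Iff.of_eq (congrFun e k)).symm
      rcases ((hf₂' _ _).1 hx).2.2 with ⟨hx₀, h3⟩ | ⟨hx₀, h3⟩
      · rcases ((hf₂' _ _).1 hy).2.2 with ⟨hy₀, h4⟩ | ⟨hy₀, h4⟩
        · rw [S11 u v x y h3 h4]
          funext k
          exact propext ((hs₁.2 k x hx₀ y hy₀).symm.trans (hs₂.2 k x hx₀ y hy₀))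
        · exact S12 u v x y h3 h4 hx₀ hy₀
      · rcases ((hf₂' _ _).1 hy).2.2 with ⟨hy₀, h4⟩ | ⟨hy₀, h4⟩
        · exact S21 u v x y h3 h4 hy₀ hx₀
        · exact S22 u v x y h3 h4
    · intro x hx y
      rw [hf₁'', hf₂']
      constructor
      · intro h
        exact ⟨hs₂.1 hx, H₁.dom _ _ h, Or.inl ⟨hx, h⟩⟩
      · rintro ⟨_, _, ⟨_, h⟩ | ⟨h, _⟩⟩
        · exact h
        · exact absurd hx h

end Pool.Agent.MP8322
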