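import Pool.Agent.MP_8322c3_lc.Defs

set_option autoImplicit false

namespace Pool.Agent.MP8322

@[simp] theorem nth_cons_zero (x : U) (l : List U) : nth (x :: l) 0 = x := rfl

@[simp] theorem nth_cons_succ (x : U) (l : List U) (i : ℕ) : nth (x :: l) (i + 1) = nth l i := by
  simp [nth]

theorem nth_tail (l : List U) (i : ℕ) : nth l.tail i = nth l (i + 1) := by
  cases l with
  | nil => simp [nth]
  | cons x l => simp

/-- all entries of the list are in `W` -/
def WL (W : Set U) (l : List U) : Prop := ∀ x ∈ l, x ∈ W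

theorem WL.nil {W : Set U} : WL W [] := by simp [WL]

theorem WL.cons {W : Set U} {x : U} {l : List U} (hx : x ∈ W) (hl : WL W l) : WL W (x :: l) := by
  intro y hy
  rcases List.mem_cons.1 hy with rfl | hy
  · exact hx
  · exact hl y hy

theorem WL.tail {W : Set U} {l : List U} (hl : WL W l) : WL W l.tail :=
  fun x hx => hl x (List.mem_of_mem_tail hx)

theorem WL.get {W : Set U} {l : List U} (he : (∅ : U) ∈ W) (hl : WL W l) (i : ℕ) :
    nth l i ∈ W := by
  unfold MP8322.nth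
  by_cases h : i < l.length
  · rw [List.getD_eq_getElem _ _ h]
    exact hl _ (List.getElem_mem h)
  · rw [List.getD_eq_default _ _ (not_lt.1 h)]
    exact he

def lift (f : ℕ → ℕ) : ℕ → ℕ
  | 0 => 0
  | n + 1 => f n + 1

def Fml.ren : (ℕ → ℕ) → Fml → Fml
  | f, .mem i j => .mem (f i) (f j)
  | f, .eq i j => .eq (f i) (f j)
  | f, .neg φ => .neg (φ.ren f)
  | f, .and φ ψ => .and (φ.ren f) (ψ.ren f)
  | f, .ex φ => .ex (φ.ren (lift f))

theorem sat_ren (W : Set U) (φ : Fml) : ∀ (f : ℕ → ℕ) (l l' : List U),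
    (∀ i, nth l' i = nth l (f i)) → (Sat W (φ.ren f) l ↔ Sat W φ l') := by
  induction φ with
  | mem i j =>
    intro f l l' h
    simp only [Fml.ren, Sat, h]
  | eq i j =>
    intro f l l' h
    simp only [Fml.ren, Sat, h]
  | neg φ ih =>
    intro f l l' h
    simp only [Fml.ren, Sat, ih f l l' h]
  | and φ ψ ih1 ih2 =>
    intro f l l' h
    simp only [Fml.ren, Sat, ih1 f l l' h, ih2 f l l' h]
  | ex φ ih =>
    intro f l l' h
    simp only [Fml.ren, Sat]
    refine exists_congr fun x => and_congr Iff.rfl ?_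
    apply ih
    intro i
    cases i with
    | zero => rfl
    | succ i => simp only [lift, nth_cons_succ, h]

/-- transitive classes closed under the basic operations and separation -/
structure Nice (W : Set U) : Prop where
  trans : ∀ x ∈ W, ∀ y ∈ x, y ∈ W
  empty : (∅ : U) ∈ W
  upair : ∀ x ∈ W, ∀ y ∈ W, ({x, y} : U) ∈ W
  sUnion : ∀ x ∈ W, ZFSet.sUnion x ∈ W
  power : ∀ x ∈ W, ZFSet.sep (fun y => y ∈ W) (ZFSet.powerset x) ∈ W
  omega : ZFSet.omega ∈ W
  sep : ∀ (φ : Fml) (l : List U), WL W l → ∀ a ∈ W,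
    ZFSet.sep (fun u => Sat W φ (u :: l)) a ∈ W

/-- `R` is definable over `(W, ∈)` -/
def Dfn (W : Set U) (R : List U → Prop) : Prop :=
  ∃ φ : Fml, ∀ l, WL W l → (Sat W φ l ↔ R l)

/-- `t` is a definable function over `(W, ∈)` -/
def DfnT (W : Set U) (t : List U → U) : Prop :=
  (∀ l, WL W l → t l ∈ W) ∧ Dfn W (fun l => nth l 0 = t l.tail)

variable {W : Set U}

theorem Dfn.congr {R R' : List U → Prop} (h : Dfn W R) (hR : ∀ l, WL W l → (R' l ↔ R l)) :
    Dfn W R' := by
  obtain ⟨φ, hφ⟩ := h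
  exact ⟨φ, fun l hl => (hφ l hl).trans (hR l hl).symm⟩

theorem Dfn.not {R : List U → Prop} (h : Dfn W R) : Dfn W (fun l => ¬ R l) := by
  obtain ⟨φ, hφ⟩ := h
  exact ⟨.neg φ, fun l hl => by simp only [Sat, hφ l hl]⟩

theorem Dfn.and {R S : List U → Prop} (h : Dfn W R) (h' : Dfn W S) :
    Dfn W (fun l => R l ∧ S l) := by
  obtain ⟨φ, hφ⟩ := h
  obtain ⟨ψ, hψ⟩ := h'
  exact ⟨.and φ ψ, fun l hl => by simp only [Sat, hφ l hl, hψ l hl]⟩

theorem Dfn.or {R S : List U → Prop} (h : Dfn W R) (h' : Dfn W S) :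
    Dfn W (fun l => R l ∨ S l) :=
  (h.not.and h'.not).not.congr fun l _ => by tauto

theorem Dfn.imp {R S : List U → Prop} (h : Dfn W R) (h' : Dfn W S) :
    Dfn W (fun l => R l → S l) :=
  (h.and h'.not).not.congr fun l _ => by tauto

theorem Dfn.iff {R S : List U → Prop} (h : Dfn W R) (h' : Dfn W S) :
    Dfn W (fun l => R l ↔ S l) :=
  ((h.imp h').and (h'.imp h)).congr fun l _ => by tauto

theorem Dfn.ex {R : U → List U → Prop} (h : Dfn W (fun l => R (nth l 0) l.tail)) :
    Dfn W (fun l => ∃ x ∈ W, R x l) := by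
  obtain ⟨φ, hφ⟩ := h
  refine ⟨.ex φ, fun l hl => ?_⟩
  simp only [Sat]
  refine exists_congr fun x => ?_
  constructor
  · rintro ⟨hx, h⟩
    exact ⟨hx, (hφ _ (hl.cons hx)).1 h⟩
  · rintro ⟨hx, h⟩
    exact ⟨hx, (hφ _ (hl.cons hx)).2 h⟩

theorem Dfn.all {R : U → List U → Prop} (h : Dfn W (fun l => R (nth l 0) l.tail)) :
    Dfn W (fun l => ∀ x ∈ W, R x l) :=
  (Dfn.ex (R := fun x l => ¬ R x l) h.not).not.congr fun l _ => by
    push Not
    exact Iff.rfl

theorem Dfn.reindex {R : List U → Prop} (h : Dfn W R) (g : List U → List U) (f : ℕ → ℕ)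
    (hf : ∀ l i, nth (g l) i = nth l (f i)) (hg : ∀ l, WL W l → WL W (g l)) :
    Dfn W (fun l => R (g l)) := by
  obtain ⟨φ, hφ⟩ := h
  refine ⟨φ.ren f, fun l hl => ?_⟩
  rw [sat_ren W φ f l (g l) (hf l)]
  exact hφ _ (hg l hl)

theorem Dfn.wk {R : List U → Prop} (h : Dfn W R) : Dfn W (fun l => R l.tail) :=
  h.reindex List.tail (fun i => i + 1) nth_tail fun _ hl => hl.tail

theorem DfnT.wk {t : List U → U} (he : (∅ : U) ∈ W) (h : DfnT W t) :
    DfnT W (fun l => t l.tail) := by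
  refine ⟨fun l hl => h.1 _ hl.tail, ?_⟩
  have := h.2.reindex (fun l => nth l 0 :: l.tail.tail)
    (fun i => match i with | 0 => 0 | i + 1 => i + 2) (fun l i => by
      cases i with
      | zero => rfl
      | succ i => simp [nth_tail]) (fun l hl => WL.cons (hl.get he 0) hl.tail.tail)
  simpa using this

theorem DfnT.var (he : (∅ : U) ∈ W) (i : ℕ) : DfnT W (fun l => nth l i) := by
  refine ⟨fun l hl => hl.get he i, ⟨.eq 0 (i + 1), fun l _ => ?_⟩⟩
  simp only [Sat, nth_tail]

theorem Dfn.subst {R : List U → Prop} {t : List U → U} (h : Dfn W R) (ht : DfnT W t) :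
    Dfn W (fun l => R (t l :: l)) := by
  obtain ⟨φ, hφ⟩ := h
  obtain ⟨hmem, ψ, hψ⟩ := ht
  refine ⟨.ex (.and ψ φ), fun l hl => ?_⟩
  simp only [Sat]
  constructor
  · rintro ⟨x, hx, h1, h2⟩
    have e := (hψ _ (hl.cons hx)).1 h1
    have e' : x = t l := by simpa using e
    subst e'
    exact (hφ _ (hl.cons hx)).1 h2
  · intro h
    have hx := hmem l hl
    exact ⟨t l, hx, (hψ _ (hl.cons hx)).2 (by simp), (hφ _ (hl.cons hx)).2 h⟩

theorem Dfn.mem {a b : List U → U} (he : (∅ : U) ∈ W) (ha : DfnT W a) (hb : DfnT W b) :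
    Dfn W (fun l => a l ∈ b l) := by
  have h0 : Dfn W (fun l => nth l 1 ∈ nth l 0) := ⟨.mem 1 0, fun l _ => Iff.rfl⟩
  have h1 := h0.subst (hb.wk he)
  have h2 := h1.subst ha
  simpa using h2

theorem Dfn.eq {a b : List U → U} (he : (∅ : U) ∈ W) (ha : DfnT W a) (hb : DfnT W b) :
    Dfn W (fun l => a l = b l) := by
  have h0 : Dfn W (fun l => nth l 1 = nth l 0) := ⟨.eq 1 0, fun l _ => Iff.rfl⟩
  have h1 := h0.subst (hb.wk he)
  have h2 := h1.subst ha
  simpa using h2

theorem Dfn.bex {R : U → List U → Prop} {t : List U → U} (hW : Nice W) (ht : DfnT W t)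
    (h : Dfn W (fun l => R (nth l 0) l.tail)) : Dfn W (fun l => ∃ x ∈ t l, R x l) := by
  have := Dfn.ex (W := W) (R := fun x l => x ∈ t l ∧ R x l)
    ((Dfn.mem hW.empty (DfnT.var hW.empty 0) (ht.wk hW.empty)).and h)
  refine this.congr fun l hl => exists_congr fun x => ?_
  constructor
  · rintro ⟨h1, h2⟩
    exact ⟨hW.trans _ (ht.1 l hl) _ h1, h1, h2⟩
  · rintro ⟨_, h1, h2⟩
    exact ⟨h1, h2⟩

theorem Dfn.ball {R : U → List U → Prop} {t : List U → U} (hW : Nice W) (ht : DfnT W t)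
    (h : Dfn W (fun l => R (nth l 0) l.tail)) : Dfn W (fun l => ∀ x ∈ t l, R x l) := by
  refine (Dfn.bex (R := fun x l => ¬ R x l) hW ht h.not).not.congr fun l _ => ?_
  push Not
  exact Iff.rfl

theorem DfnT.of_char {t : List U → U} (hW : Nice W) (ht : ∀ l, WL W l → t l ∈ W)
    (h : Dfn W (fun l => nth l 0 ∈ t l.tail)) : DfnT W t := by
  refine ⟨ht, ?_⟩
  have h1 : Dfn W (fun l => ∀ u ∈ W, (u ∈ nth l 0 ↔ u ∈ t l.tail)) := by
    apply Dfn.all
    apply Dfn.iff
    · simp only [nth_tail]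
      exact Dfn.mem hW.empty (DfnT.var hW.empty 0) (DfnT.var hW.empty 1)
    · have := h.reindex (fun l => nth l 0 :: l.tail.tail)
        (fun i => match i with | 0 => 0 | i + 1 => i + 2) (fun l i => by
          cases i with
          | zero => rfl
          | succ i => simp [nth_tail]) (fun l hl => WL.cons (hl.get hW.empty 0) hl.tail.tail)
      simpa using this
  refine h1.congr fun l hl => ?_
  constructor
  · intro h u _
    rw [h]
  · intro h
    ext u
    constructor
    · intro hu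
      exact (h u (hW.trans _ (hl.get hW.empty 0) _ hu)).1 hu
    · intro hu
      exact (h u (hW.trans _ (ht _ hl.tail) _ hu)).2 hu

theorem DfnT.upair {a b : List U → U} (hW : Nice W) (ha : DfnT W a) (hb : DfnT W b) :
    DfnT W (fun l => ({a l, b l} : U)) := by
  apply DfnT.of_char hW (fun l hl => hW.upair _ (ha.1 l hl) _ (hb.1 l hl))
  simp only [ZFSet.mem_pair]
  exact (Dfn.eq hW.empty (DfnT.var hW.empty 0) (ha.wk hW.empty)).or
    (Dfn.eq hW.empty (DfnT.var hW.empty 0) (hb.wk hW.empty))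

theorem DfnT.singleton {a : List U → U} (hW : Nice W) (ha : DfnT W a) :
    DfnT W (fun l => ({a l} : U)) := by
  have := DfnT.upair hW ha ha
  simpa using this

theorem DfnT.pair {a b : List U → U} (hW : Nice W) (ha : DfnT W a) (hb : DfnT W b) :
    DfnT W (fun l => ZFSet.pair (a l) (b l)) :=
  DfnT.upair hW (DfnT.singleton hW ha) (DfnT.upair hW ha hb)

theorem Nice.pair (hW : Nice W) {x y : U} (hx : x ∈ W) (hy : y ∈ W) : ZFSet.pair x y ∈ W := by
  have h1 : ({x} : U) ∈ W := by simpa using hW.upair x hx x hx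
  exact hW.upair _ h1 _ (hW.upair x hx y hy)

theorem Nice.fst (hW : Nice W) {x y : U} (h : ZFSet.pair x y ∈ W) : x ∈ W := by
  have h1 : ({x} : U) ∈ ZFSet.pair x y := by simp [ZFSet.pair]
  exact hW.trans _ (hW.trans _ h _ h1) _ (by simp)

theorem Nice.snd (hW : Nice W) {x y : U} (h : ZFSet.pair x y ∈ W) : y ∈ W := by
  have h1 : ({x, y} : U) ∈ ZFSet.pair x y := by simp [ZFSet.pair]
  exact hW.trans _ (hW.trans _ h _ h1) _ (by simp)

theorem Nice.union (hW : Nice W) {x y : U} (hx : x ∈ W) (hy : y ∈ W) : x ∪ y ∈ W := by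
  rw [← ZFSet.sUnion_pair]
  exact hW.sUnion _ (hW.upair x hx y hy)

theorem Nice.insert (hW : Nice W) {x y : U} (hx : x ∈ W) (hy : y ∈ W) :
    Insert.insert x y ∈ W := by
  rw [ZFSet.insert_eq]
  exact hW.union (by simpa using hW.upair x hx x hx) hy

theorem Nice.sepD (hW : Nice W) {R : List U → Prop} (h : Dfn W R) {l : List U} (hl : WL W l)
    {a : U} (ha : a ∈ W) : ZFSet.sep (fun u => R (u :: l)) a ∈ W := by
  obtain ⟨φ, hφ⟩ := h
  have : ZFSet.sep (fun u => R (u :: l)) a = ZFSet.sep (fun u => Sat W φ (u :: l)) a := by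
    ext u
    simp only [ZFSet.mem_sep]
    constructor
    · rintro ⟨h1, h2⟩
      exact ⟨h1, (hφ _ (hl.cons (hW.trans _ ha _ h1))).2 h2⟩
    · rintro ⟨h1, h2⟩
      exact ⟨h1, (hφ _ (hl.cons (hW.trans _ ha _ h1))).1 h2⟩
  rw [this]
  exact hW.sep φ l hl a ha

theorem Nice.prod (hW : Nice W) {x y : U} (hx : x ∈ W) (hy : y ∈ W) : ZFSet.prod x y ∈ W := by
  have h1 : Dfn W (fun l => ∃ a ∈ nth l 1, ∃ b ∈ nth l 2, nth l 0 = ZFSet.pair a b) := by
    apply Dfn.bex hW (DfnT.var hW.empty 1)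
    simp only [nth_tail]
    apply Dfn.bex hW (DfnT.var hW.empty 3)
    simp only [nth_tail]
    exact Dfn.eq hW.empty (DfnT.var hW.empty 2)
      (DfnT.pair hW (DfnT.var hW.empty 1) (DfnT.var hW.empty 0))
  have h2 : ZFSet.sep (fun y => y ∈ W) (ZFSet.powerset
      (ZFSet.sep (fun y => y ∈ W) (ZFSet.powerset (x ∪ y)))) ∈ W :=
    hW.power _ (hW.power _ (hW.union hx hy))
  have h3 := hW.sepD h1 (l := [x, y]) (WL.nil.cons hy |>.cons hx) h2
  have : ZFSet.prod x y = ZFSet.sep (fun u => ∃ a ∈ nth (u :: [x, y]) 1, ∃ b ∈ nth (u :: [x, y]) 2,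
      nth (u :: [x, y]) 0 = ZFSet.pair a b) (ZFSet.sep (fun y => y ∈ W) (ZFSet.powerset
      (ZFSet.sep (fun y => y ∈ W) (ZFSet.powerset (x ∪ y))))) := by
    ext z
    simp only [ZFSet.mem_prod, ZFSet.mem_sep, ZFSet.mem_powerset, nth_cons_zero, nth_cons_succ]
    constructor
    · rintro ⟨a, ha, b, hb, rfl⟩
      have haW := hW.trans _ hx _ ha
      have hbW := hW.trans _ hy _ hb
      refine ⟨⟨?_, hW.pair haW hbW⟩, a, ha, b, hb, rfl⟩
      intro w hw
      have hw' : w = {a} ∨ w = {a, b} := by simpa [ZFSet.pair] using hw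
      rw [ZFSet.mem_sep, ZFSet.mem_powerset]
      rcases hw' with rfl | rfl
      · refine ⟨?_, by simpa using hW.upair a haW a haW⟩
        intro v hv
        rw [ZFSet.mem_singleton] at hv
        subst hv
        simp [ha]
      · refine ⟨?_, hW.upair a haW b hbW⟩
        intro v hv
        rw [ZFSet.mem_pair] at hv
        rcases hv with rfl | rfl
        · simp [ha]
        · simp [hb]
    · rintro ⟨_, a, ha, b, hb, rfl⟩
      exact ⟨a, ha, b, hb, rfl⟩
  rw [this]
  exact h3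

theorem num_mem_omega (n : ℕ) : num n ∈ ZFSet.omega := by
  induction n with
  | zero => exact ZFSet.omega_zero
  | succ n ih => exact ZFSet.omega_succ ih

theorem mem_omega_iff (x : U) : x ∈ ZFSet.omega ↔ ∃ n, x = num n := by
  constructor
  · intro h
    induction x using Quotient.inductionOn with
    | _ x =>
      obtain ⟨⟨n⟩, hn⟩ := h
      refine ⟨n, ?_⟩
      have key : ∀ n : ℕ, ZFSet.mk (PSet.ofNat n) = num n := by
        intro n
        induction n with
        | zero => rfl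
        | succ n ih =>
          rw [num, ← ih]
          rfl
      rw [← key]
      exact ZFSet.sound hn
  · rintro ⟨n, rfl⟩
    exact num_mem_omega n

theorem num_eq_toZFSet (n : ℕ) : num n = Ordinal.toZFSet (n : Ordinal.{0}) := by
  induction n with
  | zero => simp [num]
  | succ n ih =>
    rw [num, ih, ← Ordinal.toZFSet_add_one]
    push_cast
    rfl

theorem num_injective : Function.Injective num := by
  intro m n h
  rw [num_eq_toZFSet, num_eq_toZFSet] at h
  exact_mod_cast Ordinal.toZFSet_injective h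

theorem Nice.num (hW : Nice W) (n : ℕ) : MP8322.num n ∈ W :=
  hW.trans _ hW.omega _ (num_mem_omega n)

end Pool.Agent.MP8322
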