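import Pool.Agent.MP_8322c3_lc.Common

set_option autoImplicit false

open scoped Cardinal Ordinal

namespace Pool.Agent.MP8322

/-! ### Cohen conditions -/

section ccc

variable {I : Type}

/-- the finite set is (the graph of) a partial function -/
def Fun (s : Finset (I × ℕ × Bool)) : Prop := ∀ i n b, (i, n, b) ∈ s → (i, n, !b) ∉ s

theorem Fun.mono {s t : Finset (I × ℕ × Bool)} (ht : Fun t) (h : s ⊆ t) : Fun s :=
  fun i n b hs hs' => ht i n b (h hs) (h hs')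

open Classical in
theorem ccc_aux {κ : Type*} (k : ℕ) : ∀ (A : Set κ) (p : κ → Finset (I × ℕ × Bool)),
    (∀ a ∈ A, (p a).card ≤ k) → (∀ a ∈ A, Fun (p a)) →
    (∀ a ∈ A, ∀ b ∈ A, a ≠ b → ¬ Fun (p a ∪ p b)) → A.Countable := by
  induction k with
  | zero =>
    intro A p hcard hfun hinc
    have : A.Subsingleton := by
      intro a ha b hb
      by_contra hne
      apply hinc a ha b hb hne
      have h1 : p a = ∅ := Finset.card_eq_zero.1 (Nat.le_zero.1 (hcard a ha))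
      have h2 : p b = ∅ := Finset.card_eq_zero.1 (Nat.le_zero.1 (hcard b hb))
      rw [h1, h2]
      intro i n b h
      simp at h
    exact this.countable
  | succ k ih =>
    intro A p hcard hfun hinc
    by_cases hA : A.Nonempty
    · obtain ⟨a₀, ha₀⟩ := hA
      -- the conditions conflicting with a given element of `p a₀`
      let B : I × ℕ × Bool → Set κ := fun e => {b ∈ A | (e.1, e.2.1, !e.2.2) ∈ p b ∧ e ∈ p a₀}
      have hsub : A ⊆ {a₀} ∪ ⋃ e ∈ (p a₀ : Set (I × ℕ × Bool)), B e := by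
        intro b hb
        by_cases hba : b = a₀
        · exact Or.inl hba
        · right
          have h1 := hinc a₀ ha₀ b hb (Ne.symm hba)
          unfold Fun at h1
          push Not at h1
          obtain ⟨i, n, ε, h2, h3⟩ := h1
          rw [Finset.mem_union] at h2 h3
          rcases h2 with h2 | h2
          · rcases h3 with h3 | h3
            · exact absurd h3 (hfun a₀ ha₀ i n ε h2)
            · exact Set.mem_iUnion₂.2 ⟨(i, n, ε), h2, hb, h3, h2⟩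
          · rcases h3 with h3 | h3
            · refine Set.mem_iUnion₂.2 ⟨(i, n, !ε), h3, hb, ?_, h3⟩
              simpa using h2
            · exact absurd h3 (hfun b hb i n ε h2)
      refine Set.Countable.mono hsub ((Set.countable_singleton _).union ?_)
      refine Set.Countable.biUnion (p a₀).countable_toSet fun e _ => ?_
      apply ih (B e) (fun b => (p b).erase (e.1, e.2.1, !e.2.2))
      · rintro b ⟨hb, hb', _⟩
        rw [Finset.card_erase_of_mem hb']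
        have := hcard b hb
        omega
      · rintro b ⟨hb, _⟩
        exact (hfun b hb).mono (Finset.erase_subset _ _)
      · rintro b ⟨hb, hbe, _⟩ b' ⟨hb', hbe', _⟩ hne hF
        apply hinc b hb b' hb' hne
        intro i n ε h1 h2
        -- neither of the two is the removed element
        have key : ∀ ε : Bool, (i, n, ε) ∈ p b ∪ p b' → (i, n, !ε) ∈ p b ∪ p b' →
            (i, n, ε) ≠ (e.1, e.2.1, !e.2.2) := by
          intro ε _ h2 he
          rw [Finset.mem_union] at h2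
          rcases h2 with h2 | h2
          · exact hfun b hb i n ε (he ▸ hbe) h2
          · exact hfun b' hb' i n ε (he ▸ hbe') h2
        have k1 := key ε h1 h2
        have k2 := key (!ε) h2 (by simpa using h1)
        refine hF i n ε ?_ ?_
        · rw [Finset.mem_union, Finset.mem_erase, Finset.mem_erase]
          rcases Finset.mem_union.1 h1 with h | h
          · exact Or.inl ⟨k1, h⟩
          · exact Or.inr ⟨k1, h⟩
        · rw [Finset.mem_union, Finset.mem_erase, Finset.mem_erase]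
          rcases Finset.mem_union.1 h2 with h | h
          · exact Or.inl ⟨k2, h⟩
          · exact Or.inr ⟨k2, h⟩
    · rw [Set.not_nonempty_iff_eq_empty.1 hA]
      exact Set.countable_empty

end ccc

/-- Cohen conditions with index set `I` -/
def Cond (I : Type) : Type := {s : Finset (I × ℕ × Bool) // Fun s}

instance (I : Type) : Preorder (Cond I) where
  le p q := q.1 ⊆ p.1
  le_refl p := Finset.Subset.refl _
  le_trans p q r h1 h2 := Finset.Subset.trans h2 h1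

theorem Cond.le_def {I : Type} {p q : Cond I} : p ≤ q ↔ q.1 ⊆ p.1 := Iff.rfl

instance (I : Type) : OrderTop (Cond I) where
  top := ⟨∅, fun i n b h => by simp at h⟩
  le_top p := Finset.empty_subset _

open Classical in
theorem ccc {I : Type} {κ : Type*} (A : Set κ) (p : κ → Cond I)
    (h : ∀ a ∈ A, ∀ b ∈ A, a ≠ b → ¬ ∃ r, r ≤ p a ∧ r ≤ p b) : A.Countable := by
  have h1 : A = ⋃ k : ℕ, {a ∈ A | (p a).1.card ≤ k} := by
    ext a
    simp only [Set.mem_iUnion, Set.mem_sep_iff]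
    exact ⟨fun ha => ⟨_, ha, le_refl _⟩, fun ⟨_, ha, _⟩ => ha⟩
  rw [h1]
  refine Set.countable_iUnion fun k => ccc_aux k _ (fun a => (p a).1) ?_ ?_ ?_
  · rintro a ⟨_, ha⟩
    exact ha
  · rintro a _
    exact (p a).2
  · rintro a ⟨ha, _⟩ b ⟨hb, _⟩ hne hF
    exact h a ha b hb hne ⟨⟨_, hF⟩, Finset.subset_union_left, Finset.subset_union_right⟩

open Classical in
/-- a common extension which moreover contains two prescribed new elements -/
theorem Cond.extend {I : Type} (r : Cond I) {ξ η : I} (hne : ξ ≠ η) :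
    ∃ (n : ℕ) (q : Cond I), q ≤ r ∧ (ξ, n, true) ∈ q.1 ∧ (η, n, false) ∈ q.1 := by
  -- a fresh natural number
  obtain ⟨n, hn⟩ := Infinite.exists_notMem_finset (r.1.image (fun e => e.2.1))
  have hn' : ∀ i b, (i, n, b) ∉ r.1 := by
    intro i b h
    exact hn (Finset.mem_image.2 ⟨_, h, rfl⟩)
  refine ⟨n, ⟨insert (ξ, n, true) (insert (η, n, false) r.1), ?_⟩, ?_, by simp, by simp⟩
  · intro i m b h1 h2
    simp only [Finset.mem_insert, Prod.mk.injEq] at h1 h2
    rcases h1 with ⟨rfl, rfl, rfl⟩ | ⟨rfl, rfl, rfl⟩ | h1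
    · rcases h2 with ⟨_, _, h⟩ | ⟨h, _, _⟩ | h2
      · simp at h
      · exact hne h
      · exact hn' _ _ h2
    · rcases h2 with ⟨h, _, _⟩ | ⟨_, _, h⟩ | h2
      · exact hne h.symm
      · simp at h
      · exact hn' _ _ h2
    · rcases h2 with ⟨rfl, rfl, _⟩ | ⟨rfl, rfl, _⟩ | h2
      · exact hn' _ _ h1
      · exact hn' _ _ h1
      · exact r.2 _ _ _ h1 h2
  · intro e he
    exact Finset.mem_insert_of_mem (Finset.mem_insert_of_mem he)

variable {I : Type}

/-- `q` forces that the real with index `ξ` and the section of `σ` at `α` differ at `n` -/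
def Dis (c : Cond I → U) (σ α : U) (ξ : I) (n : ℕ) (q : Cond I) : Prop :=
  ((ξ, n, true) ∈ q.1 ∧ F0 c σ α n q) ∨ ((ξ, n, false) ∈ q.1 ∧ F1 c σ α n q)

/-- the indices for which some condition excludes a difference -/
def Bad (c : Cond I → U) (σ α : U) : Set I := {ξ | ∃ p, ∀ q ≤ p, ∀ n, ¬ Dis c σ α ξ n q}

theorem bad_countable (c : Cond I → U) (σ α : U) : (Bad c σ α).Countable := by
  classical
  have h : ∀ ξ : I, ∃ p : Cond I, ξ ∈ Bad c σ α → ∀ q ≤ p, ∀ n, ¬ Dis c σ α ξ n q := by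
    intro ξ
    by_cases hξ : ξ ∈ Bad c σ α
    · obtain ⟨p, hp⟩ := hξ
      exact ⟨p, fun _ => hp⟩
    · exact ⟨⊤, fun h => absurd h hξ⟩
  choose p hp using h
  refine ccc (Bad c σ α) p ?_
  rintro ξ hξ η hη hne ⟨r, hr1, hr2⟩
  obtain ⟨n, q, hqr, hq1, hq2⟩ := r.extend hne
  have h1 := hp ξ hξ q (le_trans hqr hr1) n
  unfold Dis F0 at h1
  push Not at h1
  obtain ⟨q', hq', hF⟩ := h1.1 hq1
  exact hp η hη q' (le_trans hq' (le_trans hqr hr2)) n (Or.inr ⟨hq' hq2, hF⟩)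

/-- two different ordinals are sent to the same natural number -/
def T4 (c : Cond I → U) (l : List U) (w : U) (p : Cond I) : Prop :=
  ∃ α β n, w = ZFSet.pair α β ∧ α ≠ β ∧ α ∈ om1 ∧ β ∈ om1 ∧ F1 c (nth l 0) α n p ∧
    F1 c (nth l 0) β n p

/-- the real with index `ξ` differs from a section -/
def T5 (c : Cond I → U) (d : I → U) (l : List U) (w : U) (p : Cond I) : Prop :=
  ∃ n ξ, w = num n ∧ nth l 1 = d ξ ∧ Dis c (nth l 0) (nth l 2) ξ n p

/-- name of the Cohen real with index `ξ` -/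
noncomputable def cdot (c : Cond I → U) (ξ : I) : U :=
  ZFSet.range (fun w : {w : ℕ × Cond I // (ξ, w.1, true) ∈ w.2.1} =>
    ZFSet.pair (check c (num w.1.1)) (c w.1.2))

/-- closure relations for the Cohen model -/
def cohenRel (c : Cond I → U) (d : I → U) : ℕ → List U → U → Prop
  | 0, _, y => y = om1
  | 1, l, y => ∃ p, nth l 1 = c p ∧ y ∈ om1 ∧ ∀ n, ∀ q ≤ p, ¬ F1 c (nth l 0) y n q
  | 2, l, y => ∃ ξ, y = d ξ ∧ ∀ α ∈ om1, ξ ∉ Bad c (nth l 0) α ∧ ξ ∉ Bad c (nth l 1) α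
  | 3, l, y => ∃ ξ, nth l 0 = d ξ ∧ y = cdot c ξ
  | _, _, y => y = phi.code

def cohenT (c : Cond I → U) (d : I → U) : Bool → List U → U → Cond I → Prop
  | true => T4 c
  | false => T5 c d

/-- an environment for Cohen forcing -/
structure CEnv (c : Cond I → U) (d : I → U) (M : Set U) : Prop extends Env c M where
  dinj : Function.Injective d
  rel : ∀ k l, WL M l → (∃ y, cohenRel c d k l y) → ∃ y ∈ M, cohenRel c d k l y
  dec : ∀ b, Dec c M (cohenT c d b)

variable {c : Cond I → U} {d : I → U} {M : Set U} {G : Set (Cond I)}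

theorem CEnv.om1 (hM : CEnv c d M) : om1 ∈ M := by
  obtain ⟨y, hy, e⟩ := hM.rel 0 [] WL.nil ⟨_, rfl⟩
  have e' : y = MP8322.om1 := e
  exact e' ▸ hy

theorem CEnv.code (hM : CEnv c d M) : phi.code ∈ M := by
  obtain ⟨y, hy, e⟩ := hM.rel 4 [] WL.nil ⟨_, rfl⟩
  have e' : y = phi.code := e
  exact e' ▸ hy

theorem om1_uncountable {A : Set U} (hA : A.Countable) : ∃ γ ∈ om1, γ ∉ A := by
  by_contra hcon
  push Not at hcon
  have h1 : {z : U | z ∈ om1}.Countable := hA.mono hcon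
  have h2 : #{z : U // z ∈ om1} ≤ ℵ₀ := Cardinal.mk_le_aleph0_iff.2 h1.to_subtype
  have h3 : #{z : U // z ∈ om1} = ℵ₁ := by
    have := ZFSet.cardinalMk_coe_sort (x := om1)
    rw [card_om1, Cardinal.lift_aleph, Ordinal.lift_one] at this
    exact this
  rw [h3] at h2
  exact absurd h2 (not_le.2 Cardinal.aleph0_lt_aleph_one)

theorem cohen_omega1 (hM : CEnv c d M) (hG : IsGen c M G) :
    IsOmega1 (Ext c M G) (pj c M G MP8322.om1) := by
  refine ext_isOmega1 hM.toEnv hG hM.om1 ?_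
  intro τ hτ hinj
  rcases hG.decide hM.inj (hM.dec true) (l := [τ]) (WL.nil.cons hτ) with
    ⟨p, hp, w, hw, α, β, n, rfl, hne, hα, hβ, h1, h2⟩ | ⟨p, hp, hT⟩
  · simp only [nth_cons_zero] at h1 h2
    have hαM := hM.fst _ _ hw
    have hβM := hM.snd _ _ hw
    have h3 := (truth1 hM.toEnv hG hτ hαM n).2 ⟨p, hp, h1⟩
    have h4 := (truth1 hM.toEnv hG hτ hβM n).2 ⟨p, hp, h2⟩
    exact hne ((pj_inj hM.toEnv hG hαM hβM).1 (hinj.2 _ _ _ h3 h4))
  · -- for each `n` only countably many `α` are possible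
    have hcount : ∀ n, {α : U | α ∈ MP8322.om1 ∧ ∃ q ≤ p, F1 c τ α n q}.Countable := by
      intro n
      classical
      have h : ∀ α : U, ∃ q : Cond I,
          (α ∈ MP8322.om1 ∧ ∃ q ≤ p, F1 c τ α n q) → q ≤ p ∧ F1 c τ α n q := by
        intro α
        by_cases hα : α ∈ MP8322.om1 ∧ ∃ q ≤ p, F1 c τ α n q
        · obtain ⟨q, hq⟩ := hα.2
          exact ⟨q, fun _ => hq⟩
        · exact ⟨⊤, fun h => absurd h hα⟩
      choose q hq using h
      refine ccc _ q ?_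
      rintro α hα β hβ hne ⟨r, hr1, hr2⟩
      have h1 := hq α hα
      have h2 := hq β hβ
      exact hT r (le_trans hr1 h1.1) (ZFSet.pair α β)
        ⟨α, β, n, rfl, hne, hα.1, hβ.1, h1.2.mono hr1, h2.2.mono hr2⟩
    obtain ⟨γ, hγ, hγ'⟩ := om1_uncountable (Set.countable_iUnion hcount)
    have hex : ∃ y, cohenRel c d 1 [τ, c p] y := by
      refine ⟨γ, p, rfl, hγ, fun n q hq hF => hγ' ?_⟩
      exact Set.mem_iUnion.2 ⟨n, hγ, q, hq, hF⟩
    obtain ⟨δ, hδ, p', e, hδo, hδ'⟩ := hM.rel 1 [τ, c p]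
      ((WL.nil.cons (hG.sub p hp)).cons hτ) hex
    have e' : p = p' := hM.inj e
    subst e'
    simp only [nth_cons_zero] at hδ'
    have h1 := (pj_mem hM.toEnv hG hδ hM.om1).2 hδo
    obtain ⟨v, hv, _⟩ := hinj.1.2 _ h1
    have hvo := (ZFSet.pair_mem_prod.1 (hinj.1.1 hv)).2
    obtain ⟨n, rfl⟩ := (mem_omega_iff v).1 hvo
    exact truth0 hM.toEnv hG hτ hδ hp (fun q hq => hδ' n q hq) hv

theorem mem_val_cdot (hM : CEnv c d M) (hG : IsGen c M G) (ξ : I) (n : ℕ) :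
    num n ∈ val c M G (cdot c ξ) ↔ ∃ p ∈ G, (ξ, n, true) ∈ p.1 := by
  rw [mem_val]
  constructor
  · rintro ⟨y, _, ⟨p, hp, hpy⟩, e⟩
    obtain ⟨⟨⟨m, q⟩, hq⟩, e'⟩ := ZFSet.mem_range.1 hpy
    obtain ⟨e1, e2⟩ := ZFSet.pair_inj.1 e'
    have e3 : q = p := hM.inj e2
    subst e3
    have e4 : m = n := by
      rw [← e1] at e
      exact num_injective ((val_check_num hM.toEnv hG m).symm.trans e)
    subst e4
    exact ⟨q, hp, hq⟩
  · rintro ⟨p, hp, hpn⟩
    exact ⟨check c (num n), hM.check _ (hM.num n),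
      ⟨p, hp, ZFSet.mem_range.2 ⟨⟨⟨n, p⟩, hpn⟩, rfl⟩⟩, val_check_num hM.toEnv hG n⟩

theorem exists_good (hI : #I = ℵ_ 2) (c : Cond I → U) (σ₁ σ₂ : U) :
    ∃ ξ : I, ∀ α ∈ MP8322.om1, ξ ∉ Bad c σ₁ α ∧ ξ ∉ Bad c σ₂ α := by
  by_contra hcon
  push Not at hcon
  let ι := Shrink.{0} {z : U // z ∈ MP8322.om1}
  let e : ι → U := fun i => ((equivShrink _).symm i).1
  have h1 : (Set.univ : Set I) ⊆ ⋃ i : ι, (Bad c σ₁ (e i) ∪ Bad c σ₂ (e i)) := by
    intro ξ _
    obtain ⟨α, hα, hα'⟩ := hcon ξ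
    refine Set.mem_iUnion.2 ⟨equivShrink _ ⟨α, hα⟩, ?_⟩
    have he : e (equivShrink _ ⟨α, hα⟩) = α := by
      simp only [e, Equiv.symm_apply_apply]
    rw [he]
    by_cases h : ξ ∈ Bad c σ₁ α
    · exact Or.inl h
    · exact Or.inr (hα' h)
  have h2 : #(Set.univ : Set I) ≤ ℵ₁ := by
    refine (Cardinal.mk_le_mk_of_subset h1).trans ((Cardinal.mk_iUnion_le _).trans ?_)
    have h3 : #ι = ℵ₁ := card_om1
    rw [h3]
    refine (mul_le_mul_right ?_ _).trans (Cardinal.mul_aleph0_eq (Cardinal.aleph0_le_aleph 1)).le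
    exact ciSup_le' fun i => Cardinal.mk_le_aleph0_iff.2
      ((bad_countable c σ₁ (e i)).union (bad_countable c σ₂ (e i))).to_subtype
  rw [Cardinal.mk_univ, hI] at h2
  exact absurd h2 (not_le.2 (Cardinal.aleph_lt_aleph.2 (by norm_num)))

theorem cohen_Q (hI : #I = ℵ_ 2) (hM : CEnv c d M) (hG : IsGen c M G) :
    ∀ S₁ ∈ Ext c M G, ∀ S₂ ∈ Ext c M G, ∃ r ∈ Ext c M G, ∀ α ∈ pj c M G MP8322.om1,
      (∃ n, ¬ (num n ∈ r ↔ ZFSet.pair α (num n) ∈ S₁)) ∧
      (∃ n, ¬ (num n ∈ r ↔ ZFSet.pair α (num n) ∈ S₂)) := by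
  rintro _ ⟨σ₁, hσ₁, rfl⟩ _ ⟨σ₂, hσ₂, rfl⟩
  obtain ⟨ξ₀, hξ₀⟩ := exists_good hI c σ₁ σ₂
  obtain ⟨y, hy, ξ, rfl, hξ⟩ := hM.rel 2 [σ₁, σ₂] ((WL.nil.cons hσ₂).cons hσ₁) ⟨d ξ₀, ξ₀, rfl, hξ₀⟩
  simp only [nth_cons_zero, nth_cons_succ] at hξ
  have hcd : cdot c ξ ∈ M := by
    obtain ⟨z, hz, ξ', e, rfl⟩ := hM.rel 3 [d ξ] (WL.nil.cons hy) ⟨_, ξ, rfl, rfl⟩
    have e' : ξ = ξ' := hM.dinj e
    subst e'
    exact hz
  refine ⟨_, ⟨_, hcd, rfl⟩, ?_⟩
  intro α' hα'
  obtain ⟨α, hα, hαo, rfl⟩ := (mem_pj hM.toEnv hG).1 hα'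
  have key : ∀ σ ∈ M, ξ ∉ Bad c σ α →
      ∃ n, ¬ (num n ∈ val c M G (cdot c ξ) ↔ ZFSet.pair (pj c M G α) (num n) ∈ val c M G σ) := by
    intro σ hσ hbad
    rcases hG.decide hM.inj (hM.dec false) (l := [σ, d ξ, α])
      (((WL.nil.cons hα).cons hy).cons hσ) with ⟨p, hp, w, _, n, ξ', _, e, hdis⟩ | ⟨p, hp, hT⟩
    · simp only [nth_cons_zero, nth_cons_succ] at e hdis
      have e' : ξ = ξ' := hM.dinj e
      subst e'
      refine ⟨n, ?_⟩
      rw [mem_val_cdot hM hG]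
      rcases hdis with ⟨h1, h2⟩ | ⟨h1, h2⟩
      · intro h
        exact truth0 hM.toEnv hG hσ hα hp h2 (h.1 ⟨p, hp, h1⟩)
      · intro h
        obtain ⟨q, hq, hq'⟩ := h.2 ((truth1 hM.toEnv hG hσ hα n).2 ⟨p, hp, h2⟩)
        obtain ⟨r, _, hrp, hrq⟩ := hG.dir p hp q hq
        exact r.2 _ _ _ (hrq hq') (hrp h1)
    · exfalso
      apply hbad
      refine ⟨p, fun q hq n hd => ?_⟩
      exact hT q hq (num n) ⟨n, ξ, rfl, rfl, by simpa using hd⟩
  exact ⟨key σ₁ hσ₁ (hξ α hαo).1, key σ₂ hσ₂ (hξ α hαo).2⟩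

/-- the Cohen environment exists -/
theorem exists_cohen (I : Type) : ∃ (c : Cond I → U) (d : I → U) (M : Set U) (G : Set (Cond I)),
    CEnv c d M ∧ IsGen c M G ∧ (∀ x ∈ M, {y : U | y ∈ x}.Countable → ∀ y ∈ x, y ∈ M) := by
  obtain ⟨c, hc⟩ := exists_code (Cond I)
  obtain ⟨d, hd⟩ := exists_code I
  obtain ⟨M, hMc, hM, hct, hR, hT, hgen⟩ := exists_Env hc (cohenRel c d) (cohenT c d)
  obtain ⟨G, hG, _⟩ := exists_gen hMc hM.ctop hgen (p₀ := ⊤) hM.ctop
  exact ⟨c, d, M, G, { toEnv := hM, dinj := hd, rel := hR, dec := hT }, hG, hct⟩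

end Pool.Agent.MP8322
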