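import Pool.Agent.MP_8322c3_lc.Cohen

set_option autoImplicit false

open scoped Cardinal Ordinal

namespace Pool.Agent.MP8322

/-- an index type for the elements of the first uncountable ordinal -/
abbrev A1 : Type := Shrink.{0} {z : U // z ∈ om1}

/-- the ordinal with the given index -/
noncomputable def ea (a : A1) : U := ((equivShrink _).symm a).1

theorem ea_mem (a : A1) : ea a ∈ om1 := ((equivShrink _).symm a).2

theorem ea_injective : Function.Injective ea := by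
  intro a b h
  exact (equivShrink _).symm.injective (Subtype.ext h)

theorem exists_ea {α : U} (hα : α ∈ om1) : ∃ a, ea a = α :=
  ⟨equivShrink _ ⟨α, hα⟩, by simp only [ea, Equiv.symm_apply_apply]⟩

/-- countable partial injections from the first uncountable ordinal to the reals -/
def Col : Type := {s : Set (A1 × Set ℕ) // s.Countable ∧
  (∀ a x y, (a, x) ∈ s → (a, y) ∈ s → x = y) ∧ (∀ a b x, (a, x) ∈ s → (b, x) ∈ s → a = b)}

instance : Preorder Col where
  le p q := q.1 ⊆ p.1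
  le_refl p := Set.Subset.refl _
  le_trans p q r h1 h2 := Set.Subset.trans h2 h1

theorem Col.le_def {p q : Col} : p ≤ q ↔ q.1 ⊆ p.1 := Iff.rfl

instance : OrderTop Col where
  top := ⟨∅, Set.countable_empty, by simp, by simp⟩
  le_top p := Set.empty_subset _

/-- the forcing is countably closed -/
theorem Col.lower {p : ℕ → Col} (hp : Antitone p) : ∃ q, ∀ n, q ≤ p n := by
  refine ⟨⟨⋃ n, (p n).1, Set.countable_iUnion fun n => (p n).2.1, ?_, ?_⟩, ?_⟩
  · intro a x y hx hy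
    obtain ⟨n, hn⟩ := Set.mem_iUnion.1 hx
    obtain ⟨m, hm⟩ := Set.mem_iUnion.1 hy
    have h1 := hp (le_max_left n m) hn
    have h2 := hp (le_max_right n m) hm
    exact (p (max n m)).2.2.1 a x y h1 h2
  · intro a b x ha hb
    obtain ⟨n, hn⟩ := Set.mem_iUnion.1 ha
    obtain ⟨m, hm⟩ := Set.mem_iUnion.1 hb
    have h1 := hp (le_max_left n m) hn
    have h2 := hp (le_max_right n m) hm
    exact (p (max n m)).2.2.2 a b x h1 h2
  · intro n e he
    exact Set.mem_iUnion.2 ⟨n, he⟩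

/-- countably many requirements can be met simultaneously -/
theorem Col.fusion (Q : ℕ → Col → Prop) (hmono : ∀ n p q, q ≤ p → Q n p → Q n q)
    (hstep : ∀ n p, ∃ q ≤ p, Q n q) (p : Col) : ∃ q ≤ p, ∀ n, Q n q := by
  choose f hf hQ using hstep
  let s : ℕ → Col := fun n => Nat.rec p (fun n r => f n r) n
  have hs : ∀ n, s (n + 1) = f n (s n) := fun n => rfl
  have hanti : Antitone s := antitone_nat_of_succ_le fun n => by
    rw [hs]
    exact hf _ _
  obtain ⟨q, hq⟩ := Col.lower hanti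
  refine ⟨q, hq 0, fun n => hmono n _ _ (hq (n + 1)) ?_⟩
  rw [hs]
  exact hQ _ _

theorem uncountable_A1 {A : Set A1} (hA : A.Countable) : ∃ a, a ∉ A := by
  obtain ⟨γ, hγ, hγ'⟩ := om1_uncountable (hA.image ea)
  obtain ⟨a, rfl⟩ := exists_ea hγ
  exact ⟨a, fun h => hγ' ⟨a, h, rfl⟩⟩

theorem uncountable_reals {A : Set (Set ℕ)} (hA : A.Countable) : ∃ x, x ∉ A := by
  by_contra hcon
  push Not at hcon
  have h1 : #(Set ℕ) ≤ ℵ₀ := by
    have : (Set.univ : Set (Set ℕ)).Countable := hA.mono fun x _ => hcon x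
    rw [← Cardinal.mk_univ]
    exact Cardinal.mk_le_aleph0_iff.2 this.to_subtype
  rw [Cardinal.mk_set, Cardinal.mk_nat, Cardinal.two_power_aleph0] at h1
  exact absurd h1 (not_le.2 Cardinal.aleph0_lt_continuum)

theorem Col.ext_dom (p : Col) (a : A1) : ∃ q ≤ p, ∃ x, (a, x) ∈ q.1 := by
  by_cases h : ∃ x, (a, x) ∈ p.1
  · exact ⟨p, le_refl _, h⟩
  · push Not at h
    obtain ⟨x, hx⟩ := uncountable_reals (p.2.1.image Prod.snd)
    have hx' : ∀ b, (b, x) ∉ p.1 := fun b hb => hx ⟨_, hb, rfl⟩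
    refine ⟨⟨insert (a, x) p.1, p.2.1.insert _, ?_, ?_⟩, Set.subset_insert _ _, x,
      Set.mem_insert _ _⟩
    · intro b y z hy hz
      rcases Set.mem_insert_iff.1 hy with hy1 | hy1
      · obtain ⟨rfl, rfl⟩ := Prod.mk.inj hy1
        rcases Set.mem_insert_iff.1 hz with hz1 | hz1
        · exact (Prod.mk.inj hz1).2.symm
        · exact absurd hz1 (h _)
      · rcases Set.mem_insert_iff.1 hz with hz1 | hz1
        · obtain ⟨rfl, rfl⟩ := Prod.mk.inj hz1
          exact absurd hy1 (h _)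
        · exact p.2.2.1 b y z hy1 hz1
    · intro b d y hb hd
      rcases Set.mem_insert_iff.1 hb with hb1 | hb1
      · obtain ⟨rfl, rfl⟩ := Prod.mk.inj hb1
        rcases Set.mem_insert_iff.1 hd with hd1 | hd1
        · exact (Prod.mk.inj hd1).1.symm
        · exact absurd hd1 (hx' _)
      · rcases Set.mem_insert_iff.1 hd with hd1 | hd1
        · obtain ⟨rfl, rfl⟩ := Prod.mk.inj hd1
          exact absurd hb1 (hx' _)
        · exact p.2.2.2 b d y hb1 hd1

theorem Col.ext_ran (p : Col) (x : Set ℕ) : ∃ q ≤ p, ∃ a, (a, x) ∈ q.1 := by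
  by_cases h : ∃ a, (a, x) ∈ p.1
  · exact ⟨p, le_refl _, h⟩
  · push Not at h
    obtain ⟨a, ha⟩ := uncountable_A1 (p.2.1.image Prod.fst)
    have ha' : ∀ y, (a, y) ∉ p.1 := fun b hb => ha ⟨_, hb, rfl⟩
    refine ⟨⟨insert (a, x) p.1, p.2.1.insert _, ?_, ?_⟩, Set.subset_insert _ _, a,
      Set.mem_insert _ _⟩
    · intro b y z hy hz
      rcases Set.mem_insert_iff.1 hy with hy1 | hy1
      · obtain ⟨rfl, rfl⟩ := Prod.mk.inj hy1
        rcases Set.mem_insert_iff.1 hz with hz1 | hz1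
        · exact (Prod.mk.inj hz1).2.symm
        · exact absurd hz1 (ha' _)
      · rcases Set.mem_insert_iff.1 hz with hz1 | hz1
        · obtain ⟨rfl, rfl⟩ := Prod.mk.inj hz1
          exact absurd hy1 (ha' _)
        · exact p.2.2.1 b y z hy1 hz1
    · intro b d y hb hd
      rcases Set.mem_insert_iff.1 hb with hb1 | hb1
      · obtain ⟨rfl, rfl⟩ := Prod.mk.inj hb1
        rcases Set.mem_insert_iff.1 hd with hd1 | hd1
        · exact (Prod.mk.inj hd1).1.symm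
        · exact absurd hd1 (h _)
      · rcases Set.mem_insert_iff.1 hd with hd1 | hd1
        · obtain ⟨rfl, rfl⟩ := Prod.mk.inj hd1
          exact absurd hb1 (h _)
        · exact p.2.2.2 b d y hb1 hd1

variable {c : Col → U} {M : Set U} {G : Set Col}

/-- the name `l 0` is decided to be the real `w` -/
def T6 (c : Col → U) (l : List U) (w : U) (p : Col) : Prop :=
  w ⊆ ZFSet.omega ∧ ∀ n, (num n ∈ w → FMem c (check c (num n)) (nth l 0) p) ∧
    (num n ∉ w → ∀ q ≤ p, ¬ FMem c (check c (num n)) (nth l 0) q)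

/-- for every `n`, either another ordinal is sent to `n`, or `w` is not sent to `n` -/
def T7 (c : Col → U) (l : List U) (w : U) (p : Col) : Prop :=
  w ∈ om1 ∧ ∀ n, (∃ α ∈ om1, α ≠ w ∧ F1 c (nth l 0) α n p) ∨ F0 c (nth l 0) w n p

/-- the value at `l 0` is `w` -/
def T8 (l : List U) (w : U) (p : Col) : Prop :=
  ∃ a x, nth l 0 = ea a ∧ (a, x) ∈ p.1 ∧ w = cs x

/-- the value at `w` is `l 0` -/
def T9 (l : List U) (w : U) (p : Col) : Prop :=
  ∃ a x, nth l 0 = cs x ∧ (a, x) ∈ p.1 ∧ w = ea a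

def colT (c : Col → U) : ℕ → List U → U → Col → Prop
  | 0 => T6 c
  | 1 => T7 c
  | 2 => T8
  | _ => T9

/-- the name of the generic bijection -/
noncomputable def gname (c : Col → U) : U :=
  ZFSet.range (fun w : {w : (A1 × Set ℕ) × Col // w.1 ∈ w.2.1} =>
    ZFSet.pair (opn c (check c (ea w.1.1.1)) (check c (cs w.1.1.2))) (c w.1.2))

theorem mem_gname {w : U} : w ∈ gname c ↔ ∃ a x p, (a, x) ∈ p.1 ∧
    w = ZFSet.pair (opn c (check c (ea a)) (check c (cs x))) (c p) := by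
  unfold gname
  rw [ZFSet.mem_range]
  constructor
  · rintro ⟨⟨⟨⟨a, x⟩, p⟩, h⟩, rfl⟩
    exact ⟨a, x, p, h, rfl⟩
  · rintro ⟨a, x, p, h, rfl⟩
    exact ⟨⟨⟨⟨a, x⟩, p⟩, h⟩, rfl⟩

def colRel (c : Col → U) : ℕ → List U → U → Prop
  | 0, _, y => y = om1
  | 1, l, y => ∃ p n, nth l 3 = c p ∧ nth l 2 = num n ∧ y ∈ om1 ∧ y ≠ nth l 1 ∧
      F1 c (nth l 0) y n p
  | 2, _, y => y = gname c
  | _, _, y => y = phi.code

/-- an environment for the collapse -/
structure LEnv (c : Col → U) (M : Set U) : Prop extends Env c M where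
  rel : ∀ k l, WL M l → (∃ y, colRel c k l y) → ∃ y ∈ M, colRel c k l y
  dec : ∀ k, Dec c M (colT c k)

theorem LEnv.om1 (hM : LEnv c M) : om1 ∈ M := by
  obtain ⟨y, hy, e⟩ := hM.rel 0 [] WL.nil ⟨_, rfl⟩
  have e' : y = MP8322.om1 := e
  exact e' ▸ hy

theorem LEnv.gname (hM : LEnv c M) : gname c ∈ M := by
  obtain ⟨y, hy, e⟩ := hM.rel 2 [] WL.nil ⟨_, rfl⟩
  have e' : y = MP8322.gname c := e
  exact e' ▸ hy

theorem LEnv.code (hM : LEnv c M) : phi.code ∈ M := by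
  obtain ⟨y, hy, e⟩ := hM.rel 3 [] WL.nil ⟨_, rfl⟩
  have e' : y = phi.code := e
  exact e' ▸ hy

/-- there are no new reals -/
theorem no_new_reals (hM : LEnv c M) (hG : IsGen c M G) {x : U} (hx : x ∈ Ext c M G)
    (hxo : x ⊆ ZFSet.omega) : x ∈ M := by
  obtain ⟨τ, hτ, rfl⟩ := hx
  have hm : ∀ n, num n ∈ val c M G τ ↔ ∃ p ∈ G, FMem c (check c (num n)) τ p := by
    intro n
    have := val_mem_iff hM.toEnv0 hG (hM.check _ (hM.num n)) hτ
    rwa [val_check_num hM.toEnv hG] at this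
  rcases hG.decide hM.inj (hM.dec 0) (l := [τ]) (WL.nil.cons hτ) with
    ⟨p, hp, w, hw, hwo, hT⟩ | ⟨p, hp, hT⟩
  · simp only [nth_cons_zero] at hT
    have : val c M G τ = w := by
      apply eq_of_num_mem hxo hwo
      intro n
      rw [hm]
      constructor
      · rintro ⟨q, hq, hF⟩
        by_contra hn
        obtain ⟨r, _, hrp, hrq⟩ := hG.dir p hp q hq
        exact (hT n).2 hn r hrp (FMem.mono hF hrq)
      · intro hn
        exact ⟨p, hp, (hT n).1 hn⟩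
    rw [this]
    exact hw
  · exfalso
    obtain ⟨q, hq, hQ⟩ := Col.fusion
      (fun n q => FMem c (check c (num n)) τ q ∨ ∀ r ≤ q, ¬ FMem c (check c (num n)) τ r)
      (by
        rintro n p q hqp (h | h)
        · exact Or.inl (FMem.mono h hqp)
        · exact Or.inr fun r hr => h r (le_trans hr hqp))
      (by
        intro n p
        by_cases h : ∀ r ≤ p, ¬ FMem c (check c (num n)) τ r
        · exact ⟨p, le_refl _, Or.inr h⟩
        · push Not at h
          obtain ⟨r, hr, hF⟩ := h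
          exact ⟨r, hr, Or.inl hF⟩) p
    refine hT q hq (cs {n | FMem c (check c (num n)) τ q}) ⟨cs_subset _, fun n => ?_⟩
    rw [num_mem_cs]
    simp only [Set.mem_ofPred_eq, nth_cons_zero]
    refine ⟨id, fun hn => ?_⟩
    rcases hQ n with h | h
    · exact absurd h hn
    · exact h

theorem col_omega1 (hM : LEnv c M) (hG : IsGen c M G) :
    IsOmega1 (Ext c M G) (pj c M G MP8322.om1) := by
  refine ext_isOmega1 hM.toEnv hG hM.om1 ?_
  intro τ hτ hinj
  rcases hG.decide hM.inj (hM.dec 1) (l := [τ]) (WL.nil.cons hτ) with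
    ⟨p, hp, w, hw, hwo, hT⟩ | ⟨p, hp, hT⟩
  · simp only [nth_cons_zero] at hT
    have h1 := (pj_mem hM.toEnv hG hw hM.om1).2 hwo
    obtain ⟨v, hv, _⟩ := hinj.1.2 _ h1
    have hvo := (ZFSet.pair_mem_prod.1 (hinj.1.1 hv)).2
    obtain ⟨n, rfl⟩ := (mem_omega_iff v).1 hvo
    rcases hT n with ⟨α, hα, hne, hF⟩ | hF
    · obtain ⟨β, hβ, p', n', e1, e2, hβo, hβne, hF'⟩ := hM.rel 1 [τ, w, num n, c p]
        ((((WL.nil.cons (hG.sub p hp)).cons (hM.num n)).cons hw).cons hτ)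
        ⟨α, p, n, rfl, rfl, hα, hne, hF⟩
      have e1' : p = p' := hM.inj e1
      have e2' : n = n' := num_injective e2
      subst e1' e2'
      simp only [nth_cons_zero, nth_cons_succ] at hβne hF'
      have h2 := (truth1 hM.toEnv hG hτ hβ n).2 ⟨p, hp, hF'⟩
      exact hβne ((pj_inj hM.toEnv hG hβ hw).1 (hinj.2 _ _ _ h2 hv))
    · exact truth0 hM.toEnv hG hτ hw hp hF hv
  · obtain ⟨q, hq, hQ⟩ := Col.fusion
      (fun n q => (∃ α ∈ MP8322.om1, F1 c τ α n q) ∨ ∀ α ∈ MP8322.om1, F0 c τ α n q)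
      (by
        rintro n p q hqp (⟨α, hα, h⟩ | h)
        · exact Or.inl ⟨α, hα, h.mono hqp⟩
        · exact Or.inr fun α hα => (h α hα).mono hqp)
      (by
        intro n p
        by_cases h : ∀ α ∈ MP8322.om1, F0 c τ α n p
        · exact ⟨p, le_refl _, Or.inr h⟩
        · unfold F0 at h
          push Not at h
          obtain ⟨α, hα, r, hr, hF⟩ := h
          exact ⟨r, hr, Or.inl ⟨α, hα, hF⟩⟩) p
    classical
    let f : ℕ → U := fun n => if h : ∃ α ∈ MP8322.om1, F1 c τ α n q then h.choose else ∅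
    obtain ⟨γ, hγ, hγ'⟩ := om1_uncountable (Set.countable_range f)
    refine hT q hq γ ⟨hγ, fun n => ?_⟩
    simp only [nth_cons_zero]
    by_cases h : ∃ α ∈ MP8322.om1, F1 c τ α n q
    · left
      refine ⟨h.choose, h.choose_spec.1, ?_, h.choose_spec.2⟩
      intro e
      apply hγ'
      refine ⟨n, ?_⟩
      simp only [f, dif_pos h]
      exact e
    · right
      rcases hQ n with h' | h'
      · exact absurd h' h
      · exact h' γ hγ

theorem mem_gval (hM : LEnv c M) (hG : IsGen c M G) {w : U} :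
    w ∈ val c M G (gname c) ↔ ∃ a x, ea a ∈ M ∧ cs x ∈ M ∧ (∃ p ∈ G, (a, x) ∈ p.1) ∧
      w = ZFSet.pair (pj c M G (ea a)) (cs x) := by
  rw [mem_val]
  constructor
  · rintro ⟨y, hy, ⟨p, hp, hpy⟩, rfl⟩
    obtain ⟨a, x, q, hq, e⟩ := mem_gname.1 hpy
    obtain ⟨rfl, e2⟩ := ZFSet.pair_inj.1 e
    have e3 : p = q := hM.inj e2
    subst e3
    obtain ⟨h1, h2⟩ := hM.opnInv _ _ hy
    have h3 := hM.uncheck _ h1
    have h4 := hM.uncheck _ h2
    refine ⟨a, x, h3, h4, ⟨p, hp, hq⟩, ?_⟩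
    rw [val_opn hM.toEnv hG h1 h2]
    rw [ZFSet.pair_inj]
    exact ⟨rfl, pj_real hM.toEnv hG h4 (cs_subset x)⟩
  · rintro ⟨a, x, h1, h2, ⟨p, hp, hpx⟩, rfl⟩
    refine ⟨_, hM.opn (hM.check _ h1) (hM.check _ h2), ⟨p, hp, mem_gname.2 ⟨a, x, p, hpx, rfl⟩⟩, ?_⟩
    rw [val_opn hM.toEnv hG (hM.check _ h1) (hM.check _ h2)]
    rw [ZFSet.pair_inj]
    exact ⟨rfl, pj_real hM.toEnv hG h2 (cs_subset x)⟩

theorem col_F (hM : LEnv c M) (hG : IsGen c M G) :
    ∃ F ∈ Ext c M G, IsBij (pj c M G MP8322.om1)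
      (ZFSet.sep (fun y => y ∈ Ext c M G) (ZFSet.powerset ZFSet.omega)) F := by
  refine ⟨_, ⟨_, hM.gname, rfl⟩, ⟨⟨?_, ?_⟩, ?_⟩, ?_⟩
  · intro w hw
    obtain ⟨a, x, h1, h2, _, rfl⟩ := (mem_gval hM hG).1 hw
    rw [ZFSet.pair_mem_prod, ZFSet.mem_sep, ZFSet.mem_powerset]
    refine ⟨(pj_mem hM.toEnv hG h1 hM.om1).2 (ea_mem a), cs_subset x, ?_⟩
    refine ⟨_, hM.check _ h2, ?_⟩
    exact pj_real hM.toEnv hG h2 (cs_subset x)
  · intro z hz
    obtain ⟨α, hα, hαo, rfl⟩ := (mem_pj hM.toEnv hG).1 hz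
    obtain ⟨a, rfl⟩ := exists_ea hαo
    rcases hG.decide hM.inj (hM.dec 2) (l := [ea a]) (WL.nil.cons hα) with
      ⟨p, hp, w, hw, a', x, e, hpx, rfl⟩ | ⟨p, hp, hT⟩
    · have e' : a = a' := ea_injective e
      subst e'
      refine ⟨cs x, (mem_gval hM hG).2 ⟨a, x, hα, hw, ⟨p, hp, hpx⟩, rfl⟩, ?_⟩
      intro v hv
      obtain ⟨b, y, hb, _, ⟨q, hq, hqy⟩, e⟩ := (mem_gval hM hG).1 hv
      obtain ⟨e1, rfl⟩ := ZFSet.pair_inj.1 e
      have e2 := ea_injective ((pj_inj hM.toEnv hG hα hb).1 e1)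
      subst e2
      obtain ⟨r, _, hrp, hrq⟩ := hG.dir p hp q hq
      rw [r.2.2.1 a y x (hrq hqy) (hrp hpx)]
    · exfalso
      obtain ⟨q, hq, x, hx⟩ := p.ext_dom a
      exact hT q hq (cs x) ⟨a, x, rfl, hx, rfl⟩
  · intro u v w hu hv
    obtain ⟨a, x, _, _, ⟨p, hp, hpx⟩, e⟩ := (mem_gval hM hG).1 hu
    obtain ⟨b, y, _, _, ⟨q, hq, hqy⟩, e'⟩ := (mem_gval hM hG).1 hv
    obtain ⟨rfl, rfl⟩ := ZFSet.pair_inj.1 e
    obtain ⟨rfl, e2⟩ := ZFSet.pair_inj.1 e'
    have e3 := cs_injective e2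
    subst e3
    obtain ⟨r, _, hrp, hrq⟩ := hG.dir p hp q hq
    rw [r.2.2.2 a b x (hrp hpx) (hrq hqy)]
  · intro v hv
    rw [ZFSet.mem_sep, ZFSet.mem_powerset] at hv
    have hvM := no_new_reals hM hG hv.2 hv.1
    have e := eq_cs hv.1
    rw [e] at hvM ⊢
    rcases hG.decide hM.inj (hM.dec 3) (l := [cs {n | num n ∈ v}]) (WL.nil.cons hvM) with
      ⟨p, hp, w, hw, a, x, e, hpx, rfl⟩ | ⟨p, hp, hT⟩
    · have e' := cs_injective e
      subst e'
      exact ⟨_, (mem_gval hM hG).2 ⟨a, _, hw, hvM, ⟨p, hp, hpx⟩, rfl⟩⟩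
    · exfalso
      obtain ⟨q, hq, a, ha⟩ := p.ext_ran {n | num n ∈ v}
      exact hT q hq (ea a) ⟨a, _, rfl, ha, rfl⟩

/-- the environment for the collapse exists -/
theorem exists_collapse : ∃ (c : Col → U) (M : Set U) (G : Set Col),
    LEnv c M ∧ IsGen c M G ∧ (∀ x ∈ M, {y : U | y ∈ x}.Countable → ∀ y ∈ x, y ∈ M) := by
  obtain ⟨c, hc⟩ := exists_code Col
  obtain ⟨M, hMc, hM, hct, hR, hT, hgen⟩ := exists_Env hc (colRel c) (colT c)
  obtain ⟨G, hG, _⟩ := exists_gen hMc hM.ctop hgen (p₀ := ⊤) hM.ctop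
  exact ⟨c, M, G, { toEnv := hM, rel := hR, dec := hT }, hG, hct⟩

end Pool.Agent.MP8322
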