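import Pool.Agent.MP_8322c3_lc.Calc

set_option autoImplicit false

namespace Pool.Agent.MP8322

/-! ### The sentence -/

/-- `φ ∧ ψ` as a countable conjunction -/
def Form.and {n : ℕ} (φ ψ : Form n) : Form n := .conj fun k => if k = 0 then φ else ψ

/-- `φ → ψ` -/
def Form.imp {n : ℕ} (φ ψ : Form n) : Form n := .neg (.and φ (.neg ψ))

theorem holds_and {A R : U} {n : ℕ} {φ ψ : Form n} {v : Fin n → U} :
    Holds A R (φ.and ψ) v ↔ Holds A R φ v ∧ Holds A R ψ v := by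
  unfold Form.and
  simp only [Holds]
  constructor
  · intro h
    exact ⟨by simpa using h 0, by simpa using h 1⟩
  · rintro ⟨h1, h2⟩ k
    by_cases hk : k = 0
    · simpa [hk] using h1
    · simpa [hk] using h2

theorem holds_imp {A R : U} {n : ℕ} {φ ψ : Form n} {v : Fin n → U} :
    Holds A R (φ.imp ψ) v ↔ (Holds A R φ v → Holds A R ψ v) := by
  unfold Form.imp
  simp only [Holds, holds_and]
  tauto

/-- each `R_k` is symmetric -/
def symF : Form 0 := .conj fun k => .all (.all (.imp (.rel k 0 1) (.rel k 1 0)))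

/-- there are no three distinct points such that the set of all `k` for which `R_k` holds is the
same for all three pairs -/
def triF : Form 0 := .all (.all (.all (.imp
  (.conj fun k => .and
    (.and (.imp (.rel k 0 1) (.rel k 1 2)) (.imp (.rel k 1 2) (.rel k 0 1)))
    (.and (.imp (.rel k 0 1) (.rel k 0 2)) (.imp (.rel k 0 2) (.rel k 0 1))))
  (.imp (.neg (.eq 0 1)) (.imp (.neg (.eq 1 2)) (.eq 0 2))))))

/-- the sentence of the counterexample -/
def phi : Form 0 := .and symF triF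

/-- the meaning of the sentence -/
structure NoMono (A R : U) : Prop where
  symm : ∀ x ∈ A, ∀ y ∈ A, ∀ k, Rel R k x y → Rel R k y x
  tri : ∀ x ∈ A, ∀ y ∈ A, ∀ z ∈ A, x ≠ y → y ≠ z → x ≠ z →
    ∃ k, ¬ ((Rel R k x y ↔ Rel R k y z) ∧ (Rel R k x y ↔ Rel R k x z))

theorem snoc3_0 (x y z : U) : (Fin.snoc (Fin.snoc (Fin.snoc Fin.elim0 x : Fin 1 → U) y :
    Fin 2 → U) z : Fin 3 → U) 0 = x := rfl

theorem snoc3_1 (x y z : U) : (Fin.snoc (Fin.snoc (Fin.snoc Fin.elim0 x : Fin 1 → U) y :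
    Fin 2 → U) z : Fin 3 → U) 1 = y := rfl

theorem snoc3_2 (x y z : U) : (Fin.snoc (Fin.snoc (Fin.snoc Fin.elim0 x : Fin 1 → U) y :
    Fin 2 → U) z : Fin 3 → U) 2 = z := rfl

theorem snoc2_0 (x y : U) : (Fin.snoc (Fin.snoc Fin.elim0 x : Fin 1 → U) y : Fin 2 → U) 0 = x :=
  rfl

theorem snoc2_1 (x y : U) : (Fin.snoc (Fin.snoc Fin.elim0 x : Fin 1 → U) y : Fin 2 → U) 1 = y :=
  rfl

theorem holds_phi (A R : U) : Holds A R phi Fin.elim0 ↔ NoMono A R := by
  unfold phi symF triF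
  rw [holds_and]
  simp only [Holds, holds_imp, holds_and]
  constructor
  · rintro ⟨h1, h2⟩
    refine ⟨fun x hx y hy k => h1 k x hx y hy, ?_⟩
    intro x hx y hy z hz hxy hyz hxz
    by_contra hcon
    push Not at hcon
    exact hxz (h2 x hx y hy z hz (fun k => ⟨⟨(hcon k).1.1, (hcon k).1.2⟩,
      ⟨(hcon k).2.1, (hcon k).2.2⟩⟩) hxy hyz)
  · intro h
    refine ⟨fun k x hx y hy => h.symm x hx y hy k, ?_⟩
    intro x hx y hy z hz hk hxy hyz
    by_contra hxz
    obtain ⟨k, hk'⟩ := h.tri x hx y hy z hz hxy hyz hxz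
    exact hk' ⟨⟨(hk k).1.1, (hk k).1.2⟩, ⟨(hk k).2.1, (hk k).2.2⟩⟩

end Pool.Agent.MP8322
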