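import Pool.Agent.MP_8322c3_lc.Exists
import Pool.Agent.MP_8322c3_lc.Sentence

set_option autoImplicit false

open scoped Cardinal Ordinal

namespace Pool.Agent.MP8322

/-! ### functions as sets -/

/-- the graph of a function -/
noncomputable def graph (x : U) (F : {z : U // z ∈ x} → U) : U :=
  ZFSet.range (fun z : {z : U // z ∈ x} => ZFSet.pair z.1 (F z))

theorem pair_mem_graph {x : U} {F : {z : U // z ∈ x} → U} {a b : U} :
    ZFSet.pair a b ∈ graph x F ↔ ∃ h : a ∈ x, F ⟨a, h⟩ = b := by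
  unfold graph
  rw [ZFSet.mem_range]
  constructor
  · rintro ⟨z, hz⟩
    obtain ⟨rfl, rfl⟩ := ZFSet.pair_inj.1 hz
    exact ⟨z.2, rfl⟩
  · rintro ⟨h, rfl⟩
    exact ⟨⟨a, h⟩, rfl⟩

theorem isInj_graph {x y : U} {F : {z : U // z ∈ x} → {w : U // w ∈ y}}
    (hF : Function.Injective F) : IsInj x y (graph x (fun z => (F z).1)) := by
  refine ⟨⟨?_, ?_⟩, ?_⟩
  · intro w hw
    obtain ⟨z, rfl⟩ := ZFSet.mem_range.1 hw
    rw [ZFSet.pair_mem_prod]
    exact ⟨z.2, (F z).2⟩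
  · intro z hz
    refine ⟨(F ⟨z, hz⟩).1, pair_mem_graph.2 ⟨hz, rfl⟩, ?_⟩
    intro w hw
    obtain ⟨_, rfl⟩ := pair_mem_graph.1 hw
    rfl
  · intro a b w ha hb
    obtain ⟨h1, h2⟩ := pair_mem_graph.1 ha
    obtain ⟨h3, h4⟩ := pair_mem_graph.1 hb
    have := hF (Subtype.ext (h2.trans h4.symm))
    exact congrArg Subtype.val this

theorem isBij_graph {x y : U} {F : {z : U // z ∈ x} → {w : U // w ∈ y}}
    (hF : Function.Bijective F) : IsBij x y (graph x (fun z => (F z).1)) := by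
  refine ⟨isInj_graph hF.1, fun w hw => ?_⟩
  obtain ⟨z, hz⟩ := hF.2 ⟨w, hw⟩
  exact ⟨z.1, pair_mem_graph.2 ⟨z.2, by rw [hz]⟩⟩

theorem card_le_of_isInj {x y f : U} (h : IsInj x y f) : x.card ≤ y.card := by
  have hF : ∀ z : {z : U // z ∈ x}, ∃ w : {w : U // w ∈ y}, ZFSet.pair z.1 w.1 ∈ f := by
    intro z
    obtain ⟨w, hw, _⟩ := h.1.2 z.1 z.2
    exact ⟨⟨w, (ZFSet.pair_mem_prod.1 (h.1.1 hw)).2⟩, hw⟩
  choose F hF using hF
  have hinj : Function.Injective F := by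
    intro a b hab
    have h1 := hF a
    rw [hab] at h1
    exact Subtype.ext (h.2 _ _ _ h1 (hF b))
  have h2 := Cardinal.mk_le_of_injective hinj
  rw [← Cardinal.lift_le.{1}, ← ZFSet.cardinalMk_coe_sort, ← ZFSet.cardinalMk_coe_sort]
  exact h2

theorem exists_isInj {x y : U} (h : x.card ≤ y.card) : ∃ f, IsInj x y f := by
  rw [← Cardinal.lift_le.{1}, ← ZFSet.cardinalMk_coe_sort, ← ZFSet.cardinalMk_coe_sort] at h
  obtain ⟨F⟩ := h
  exact ⟨_, isInj_graph (F := F) F.injective⟩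

theorem exists_isBij {x y : U} (h : x.card = y.card) : ∃ f, IsBij x y f := by
  rw [← Cardinal.lift_inj.{0, 1}, ← ZFSet.cardinalMk_coe_sort, ← ZFSet.cardinalMk_coe_sort] at h
  obtain ⟨F⟩ := Cardinal.eq.1 h
  exact ⟨_, isBij_graph (F := F) F.bijective⟩

theorem omega_eq : (ZFSet.omega : U) = (ω : Ordinal.{0}).toZFSet := by
  ext x
  rw [mem_omega_iff, Ordinal.mem_toZFSet_iff]
  constructor
  · rintro ⟨n, rfl⟩
    exact ⟨n, Ordinal.natCast_lt_omega0 n, (num_eq_toZFSet n).symm⟩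
  · rintro ⟨a, ha, rfl⟩
    obtain ⟨n, rfl⟩ := Ordinal.lt_omega0.1 ha
    exact ⟨n, (num_eq_toZFSet n).symm⟩

theorem card_omegaSet : (ZFSet.omega : U).card = ℵ₀ := by
  rw [omega_eq, Ordinal.card_toZFSet, Ordinal.card_omega0]

/-- the first uncountable ordinal, as a set -/
noncomputable def om1 : U := (ω_ 1).toZFSet

theorem card_om1 : om1.card = ℵ₁ := by
  rw [om1, Ordinal.card_toZFSet, Ordinal.card_omega]

theorem om1_ord : om1.IsOrdinal := ZFSet.isOrdinal_toZFSet _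

theorem card_prod (x y : U) : (ZFSet.prod x y).card = x.card * y.card := by
  rw [← Cardinal.lift_inj.{0, 1}, Cardinal.lift_mul, ← ZFSet.cardinalMk_coe_sort,
    ← ZFSet.cardinalMk_coe_sort, ← ZFSet.cardinalMk_coe_sort, Cardinal.mul_def]
  symm
  refine Cardinal.mk_congr (Equiv.ofBijective (fun p : {z : U // z ∈ x} × {w : U // w ∈ y} =>
    (⟨ZFSet.pair p.1.1 p.2.1, ZFSet.pair_mem_prod.2 ⟨p.1.2, p.2.2⟩⟩ :
      {z : U // z ∈ ZFSet.prod x y})) ⟨?_, ?_⟩)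
  · rintro ⟨a, b⟩ ⟨a', b'⟩ h
    have h1 := ZFSet.pair_inj.1 (congrArg Subtype.val h)
    exact Prod.ext (Subtype.ext h1.1) (Subtype.ext h1.2)
  · rintro ⟨w, hw⟩
    obtain ⟨a, ha, b, hb, rfl⟩ := ZFSet.mem_prod.1 hw
    exact ⟨⟨⟨a, ha⟩, ⟨b, hb⟩⟩, rfl⟩

theorem num01 : num 0 ≠ num 1 := fun h => by
  have := num_injective h
  omega

theorem no_inj_om1 : ¬ ∃ f, IsInj om1 ZFSet.omega f := by
  rintro ⟨f, hf⟩
  have h := card_le_of_isInj hf
  rw [card_om1, card_omegaSet] at h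
  exact absurd h (not_le.2 Cardinal.aleph0_lt_aleph_one)

theorem inj_of_mem_om1 {b : U} (hb : b ∈ om1) : ∃ f, IsInj b ZFSet.omega f := by
  obtain ⟨a, ha, rfl⟩ := Ordinal.mem_toZFSet_iff.1 hb
  apply exists_isInj
  rw [Ordinal.card_toZFSet, card_omegaSet]
  have h1 : a.card < ℵ₁ := by
    rw [← Cardinal.ord_aleph] at ha
    exact Cardinal.lt_ord.1 ha
  exact Cardinal.lt_aleph_one_iff.1 h1

theorem exists_t : ∃ t, IsBij om1 (ZFSet.prod om1 {num 0, num 1}) t := by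
  apply exists_isBij
  rw [card_prod, card_om1, ZFSet.card_pair_of_ne num01]
  symm
  apply Cardinal.mul_eq_left (Cardinal.aleph0_le_aleph 1) _ two_ne_zero
  exact (Cardinal.natCast_lt_aleph0 (n := 2)).le.trans (Cardinal.aleph0_le_aleph 1)

theorem exists_s : ∃ s, IsBij om1 (ZFSet.prod om1 om1) s := by
  apply exists_isBij
  rw [card_prod, card_om1]
  exact (Cardinal.mul_eq_self (Cardinal.aleph0_le_aleph 1)).symm

theorem exists_E : ∃ E : U, ∀ α ∈ om1, ∀ β ∈ om1, α ≠ β → ∃ x ∈ ZFSet.omega,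
    ¬ (ZFSet.pair α x ∈ E ↔ ZFSet.pair β x ∈ E) := by
  have h1 : om1.card ≤ (ZFSet.powerset ZFSet.omega : U).card := by
    rw [card_om1, ZFSet.card_powerset, card_omegaSet]
    exact Cardinal.aleph_one_le_continuum
  obtain ⟨f, hf⟩ := exists_isInj h1
  refine ⟨ZFSet.sep (fun w => ∃ a b y, w = ZFSet.pair a b ∧ ZFSet.pair a y ∈ f ∧ b ∈ y)
    (ZFSet.prod om1 ZFSet.omega), ?_⟩
  intro α hα β hβ hne
  obtain ⟨y, hy, hy'⟩ := hf.1.2 α hα
  obtain ⟨z, hz, hz'⟩ := hf.1.2 β hβ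
  have hyz : y ≠ z := by
    rintro rfl
    exact hne (hf.2 _ _ _ hy hz)
  have hyo := ZFSet.mem_powerset.1 (ZFSet.pair_mem_prod.1 (hf.1.1 hy)).2
  have hzo := ZFSet.mem_powerset.1 (ZFSet.pair_mem_prod.1 (hf.1.1 hz)).2
  have key : ∀ a u x, a ∈ om1 → (∀ u', ZFSet.pair a u' ∈ f → u' = u) → ZFSet.pair a u ∈ f →
      x ∈ (ZFSet.omega : U) →
      (ZFSet.pair a x ∈ ZFSet.sep (fun w => ∃ a b y, w = ZFSet.pair a b ∧ ZFSet.pair a y ∈ f ∧
        b ∈ y) (ZFSet.prod om1 ZFSet.omega) ↔ x ∈ u) := by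
    intro a u x ha hu hau hx
    rw [ZFSet.mem_sep, ZFSet.pair_mem_prod]
    constructor
    · rintro ⟨_, a', b', y', h1, h2, h3⟩
      obtain ⟨rfl, rfl⟩ := ZFSet.pair_inj.1 h1
      rw [← hu _ h2]
      exact h3
    · intro h
      exact ⟨⟨ha, hx⟩, a, x, u, rfl, hau, h⟩
  by_contra hcon
  push Not at hcon
  apply hyz
  ext x
  constructor
  · intro hx
    have hxo := hyo hx
    exact (key β z x hβ hz' hz hxo).1 ((hcon x hxo).1 ((key α y x hα hy' hy hxo).2 hx))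
  · intro hx
    have hxo := hzo hx
    exact (key α y x hα hy' hy hxo).1 ((hcon x hxo).2 ((key β z x hβ hz' hz hxo).2 hx))

theorem empty_mem_om1 : (∅ : U) ∈ om1 := by
  have h : (0 : Ordinal.{0}) < ω_ 1 := (Ordinal.omega_pos 1)
  have := Ordinal.toZFSet_mem_toZFSet_iff.2 h
  rwa [Ordinal.toZFSet_zero] at this

theorem exists_sigma : ∃ σ, IsBij om1 (ZFSet.sep (fun y => y ≠ ∅) om1) σ := by
  apply exists_isBij
  have h1 : om1 = insert ∅ (ZFSet.sep (fun y => y ≠ ∅) om1) := by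
    ext x
    rw [ZFSet.mem_insert_iff, ZFSet.mem_sep]
    constructor
    · intro h
      by_cases hx : x = ∅
      · exact Or.inl hx
      · exact Or.inr ⟨h, hx⟩
    · rintro (rfl | h)
      · exact empty_mem_om1
      · exact h.1
  have h2 : om1.card = (ZFSet.sep (fun y => y ≠ ∅) om1).card + 1 := by
    rw [← ZFSet.card_insert (x := ∅) (by simp), ← h1]
  rcases lt_or_ge (ZFSet.sep (fun y => y ≠ ∅) om1).card ℵ₀ with h3 | h3
  · exfalso
    have h4 : om1.card < ℵ₀ := by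
      rw [h2]
      exact Cardinal.add_lt_aleph0 h3 Cardinal.one_lt_aleph0
    rw [card_om1] at h4
    exact absurd h4 (not_lt.2 (Cardinal.aleph0_le_aleph 1))
  · rw [h2]
    exact Cardinal.add_one_eq h3

/-! ### facts about the ground model -/

variable {P : Type} [Preorder P] [OrderTop P] {c : P → U} {M : Set U} {G : Set P}

theorem pj_omega (hM : Env c M) (hG : IsGen c M G) : pj c M G ZFSet.omega = ZFSet.omega :=
  val_check_omega hM hG

theorem pj_num (hM : Env c M) (hG : IsGen c M G) (n : ℕ) : pj c M G (num n) = num n :=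
  val_check_num hM hG n

theorem gr_isOmega1 (hM : Env c M) (hG : IsGen c M G) (ho : om1 ∈ M) :
    IsOmega1 (Gr c M G) (pj c M G om1) := by
  refine ⟨⟨om1, ho, rfl⟩, val_check_ord hM hG om1_ord, ?_, ?_⟩
  · rintro ⟨_, ⟨f, hf, rfl⟩, hfi⟩
    have h1 : UD (fun l => IsInj (nth l 1) (nth l 2) (nth l 0)) :=
      UD.isInj (UDT.var 1) (UDT.var 2) (UDT.var 0)
    have h2 := abs_pj hM hG h1 (l := [f, om1, ZFSet.omega])
      (((WL.nil.cons hM.omega).cons ho).cons hf)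
    simp only [List.map_cons, nth_cons_zero, nth_cons_succ, pj_omega hM hG] at h2
    exact no_inj_om1 ⟨f, h2.1 hfi⟩
  · intro b hb
    obtain ⟨b, hbM, hb', rfl⟩ := (mem_pj hM hG).1 hb
    have h1 : UD (fun l => IsInj (nth l 1) (nth l 2) (nth l 0)) :=
      UD.isInj (UDT.var 1) (UDT.var 2) (UDT.var 0)
    obtain ⟨f, hf, hf'⟩ := skolem hM h1 (l := [b, ZFSet.omega]) ((WL.nil.cons hM.omega).cons hbM)
      (inj_of_mem_om1 hb')
    have h2 := abs_pj hM hG h1 (l := [f, b, ZFSet.omega])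
      (((WL.nil.cons hM.omega).cons hbM).cons hf)
    simp only [List.map_cons, nth_cons_zero, nth_cons_succ, pj_omega hM hG] at h2
    exact ⟨_, ⟨f, hf, rfl⟩, h2.2 hf'⟩

theorem gr_t (hM : Env c M) (hG : IsGen c M G) (ho : om1 ∈ M) : ∃ t ∈ Gr c M G,
    IsBij (pj c M G om1) (ZFSet.prod (pj c M G om1) {num 0, num 1}) t := by
  have h1 : UD (fun l => IsBij (nth l 1) (ZFSet.prod (nth l 1) {num 0, num 1}) (nth l 0)) :=
    UD.isBij (UDT.var 1) (UDT.prod (UDT.var 1) (UDT.upair (UDT.num 0) (UDT.num 1))) (UDT.var 0)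
  obtain ⟨f, hf, hf'⟩ := skolem hM h1 (l := [om1]) (WL.nil.cons ho) exists_t
  have h2 := abs_pj hM hG h1 (l := [f, om1]) ((WL.nil.cons ho).cons hf)
  simp only [List.map_cons, nth_cons_zero, nth_cons_succ] at h2
  exact ⟨_, ⟨f, hf, rfl⟩, h2.2 hf'⟩

theorem gr_s (hM : Env c M) (hG : IsGen c M G) (ho : om1 ∈ M) : ∃ s ∈ Gr c M G,
    IsBij (pj c M G om1) (ZFSet.prod (pj c M G om1) (pj c M G om1)) s := by
  have h1 : UD (fun l => IsBij (nth l 1) (ZFSet.prod (nth l 1) (nth l 1)) (nth l 0)) :=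
    UD.isBij (UDT.var 1) (UDT.prod (UDT.var 1) (UDT.var 1)) (UDT.var 0)
  obtain ⟨f, hf, hf'⟩ := skolem hM h1 (l := [om1]) (WL.nil.cons ho) exists_s
  have h2 := abs_pj hM hG h1 (l := [f, om1]) ((WL.nil.cons ho).cons hf)
  simp only [List.map_cons, nth_cons_zero, nth_cons_succ] at h2
  exact ⟨_, ⟨f, hf, rfl⟩, h2.2 hf'⟩

theorem gr_E (hM : Env c M) (hG : IsGen c M G) (ho : om1 ∈ M) : ∃ E ∈ Gr c M G,
    ∀ α ∈ pj c M G om1, ∀ β ∈ pj c M G om1, α ≠ β → ∃ n,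
      ¬ (ZFSet.pair α (num n) ∈ E ↔ ZFSet.pair β (num n) ∈ E) := by
  have h1 : UD (fun l => ∀ α ∈ nth l 1, ∀ β ∈ nth l 1, α ≠ β → ∃ x ∈ nth l 2,
      ¬ (ZFSet.pair α x ∈ nth l 0 ↔ ZFSet.pair β x ∈ nth l 0)) := by
    apply UD.ball (UDT.var 1)
    simp only [nth_tail, Nat.reduceAdd]
    apply UD.ball (UDT.var 2)
    simp only [nth_tail, Nat.reduceAdd]
    refine (UD.eq (UDT.var 1) (UDT.var 0)).not.imp ?_
    apply UD.bex (UDT.var 4)
    simp only [nth_tail, Nat.reduceAdd]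
    exact ((UD.mem (UDT.pair (UDT.var 2) (UDT.var 0)) (UDT.var 3)).iff
      (UD.mem (UDT.pair (UDT.var 1) (UDT.var 0)) (UDT.var 3))).not
  obtain ⟨f, hf, hf'⟩ := skolem hM h1 (l := [om1, ZFSet.omega])
    ((WL.nil.cons hM.omega).cons ho) exists_E
  have h2 := abs_pj hM hG h1 (l := [f, om1, ZFSet.omega])
    (((WL.nil.cons hM.omega).cons ho).cons hf)
  simp only [List.map_cons, nth_cons_zero, nth_cons_succ, pj_omega hM hG] at h2
  refine ⟨_, ⟨f, hf, rfl⟩, ?_⟩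
  intro α hα β hβ hne
  obtain ⟨x, hx, hx'⟩ := h2.2 hf' α hα β hβ hne
  obtain ⟨n, rfl⟩ := (mem_omega_iff x).1 hx
  exact ⟨n, hx'⟩

theorem gr_sigma (hM : Env c M) (hG : IsGen c M G) (ho : om1 ∈ M) : ∃ σ ∈ Gr c M G,
    IsBij (pj c M G om1) (ZFSet.sep (fun y => y ≠ ∅) (pj c M G om1)) σ := by
  have h0 : UDT (fun l => ZFSet.sep (fun y => y ≠ ∅) (nth l 1)) := by
    apply UDT.of_char
    · intro W hW l hl
      have h3 : Dfn W (fun l => ¬ ∀ x ∈ nth l 0, False) :=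
        (Dfn.ball hW (DfnT.var hW.empty 0) ⟨.neg (.eq 0 0), fun l _ => by simp [Sat]⟩).not
      have h4 := hW.sepD h3 (l := []) WL.nil (hl.get hW.empty 1)
      have : ZFSet.sep (fun y => y ≠ ∅) (nth l 1) =
          ZFSet.sep (fun u => ¬ ∀ x ∈ nth [u] 0, False) (nth l 1) := by
        ext z
        simp only [ZFSet.mem_sep, nth_cons_zero]
        refine and_congr_right fun _ => ?_
        rw [Ne, ZFSet.eq_empty]
      rw [this]
      exact h4
    · simp only [ZFSet.mem_sep, nth_tail, Nat.reduceAdd]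
      exact (UD.mem (UDT.var 0) (UDT.var 2)).and (UD.eq (UDT.var 0) UDT.empty).not
  have h1 : UD (fun l => IsBij (nth l 1) (ZFSet.sep (fun y => y ≠ ∅) (nth l 1)) (nth l 0)) :=
    UD.isBij (UDT.var 1) h0 (UDT.var 0)
  obtain ⟨f, hf, hf'⟩ := skolem hM h1 (l := [om1]) (WL.nil.cons ho) exists_sigma
  have h2 := abs_pj hM hG h1 (l := [f, om1]) ((WL.nil.cons ho).cons hf)
  simp only [List.map_cons, nth_cons_zero, nth_cons_succ] at h2
  exact ⟨_, ⟨f, hf, rfl⟩, h2.2 hf'⟩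

/-- the set of naturals with index in `X` -/
noncomputable def cs (X : Set ℕ) : U := ZFSet.sep (fun y => ∃ n ∈ X, y = num n) ZFSet.omega

theorem num_mem_cs {X : Set ℕ} {n : ℕ} : num n ∈ cs X ↔ n ∈ X := by
  unfold cs
  rw [ZFSet.mem_sep]
  constructor
  · rintro ⟨_, m, hm, e⟩
    rwa [num_injective e]
  · intro h
    exact ⟨num_mem_omega n, n, h, rfl⟩

theorem cs_subset (X : Set ℕ) : cs X ⊆ ZFSet.omega := ZFSet.sep_subset

theorem eq_of_num_mem {x y : U} (hx : x ⊆ ZFSet.omega) (hy : y ⊆ ZFSet.omega)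
    (h : ∀ n, num n ∈ x ↔ num n ∈ y) : x = y := by
  ext z
  constructor
  · intro hz
    obtain ⟨n, rfl⟩ := (mem_omega_iff z).1 (hx hz)
    exact (h n).1 hz
  · intro hz
    obtain ⟨n, rfl⟩ := (mem_omega_iff z).1 (hy hz)
    exact (h n).2 hz

theorem eq_cs {x : U} (hx : x ⊆ ZFSet.omega) : x = cs {n | num n ∈ x} :=
  eq_of_num_mem hx (cs_subset _) fun n => by rw [num_mem_cs]; rfl

theorem cs_injective : Function.Injective cs := by
  intro X Y h
  ext n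
  rw [← num_mem_cs, h, num_mem_cs]

/-- a real of the ground model is not moved by the collapse -/
theorem pj_real (hM : Env c M) (hG : IsGen c M G) {x : U} (hx : x ∈ M) (hxo : x ⊆ ZFSet.omega) :
    pj c M G x = x := by
  apply eq_of_num_mem _ hxo
  · intro n
    rw [← pj_mem hM hG (hM.num n) hx, pj_num hM hG]
  · have := (pj_subset hM hG hx hM.omega).2 hxo
    rwa [pj_omega hM hG] at this

theorem real_of_gr (hM : Env c M) (hG : IsGen c M G) {x : U} (hx : x ∈ Gr c M G)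
    (hxo : x ⊆ ZFSet.omega) : x ∈ M := by
  obtain ⟨y, hy, rfl⟩ := hx
  have hyo : y ⊆ ZFSet.omega := by
    rw [← pj_omega hM hG] at hxo
    exact (pj_subset hM hG hy hM.omega).1 hxo
  rwa [pj_real hM hG hy hyo]

theorem gr_F (hM : Env c M) (hG : IsGen c M G) (ho : om1 ∈ M) (hCH : (𝔠 : Cardinal.{0}) = ℵ₁) :
    ∃ F ∈ Gr c M G, IsBij (pj c M G om1)
      (ZFSet.sep (fun y => y ∈ Gr c M G) (ZFSet.powerset ZFSet.omega)) F := by
  have hex : ∃ F, IsBij om1 (ZFSet.powerset ZFSet.omega) F := by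
    apply exists_isBij
    rw [ZFSet.card_powerset, card_omegaSet, card_om1, ← hCH]
    rfl
  have h2 : UD (fun l => IsBij (nth l 1) (nth l 2) (nth l 0)) :=
    UD.isBij (UDT.var 1) (UDT.var 2) (UDT.var 0)
  have hpM : ZFSet.powerset ZFSet.omega ∈ M := hM.gpower _ hM.omega
  obtain ⟨f, hf, hf'⟩ := skolem hM h2 (l := [om1, ZFSet.powerset ZFSet.omega])
    ((WL.nil.cons hpM).cons ho) hex
  simp only [nth_cons_zero, nth_cons_succ] at hf'
  have h3 := abs_pj hM hG h2 (l := [f, om1, ZFSet.powerset ZFSet.omega])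
    (((WL.nil.cons hpM).cons ho).cons hf)
  simp only [List.map_cons, nth_cons_zero, nth_cons_succ] at h3
  have h4 : pj c M G (ZFSet.powerset ZFSet.omega) =
      ZFSet.sep (fun y => y ∈ Gr c M G) (ZFSet.powerset ZFSet.omega) := by
    ext v
    rw [mem_pj hM hG, ZFSet.mem_sep, ZFSet.mem_powerset]
    constructor
    · rintro ⟨y, hy, hyo, rfl⟩
      rw [ZFSet.mem_powerset] at hyo
      refine ⟨?_, y, hy, rfl⟩
      rwa [pj_real hM hG hy hyo]
    · rintro ⟨hv, hvG⟩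
      have hvM := real_of_gr hM hG hvG hv
      exact ⟨v, hvM, ZFSet.mem_powerset.2 hv, pj_real hM hG hvM hv⟩
  rw [h4] at h3
  exact ⟨_, ⟨f, hf, rfl⟩, h3.2 hf'⟩

theorem exists_new_real (hCH : (𝔠 : Cardinal.{0}) ≠ ℵ₁) (S₁ S₂ : U) : ∃ r : U, ∀ α ∈ om1,
    (∃ x ∈ ZFSet.omega, ¬ (x ∈ r ↔ ZFSet.pair α x ∈ S₁)) ∧
    (∃ x ∈ ZFSet.omega, ¬ (x ∈ r ↔ ZFSet.pair α x ∈ S₂)) := by
  let F : Shrink.{0} {z : U // z ∈ om1} × Bool → Set ℕ := fun w =>
    {n | ZFSet.pair ((equivShrink _).symm w.1).1 (num n) ∈ (if w.2 then S₁ else S₂)}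
  have hns : ¬ Function.Surjective F := by
    intro hs
    have h1 := Cardinal.mk_le_of_surjective hs
    have h2 : #(Shrink.{0} {z : U // z ∈ om1} × Bool) = ℵ₁ := by
      rw [Cardinal.mk_prod, Cardinal.lift_id, Cardinal.lift_id]
      have : #(Shrink.{0} {z : U // z ∈ om1}) = ℵ₁ := card_om1
      rw [this, Cardinal.mk_bool]
      apply Cardinal.mul_eq_left (Cardinal.aleph0_le_aleph 1) _ two_ne_zero
      exact (Cardinal.natCast_lt_aleph0 (n := 2)).le.trans (Cardinal.aleph0_le_aleph 1)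
    rw [h2, Cardinal.mk_set, Cardinal.mk_nat, Cardinal.two_power_aleph0] at h1
    exact hCH (le_antisymm h1 Cardinal.aleph_one_le_continuum)
  unfold Function.Surjective at hns
  push Not at hns
  obtain ⟨X, hX⟩ := hns
  have key : ∀ (b : Bool) (α : U), α ∈ om1 →
      ∃ x ∈ ZFSet.omega, ¬ (x ∈ cs X ↔ ZFSet.pair α x ∈ (if b then S₁ else S₂)) := by
    intro b α hα
    by_contra hcon
    push Not at hcon
    apply hX (equivShrink _ ⟨α, hα⟩, b)
    ext n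
    simp only [F, Set.mem_ofPred_eq, Equiv.symm_apply_apply]
    rw [← hcon (num n) (num_mem_omega n), num_mem_cs]
  exact ⟨cs X, fun α hα => ⟨by simpa using key true α hα, by simpa using key false α hα⟩⟩

theorem gr_Q (hM : Env c M) (hG : IsGen c M G) (ho : om1 ∈ M) (hCH : (𝔠 : Cardinal.{0}) ≠ ℵ₁) :
    ∀ S₁ ∈ Gr c M G, ∀ S₂ ∈ Gr c M G, ∃ r ∈ Gr c M G, ∀ α ∈ pj c M G om1,
      (∃ n, ¬ (num n ∈ r ↔ ZFSet.pair α (num n) ∈ S₁)) ∧
      (∃ n, ¬ (num n ∈ r ↔ ZFSet.pair α (num n) ∈ S₂)) := by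
  rintro _ ⟨S₁, hS₁, rfl⟩ _ ⟨S₂, hS₂, rfl⟩
  have h1 : UD (fun l => ∀ α ∈ nth l 1,
      (∃ x ∈ nth l 2, ¬ (x ∈ nth l 0 ↔ ZFSet.pair α x ∈ nth l 3)) ∧
      (∃ x ∈ nth l 2, ¬ (x ∈ nth l 0 ↔ ZFSet.pair α x ∈ nth l 4))) := by
    apply UD.ball (UDT.var 1)
    simp only [nth_tail, Nat.reduceAdd]
    refine UD.and ?_ ?_
    · apply UD.bex (UDT.var 3)
      simp only [nth_tail, Nat.reduceAdd]
      exact ((UD.mem (UDT.var 0) (UDT.var 2)).iff
        (UD.mem (UDT.pair (UDT.var 1) (UDT.var 0)) (UDT.var 5))).not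
    · apply UD.bex (UDT.var 3)
      simp only [nth_tail, Nat.reduceAdd]
      exact ((UD.mem (UDT.var 0) (UDT.var 2)).iff
        (UD.mem (UDT.pair (UDT.var 1) (UDT.var 0)) (UDT.var 6))).not
  have hl : WL M [om1, ZFSet.omega, S₁, S₂] :=
    (((WL.nil.cons hS₂).cons hS₁).cons hM.omega).cons ho
  obtain ⟨f, hf, hf'⟩ := skolem hM h1 (l := [om1, ZFSet.omega, S₁, S₂]) hl
    (exists_new_real hCH S₁ S₂)
  have h2 := abs_pj hM hG h1 (l := [f, om1, ZFSet.omega, S₁, S₂]) (hl.cons hf)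
  simp only [List.map_cons, nth_cons_zero, nth_cons_succ, pj_omega hM hG] at h2
  refine ⟨_, ⟨f, hf, rfl⟩, ?_⟩
  intro α hα
  obtain ⟨⟨x, hx, h3⟩, ⟨y, hy, h4⟩⟩ := h2.2 hf' α hα
  obtain ⟨n, rfl⟩ := (mem_omega_iff x).1 hx
  obtain ⟨m, rfl⟩ := (mem_omega_iff y).1 hy
  exact ⟨⟨n, h3⟩, ⟨m, h4⟩⟩

/-! ### pairs in the extension -/

/-- `p` forces `(α, n) ∈ τ` -/
def F1 (c : P → U) (τ α : U) (n : ℕ) (p : P) : Prop :=
  FMem c (opn c (check c α) (check c (num n))) τ p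

/-- `p` forces `(α, n) ∉ τ` -/
def F0 (c : P → U) (τ α : U) (n : ℕ) (p : P) : Prop := ∀ q ≤ p, ¬ F1 c τ α n q

theorem F1.mono {τ α : U} {n : ℕ} {p q : P} (h : F1 c τ α n p) (hq : q ≤ p) : F1 c τ α n q :=
  FMem.mono h hq

theorem F0.mono {τ α : U} {n : ℕ} {p q : P} (h : F0 c τ α n p) (hq : q ≤ p) : F0 c τ α n q :=
  fun r hr => h r (hr.trans hq)

theorem truth1 (hM : Env c M) (hG : IsGen c M G) {τ α : U} (hτ : τ ∈ M) (hα : α ∈ M) (n : ℕ) :
    ZFSet.pair (pj c M G α) (num n) ∈ val c M G τ ↔ ∃ p ∈ G, F1 c τ α n p := by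
  have h1 := hM.check α hα
  have h2 := hM.check _ (hM.num n)
  have h3 := val_mem_iff hM.toEnv0 hG (hM.opn h1 h2) hτ
  rw [val_opn hM hG h1 h2, val_check_num hM hG] at h3
  exact h3

theorem truth0 (hM : Env c M) (hG : IsGen c M G) {τ α : U} (hτ : τ ∈ M) (hα : α ∈ M) {n : ℕ}
    {p : P} (hp : p ∈ G) (h : F0 c τ α n p) :
    ZFSet.pair (pj c M G α) (num n) ∉ val c M G τ := by
  rw [truth1 hM hG hτ hα]
  rintro ⟨q, hq, hq'⟩
  obtain ⟨r, _, hrp, hrq⟩ := hG.dir p hp q hq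
  exact h r hrp (hq'.mono hrq)

/-- the first uncountable cardinal is preserved as soon as there is no new injection -/
theorem ext_isOmega1 (hM : Env c M) (hG : IsGen c M G) (ho : om1 ∈ M)
    (h : ∀ τ ∈ M, ¬ IsInj (pj c M G om1) ZFSet.omega (val c M G τ)) :
    IsOmega1 (Ext c M G) (pj c M G om1) := by
  obtain ⟨h1, h2, h3, h4⟩ := gr_isOmega1 hM hG ho
  refine ⟨Gr_subset_Ext hM h1, h2, ?_, ?_⟩
  · rintro ⟨_, ⟨τ, hτ, rfl⟩, hf⟩
    exact h τ hτ hf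
  · intro b hb
    obtain ⟨f, hf, hf'⟩ := h4 b hb
    exact ⟨f, Gr_subset_Ext hM hf, hf'⟩

end Pool.Agent.MP8322
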