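import Mathlib

set_option autoImplicit false

namespace Pool.Agent.MP8322

/-- The universe of sets: Mathlib's type of sets of ZFC. -/
abbrev U : Type 1 := ZFSet.{0}

/-! ### First-order formulas of set theory and transitive models of ZFC -/

/-- First-order formulas of the language of set theory, with de Bruijn variables. -/
inductive Fml : Type
  | mem (i j : ℕ) : Fml
  | eq (i j : ℕ) : Fml
  | neg (φ : Fml) : Fml
  | and (φ ψ : Fml) : Fml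
  | ex (φ : Fml) : Fml

/-- The value of the `i`-th variable under the (finite) assignment `l`. -/
def nth (l : List U) (i : ℕ) : U := l.getD i ∅

/-- Satisfaction of a formula in the structure `(W, ∈)`; quantifiers range over `W`. -/
def Sat (W : Set U) : Fml → List U → Prop
  | .mem i j, l => nth l i ∈ nth l j
  | .eq i j, l => nth l i = nth l j
  | .neg φ, l => ¬ Sat W φ l
  | .and φ ψ, l => Sat W φ l ∧ Sat W ψ l
  | .ex φ, l => ∃ x ∈ W, Sat W φ (x :: l)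

/-- `W` is a transitive class and all axioms of ZFC hold in `(W, ∈)`. -/
structure IsTransModelZFC (W : Set U) : Prop where
  transitive : ∀ x ∈ W, ∀ y ∈ x, y ∈ W
  extensionality : ∀ x ∈ W, ∀ y ∈ W, (∀ z ∈ W, z ∈ x ↔ z ∈ y) → x = y
  foundation : ∀ x ∈ W, (∃ y ∈ W, y ∈ x) → ∃ y ∈ W, y ∈ x ∧ ∀ z ∈ W, ¬ (z ∈ x ∧ z ∈ y)
  pairing : ∀ x ∈ W, ∀ y ∈ W, ∃ z ∈ W, ∀ u ∈ W, u ∈ z ↔ u = x ∨ u = y
  union : ∀ x ∈ W, ∃ z ∈ W, ∀ u ∈ W, u ∈ z ↔ ∃ y ∈ W, y ∈ x ∧ u ∈ y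
  powerset : ∀ x ∈ W, ∃ z ∈ W, ∀ u ∈ W, u ∈ z ↔ ∀ v ∈ W, v ∈ u → v ∈ x
  infinity : ∃ z ∈ W, (∃ e ∈ W, e ∈ z ∧ ∀ u ∈ W, u ∉ e) ∧
    ∀ u ∈ W, u ∈ z → ∃ v ∈ W, v ∈ z ∧ ∀ t ∈ W, t ∈ v ↔ t ∈ u ∨ t = u
  separation : ∀ (φ : Fml) (l : List U), (∀ x ∈ l, x ∈ W) → ∀ a ∈ W,
    ∃ b ∈ W, ∀ u ∈ W, u ∈ b ↔ u ∈ a ∧ Sat W φ (u :: l)
  replacement : ∀ (φ : Fml) (l : List U), (∀ x ∈ l, x ∈ W) → ∀ a ∈ W,
    (∀ u ∈ W, u ∈ a → ∃ v ∈ W, ∀ v' ∈ W, Sat W φ (v' :: u :: l) ↔ v' = v) →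
    ∃ b ∈ W, ∀ v ∈ W, v ∈ b ↔ ∃ u ∈ W, u ∈ a ∧ Sat W φ (v :: u :: l)
  choice : ∀ a ∈ W, (∀ x ∈ W, x ∈ a → ∃ y ∈ W, y ∈ x) →
    (∀ x ∈ W, ∀ y ∈ W, x ∈ a → y ∈ a → x ≠ y → ∀ z ∈ W, ¬ (z ∈ x ∧ z ∈ y)) →
    ∃ c ∈ W, ∀ x ∈ W, x ∈ a → ∃ z ∈ W, ∀ u ∈ W, (u ∈ c ∧ u ∈ x) ↔ u = z

/-! ### `L_{ω₁,ω}`-formulas and their codes -/

/-- The formulas of `L_{ω₁,ω}` in the vocabulary consisting of binary relation symbols
`R_0, R_1, R_2, ...`, with free variables among `Fin n`. -/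
inductive Form : ℕ → Type
  | eq {n : ℕ} (i j : Fin n) : Form n
  | rel {n : ℕ} (k : ℕ) (i j : Fin n) : Form n
  | neg {n : ℕ} (φ : Form n) : Form n
  | conj {n : ℕ} (φ : ℕ → Form n) : Form n
  | all {n : ℕ} (φ : Form (n + 1)) : Form n

/-- The natural number `n` as a set (von Neumann). -/
def num : ℕ → U
  | 0 => ∅
  | n + 1 => insert (num n) (num n)

/-- The set coding a formula. The conjunction of `φ 0, φ 1, ...` is coded by the function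
`k ↦ code (φ k)` with domain `ω`. -/
noncomputable def Form.code : {n : ℕ} → Form n → U
  | _, .eq i j => ZFSet.pair (num 0) (ZFSet.pair (num i.1) (num j.1))
  | _, .rel k i j => ZFSet.pair (num 1) (ZFSet.pair (num k) (ZFSet.pair (num i.1) (num j.1)))
  | _, .neg φ => ZFSet.pair (num 2) φ.code
  | _, .conj φ => ZFSet.pair (num 3) (ZFSet.range fun k : ℕ => ZFSet.pair (num k) (φ k).code)
  | _, .all φ => ZFSet.pair (num 4) φ.code

/-! ### Structures, cardinality and the amalgamation property inside a transitive class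

A structure for the vocabulary `R_0, R_1, ...` is given by its underlying set `A` and the set `R`
of all `⟨k, ⟨x, y⟩⟩` such that `R_k(x, y)` holds. -/

/-- `R_k(x, y)` holds in the structure whose relations are coded by `R`. -/
def Rel (R : U) (k : ℕ) (x y : U) : Prop := ZFSet.pair (num k) (ZFSet.pair x y) ∈ R

/-- Satisfaction of an `L_{ω₁,ω}`-formula in the structure `(A, R)`. -/
def Holds (A R : U) : {n : ℕ} → Form n → (Fin n → U) → Prop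
  | _, .eq i j, v => v i = v j
  | _, .rel k i j, v => Rel R k (v i) (v j)
  | _, .neg φ, v => ¬ Holds A R φ v
  | _, .conj φ, v => ∀ k, Holds A R (φ k) v
  | _, .all φ, v => ∀ x ∈ A, Holds A R φ (Fin.snoc v x)

/-- `f` is (the graph of) an injective function from `x` to `y`. -/
def IsInj (x y f : U) : Prop :=
  ZFSet.IsFunc x y f ∧ ∀ a b c, ZFSet.pair a c ∈ f → ZFSet.pair b c ∈ f → a = b

/-- `f` is (the graph of) a bijection from `x` onto `y`. -/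
def IsBij (x y f : U) : Prop := IsInj x y f ∧ ∀ c ∈ y, ∃ a, ZFSet.pair a c ∈ f

/-- `o` is the least uncountable ordinal in the sense of `W`, i.e. `ω₁` evaluated in `W`. -/
def IsOmega1 (W : Set U) (o : U) : Prop :=
  o ∈ W ∧ o.IsOrdinal ∧ (¬ ∃ f ∈ W, IsInj o ZFSet.omega f) ∧
    ∀ b ∈ o, ∃ f ∈ W, IsInj b ZFSet.omega f

/-- `W` thinks that `(A, R)` is a model of `φ` of cardinality `ℵ₁`. -/
def IsModel (W : Set U) (φ : Form 0) (A R : U) : Prop :=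
  A ∈ W ∧ R ∈ W ∧ (∃ o, IsOmega1 W o ∧ ∃ f ∈ W, IsBij o A f) ∧ Holds A R φ Fin.elim0

/-- `(A, R)` is a substructure of `(B, S)`. -/
def IsSub (A R B S : U) : Prop :=
  A ⊆ B ∧ ∀ k, ∀ x ∈ A, ∀ y ∈ A, Rel R k x y ↔ Rel S k x y

/-- `f` is an embedding of `(A, R)` into `(B, S)`. -/
def IsEmb (A R B S f : U) : Prop :=
  IsInj A B f ∧ ∀ k x y x' y', ZFSet.pair x x' ∈ f → ZFSet.pair y y' ∈ f →
    (Rel R k x y ↔ Rel S k x' y')

/-- `W` thinks that the models of `φ` of cardinality `ℵ₁` have the amalgamation property. -/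
def Amalgamation (W : Set U) (φ : Form 0) : Prop :=
  ∀ A₀ R₀ A₁ R₁ A₂ R₂, IsModel W φ A₀ R₀ → IsModel W φ A₁ R₁ → IsModel W φ A₂ R₂ →
    IsSub A₀ R₀ A₁ R₁ → IsSub A₀ R₀ A₂ R₂ →
    ∃ B S, IsModel W φ B S ∧ ∃ f₁ ∈ W, ∃ f₂ ∈ W, IsEmb A₁ R₁ B S f₁ ∧ IsEmb A₂ R₂ B S f₂ ∧
      ∀ x ∈ A₀, ∀ y, ZFSet.pair x y ∈ f₁ ↔ ZFSet.pair x y ∈ f₂

/-- `W` thinks that `ℵ₁` belongs to the amalgamation spectrum of `φ`. -/
def AlephOneInSpec (W : Set U) (φ : Form 0) : Prop :=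
  (∃ A R, IsModel W φ A R) ∧ Amalgamation W φ

end Pool.Agent.MP8322
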