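import Pool.Agent.MP_8322c3_lc.Unif

set_option autoImplicit false

namespace Pool.Agent.MP8322

/-! ### there are only countably many formulas -/

def Fml.enc : Fml → ℕ
  | .mem i j => 5 * Nat.pair i j
  | .eq i j => 5 * Nat.pair i j + 1
  | .neg φ => 5 * φ.enc + 2
  | .and φ ψ => 5 * Nat.pair φ.enc ψ.enc + 3
  | .ex φ => 5 * φ.enc + 4

theorem Fml.enc_injective : Function.Injective Fml.enc := by
  intro φ
  induction φ with
  | mem i j =>
    intro ψ h
    cases ψ with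
    | mem i' j' =>
      simp only [Fml.enc] at h
      have h' : Nat.pair i j = Nat.pair i' j' := by omega
      obtain ⟨rfl, rfl⟩ := Nat.pair_eq_pair.1 h'
      rfl
    | _ => simp only [Fml.enc] at h; omega
  | eq i j =>
    intro ψ h
    cases ψ with
    | eq i' j' =>
      simp only [Fml.enc] at h
      have h' : Nat.pair i j = Nat.pair i' j' := by omega
      obtain ⟨rfl, rfl⟩ := Nat.pair_eq_pair.1 h'
      rfl
    | _ => simp only [Fml.enc] at h; omega
  | neg φ ih =>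
    intro ψ h
    cases ψ with
    | neg ψ =>
      simp only [Fml.enc] at h
      rw [ih (a₂ := ψ) (by omega)]
    | _ => simp only [Fml.enc] at h; omega
  | and φ φ' ih ih' =>
    intro ψ h
    cases ψ with
    | and ψ ψ' =>
      simp only [Fml.enc] at h
      have h' : Nat.pair φ.enc φ'.enc = Nat.pair ψ.enc ψ'.enc := by omega
      obtain ⟨h1, h2⟩ := Nat.pair_eq_pair.1 h'
      rw [ih h1, ih' h2]
    | _ => simp only [Fml.enc] at h; omega
  | ex φ ih =>
    intro ψ h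
    cases ψ with
    | ex ψ =>
      simp only [Fml.enc] at h
      rw [ih (a₂ := ψ) (by omega)]
    | _ => simp only [Fml.enc] at h; omega

instance : Countable Fml := Fml.enc_injective.countable

/-! ### facts about all sets -/

/-- an injection of the elements of `x` into the ordinals -/
noncomputable def ordOf (x : U) (z : {z : U // z ∈ x}) : U :=
  (Ordinal.typein (WellOrderingRel (α := Shrink.{0} {z : U // z ∈ x}))
    (equivShrink _ z)).toZFSet

theorem ordOf_injective (x : U) : Function.Injective (ordOf x) := by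
  intro a b h
  have h1 := Ordinal.toZFSet_injective h
  exact (equivShrink _).injective (Ordinal.typein_injective _ h1)

theorem ordOf_isOrdinal (x : U) (z : {z : U // z ∈ x}) : (ordOf x z).IsOrdinal :=
  ZFSet.isOrdinal_toZFSet _

theorem exists_enum (x : U) : ∃ f, EnumProp x f := by
  refine ⟨ZFSet.range (fun z : {z : U // z ∈ dd x} => ZFSet.pair z.1 (ordOf (dd x) z)),
    ?_, ?_, ?_⟩
  · intro z hz
    exact ⟨ordOf (dd x) ⟨z, hz⟩, ZFSet.mem_range.2 ⟨⟨z, hz⟩, rfl⟩⟩
  · intro z α h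
    obtain ⟨w, hw⟩ := ZFSet.mem_range.1 h
    obtain ⟨_, rfl⟩ := ZFSet.pair_inj.1 hw
    exact ordOf_isOrdinal _ _
  · intro z z' α h h'
    obtain ⟨w, hw⟩ := ZFSet.mem_range.1 h
    obtain ⟨w', hw'⟩ := ZFSet.mem_range.1 h'
    obtain ⟨rfl, rfl⟩ := ZFSet.pair_inj.1 hw
    obtain ⟨rfl, h3⟩ := ZFSet.pair_inj.1 hw'
    rw [ordOf_injective _ h3]

theorem exists_gch (x : U) : ∃ h : U, (∀ v ∈ x, ∃ α, ZFSet.pair α v ∈ h) ∧
    (∀ w ∈ h, ∃ α v, w = ZFSet.pair α v ∧ α.IsOrdinal) ∧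
    (∀ α v v', ZFSet.pair α v ∈ h → ZFSet.pair α v' ∈ h → v = v') := by
  refine ⟨ZFSet.range (fun z : {z : U // z ∈ x} => ZFSet.pair (ordOf x z) z.1), ?_, ?_, ?_⟩
  · intro z hz
    exact ⟨ordOf x ⟨z, hz⟩, ZFSet.mem_range.2 ⟨⟨z, hz⟩, rfl⟩⟩
  · intro w h
    obtain ⟨z, hz⟩ := ZFSet.mem_range.1 h
    exact ⟨_, _, hz.symm, ordOf_isOrdinal _ _⟩
  · intro α z z' h h'
    obtain ⟨w, hw⟩ := ZFSet.mem_range.1 h
    obtain ⟨w', hw'⟩ := ZFSet.mem_range.1 h'
    obtain ⟨rfl, rfl⟩ := ZFSet.pair_inj.1 hw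
    obtain ⟨h3, rfl⟩ := ZFSet.pair_inj.1 hw'
    rw [ordOf_injective _ h3]

theorem exists_coll {P : Type} (Q : U → P → U → Prop) (a : U) :
    ∃ B : U, ∀ z ∈ a, ∀ p : P, (∃ y, Q z p y) → ∃ y ∈ B, Q z p y := by
  classical
  refine ⟨ZFSet.range (fun zp : Shrink.{0} {z : U // z ∈ a} × P =>
    if h : ∃ y, Q ((equivShrink _).symm zp.1).1 zp.2 y then h.choose else ∅), ?_⟩
  intro z hz p h
  have h' : ∃ y, Q ((equivShrink {z : U // z ∈ a}).symm (equivShrink _ ⟨z, hz⟩)).1 p y := by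
    rw [Equiv.symm_apply_apply]
    exact h
  refine ⟨h'.choose, ZFSet.mem_range.2 ⟨⟨equivShrink _ ⟨z, hz⟩, p⟩, ?_⟩, ?_⟩
  · simp only [dif_pos h']
  · have := h'.choose_spec
    simpa only [Equiv.symm_apply_apply] using this

theorem exists_coll' (Q : U → U → Prop) (a : U) :
    ∃ B : U, ∀ z ∈ a, (∃ y, Q z y) → ∃ y ∈ B, Q z y := by
  obtain ⟨B, hB⟩ := exists_coll (P := Unit) (fun z _ y => Q z y) a
  exact ⟨B, fun z hz => hB z hz ()⟩

/-- the `k`-th element in a listing of a countable set -/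
noncomputable def elt (k : ℕ) (x : U) : U :=
  open Classical in if h : ∃ e : ℕ → U, ∀ y ∈ x, ∃ k, e k = y then h.choose k else ∅

theorem exists_elt {x : U} (hx : {y : U | y ∈ x}.Countable) {y : U} (hy : y ∈ x) :
    ∃ k, elt k x = y := by
  have h : ∃ e : ℕ → U, ∀ y ∈ x, ∃ k, e k = y := by
    obtain ⟨e, he⟩ := hx.exists_eq_range ⟨y, hy⟩
    refine ⟨e, fun z hz => ?_⟩
    have : z ∈ Set.range e := he ▸ hz
    exact this
  obtain ⟨k, hk⟩ := h.choose_spec y hy
  refine ⟨k, ?_⟩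
  rw [elt, dif_pos h]
  exact hk

variable {P : Type} [Preorder P] [OrderTop P]

theorem check_injective (c : P → U) : Function.Injective (check c) := by
  have main : ∀ (x y : U), check c x = check c y → x = y := by
    intro x
    induction x using ZFSet.inductionOn with
    | _ x ih =>
      intro y h
      ext z
      constructor
      · intro hz
        have h1 : ZFSet.pair (check c z) (c ⊤) ∈ check c y := by
          rw [← h]
          exact mem_check.2 ⟨z, hz, rfl⟩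
        obtain ⟨w, hw, e⟩ := mem_check.1 h1
        rw [ih z hz w (ZFSet.pair_inj.1 e).1]
        exact hw
      · intro hz
        have h1 : ZFSet.pair (check c z) (c ⊤) ∈ check c x := by
          rw [h]
          exact mem_check.2 ⟨z, hz, rfl⟩
        obtain ⟨w, hw, e⟩ := mem_check.1 h1
        rw [← ih w hw z (ZFSet.pair_inj.1 e).1.symm]
        exact hw
  exact main

/-- the closure relations of the countable model -/
def baseRel (c : P → U) : ℕ → ℕ → Fml → List U → U → Prop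
  | 0, _, _, _, y => y = ∅
  | 1, _, _, l, y => ∃ b, nth l 0 = ZFSet.pair y b
  | 2, _, _, l, y => ∃ a, nth l 0 = ZFSet.pair a y
  | 3, _, _, _, y => y = c ⊤
  | 4, _, _, l, y => y = upn c (nth l 0) (nth l 1)
  | 5, k, _, l, y => y = elt k (nth l 0)
  | 6, _, _, l, y => y = check c (nth l 0)
  | 7, _, _, l, y => nth l 0 = check c y
  | 8, _, _, _, y => y = ZFSet.omega
  | 9, _, _, l, y => y = ZFSet.prod (ZFSet.sUnion (dd (dd (nth l 0)))) {c ⊤}
  | 10, _, _, l, y =>
    y = ZFSet.prod (ZFSet.powerset (ZFSet.prod (dd (nth l 0)) (ZFSet.range c))) {c ⊤}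
  | 11, _, φ, l, y => y = sepName c φ l.tail (nth l 0)
  | 12, _, φ, l, y => collProp c φ l.tail (nth l 0) y
  | 13, _, _, l, y => y = ZFSet.prod (nth l 0) {c ⊤}
  | 14, _, φ, l, y => ∃ p, nth l 2 = c p ∧ y ∈ nth l 0 ∧
    Fc c φ (y :: nth l 1 :: l.tail.tail.tail) p
  | 15, _, _, l, y => EnumProp (nth l 0) y
  | 16, _, _, l, y => y = chName c (nth l 0)
  | 17, _, _, l, y => ZFSet.pair (nth l 1) y ∈ nth l 0
  | 18, _, _, l, y => y = ZFSet.pair (nth l 0) (nth l 1)
  | 19, _, _, l, y => ∃ p s, nth l 2 = c p ∧ y = c s ∧ ZFSet.pair (nth l 1) (c s) ∈ nth l 0 ∧ p ≤ s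
  | 20, _, _, l, y => y ∈ nth l 0 ∧ y ∉ nth l 1
  | 21, _, _, l, y => y = (nth l 0).rank.toZFSet
  | 22, _, φ, l, y => Sat Set.univ φ (y :: l)
  | 23, _, _, l, y => y = {nth l 0, nth l 1}
  | 24, _, _, l, y => y = ZFSet.sUnion (nth l 0)
  | 25, _, _, l, y => y = ZFSet.powerset (nth l 0)
  | 26, _, φ, l, y => y = ZFSet.sep (fun u => Sat Set.univ φ (u :: l.tail)) (nth l 0)
  | 27, _, φ, l, y => ∀ z ∈ nth l 0,
    (∃ v, Sat Set.univ φ (v :: z :: l.tail)) → ∃ v ∈ y, Sat Set.univ φ (v :: z :: l.tail)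
  | 28, _, _, l, y => (∀ v ∈ nth l 0, ∃ α, ZFSet.pair α v ∈ y) ∧
    (∀ w ∈ y, ∃ α v, w = ZFSet.pair α v ∧ α.IsOrdinal) ∧
    (∀ α v v', ZFSet.pair α v ∈ y → ZFSet.pair α v' ∈ y → v = v')
  | 29, _, _, l, y => ZFSet.pair y (nth l 1) ∈ nth l 0
  | 30, _, _, l, y => ∃ p q, nth l 0 = c p ∧ q ≤ p ∧ y = c q ∧ y ∈ nth l 1
  | _, _, _, _, _ => False

/-- the decision families needed for the truth lemma -/
def baseT (c : P → U) : ℕ → Fml → List U → U → P → Prop
  | 0, _ => Tmem c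
  | 1, _ => Tmem' c
  | 2, _ => Tbad c
  | 3, φ => Tex c φ
  | _, φ => Tf c φ

def decRel (c : P → U) (T : List U → U → P → Prop) : Bool → List U → U → Prop
  | true, l, y => y = decSet c T l
  | false, l, y => ∃ p, nth l 0 = c p ∧ T l.tail y p

theorem dec_of_closed {c : P → U} (hc : Function.Injective c) {M : Set U}
    {T : List U → U → P → Prop}
    (h : ∀ b l, WL M l → (∃ y, decRel c T b l y) → ∃ y ∈ M, decRel c T b l y) : Dec c M T where
  mem := by
    intro l hl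
    obtain ⟨y, hy, e⟩ := h true l hl ⟨_, rfl⟩
    have e' : y = decSet c T l := e
    exact e' ▸ hy
  wit := by
    intro l hl p hp hw
    obtain ⟨w, hw⟩ := hw
    obtain ⟨y, hy, p', e, hT⟩ := h false (c p :: l) (hl.cons hp) ⟨w, p, rfl, hw⟩
    have e' : p = p' := hc e
    subst e'
    exact ⟨y, hy, hT⟩

theorem exists_Env {c : P → U} (hc : Function.Injective c) {κ κ' : Type} [Countable κ]
    [Countable κ'] (R : κ → List U → U → Prop) (T : κ' → List U → U → P → Prop) :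
    ∃ M : Set U, M.Countable ∧ Env c M ∧ (∀ x ∈ M, {y : U | y ∈ x}.Countable → ∀ y ∈ x, y ∈ M) ∧
      (∀ k l, WL M l → (∃ y, R k l y) → ∃ y ∈ M, R k l y) ∧ (∀ k, Dec c M (T k)) ∧
      (∀ p, c p ∈ M → ∀ D ∈ M, (∃ q ≤ p, c q ∈ D) → ∃ q ≤ p, c q ∈ M ∧ c q ∈ D) := by
  obtain ⟨M, hMc, hM⟩ := exists_closed
    (ι := (ℕ × ℕ × Fml) ⊕ (κ ⊕ ((Bool × κ') ⊕ (Bool × ℕ × Fml))))
    (fun i => match i with
      | .inl (n, k, φ) => baseRel c n k φ
      | .inr (.inl k) => R k
      | .inr (.inr (.inl (b, k))) => decRel c (T k) b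
      | .inr (.inr (.inr (b, n, φ))) => decRel c (baseT c n φ) b)
  have hB : ∀ n k φ l, WL M l → (∃ y, baseRel c n k φ l y) → ∃ y ∈ M, baseRel c n k φ l y :=
    fun n k φ => hM (.inl (n, k, φ))
  have hR : ∀ k l, WL M l → (∃ y, R k l y) → ∃ y ∈ M, R k l y := fun k => hM (.inr (.inl k))
  have hT : ∀ k, Dec c M (T k) :=
    fun k => dec_of_closed hc fun b => hM (.inr (.inr (.inl (b, k))))
  have hT' : ∀ n φ, Dec c M (baseT c n φ) :=
    fun n φ => dec_of_closed hc fun b => hM (.inr (.inr (.inr (b, n, φ))))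
  -- closure under a function
  have hF : ∀ n k φ (f : List U → U), (∀ l y, baseRel c n k φ l y ↔ y = f l) →
      ∀ l, WL M l → f l ∈ M := by
    intro n k φ f hf l hl
    obtain ⟨y, hy, e⟩ := hB n k φ l hl ⟨f l, (hf _ _).2 rfl⟩
    rw [← (hf _ _).1 e]
    exact hy
  have W1 : ∀ {a : U}, a ∈ M → WL M [a] := fun h => WL.nil.cons h
  have W2 : ∀ {a b : U}, a ∈ M → b ∈ M → WL M [a, b] := fun h h' => (WL.nil.cons h').cons h
  have W3 : ∀ {a b d : U}, a ∈ M → b ∈ M → d ∈ M → WL M [a, b, d] :=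
    fun h h' h'' => ((WL.nil.cons h'').cons h').cons h
  let φ₀ : Fml := .mem 0 0
  have hct : ∀ x ∈ M, {y : U | y ∈ x}.Countable → ∀ y ∈ x, y ∈ M := by
    intro x hx hxc y hy
    obtain ⟨k, hk⟩ := exists_elt hxc hy
    rw [← hk]
    exact hF 5 k φ₀ (fun l => elt k (nth l 0)) (fun l y => Iff.rfl) [x] (W1 hx)
  have hfst : ∀ x y, ZFSet.pair x y ∈ M → x ∈ M := by
    intro x y h
    obtain ⟨x', hx', b, e⟩ := hB 1 0 φ₀ [ZFSet.pair x y] (W1 h) ⟨x, y, rfl⟩
    rw [(ZFSet.pair_inj.1 e).1]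
    exact hx'
  have hsnd : ∀ x y, ZFSet.pair x y ∈ M → y ∈ M := by
    intro x y h
    obtain ⟨x', hx', b, e⟩ := hB 2 0 φ₀ [ZFSet.pair x y] (W1 h) ⟨y, x, rfl⟩
    rw [(ZFSet.pair_inj.1 e).2]
    exact hx'
  have hupn : ∀ x y, upn c x y ∈ M → x ∈ M ∧ y ∈ M := by
    intro x y h
    have hcnt : {z : U | z ∈ upn c x y}.Countable := by
      have : {z : U | z ∈ upn c x y} = {ZFSet.pair x (c ⊤), ZFSet.pair y (c ⊤)} := by
        ext z
        simp [upn]
      rw [this]
      exact (Set.countable_singleton _).insert _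
    exact ⟨hfst _ _ (hct _ h hcnt (ZFSet.pair x (c ⊤)) (by simp [upn])), hfst _ _ (hct _ h hcnt (ZFSet.pair y (c ⊤))
      (by simp [upn]))⟩
  have hom : ZFSet.omega ∈ M := hF 8 0 φ₀ (fun _ => ZFSet.omega) (fun l y => Iff.rfl) [] WL.nil
  refine ⟨M, hMc, ?_, hct, hR, hT, ?_⟩
  · exact
    { inj := hc
      empty := hF 0 0 φ₀ (fun _ => ∅) (fun l y => Iff.rfl) [] WL.nil
      fst := hfst
      snd := hsnd
      dmem := hT' 0 φ₀
      dmem' := hT' 1 φ₀
      dbad := hT' 2 φ₀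
      dex := fun φ => hT' 3 φ
      df := fun φ => hT' 4 φ
      ctop := hF 3 0 φ₀ (fun _ => c ⊤) (fun l y => Iff.rfl) [] WL.nil
      upn := fun x hx y hy => hF 4 0 φ₀ (fun l => MP8322.upn c (nth l 0) (nth l 1))
        (fun l y => Iff.rfl) [x, y] (W2 hx hy)
      opnInv := by
        intro x y h
        obtain ⟨_, h2⟩ := hupn _ _ h
        exact hupn _ _ h2
      check := fun x hx => hF 6 0 φ₀ (fun l => MP8322.check c (nth l 0))
        (fun l y => Iff.rfl) [x] (W1 hx)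
      uncheck := by
        intro x h
        obtain ⟨y, hy, e⟩ := hB 7 0 φ₀ [MP8322.check c x] (W1 h) ⟨x, rfl⟩
        rw [check_injective c e]
        exact hy
      num := by
        intro n
        refine hct _ hom ?_ _ (num_mem_omega n)
        refine (Set.countable_range MP8322.num).mono ?_
        intro x hx
        obtain ⟨n, rfl⟩ := (mem_omega_iff x).1 hx
        exact ⟨n, rfl⟩
      omega := hom
      unionCover := fun x hx => hF 9 0 φ₀
        (fun l => ZFSet.prod (ZFSet.sUnion (dd (dd (nth l 0)))) {c ⊤})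
        (fun l y => Iff.rfl) [x] (W1 hx)
      powCover := fun x hx => hF 10 0 φ₀
        (fun l => ZFSet.prod (ZFSet.powerset (ZFSet.prod (dd (nth l 0)) (ZFSet.range c))) {c ⊤})
        (fun l y => Iff.rfl) [x] (W1 hx)
      sepn := fun φ l hl x hx => hF 11 0 φ (fun l => sepName c φ l.tail (nth l 0))
        (fun l y => Iff.rfl) (x :: l) (hl.cons hx)
      coll := by
        intro φ l hl a ha
        have hex : ∃ B, collProp c φ l a B :=
          exists_coll (fun z p y => Fc c φ (y :: z :: l) p) (dd a)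
        obtain ⟨B, hB', hB''⟩ := hB 12 0 φ (a :: l) (hl.cons ha) hex
        exact ⟨B, hB', hF 13 0 φ₀ (fun l => ZFSet.prod (nth l 0) {c ⊤}) (fun l y => Iff.rfl) [B]
          (W1 hB'), hB''⟩
      collw := by
        intro φ l hl B hB' z hz p hp hex
        obtain ⟨y, hy, hF'⟩ := hex
        obtain ⟨y', hy', p', e, h1, h2⟩ := hB 14 0 φ (B :: z :: c p :: l)
          (((hl.cons hp).cons hz).cons hB') ⟨y, p, rfl, hy, hF'⟩
        have e' : p = p' := hc e
        subst e'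
        exact ⟨y', hy', h1, h2⟩
      enum := by
        intro x hx
        obtain ⟨f, hf, hf'⟩ := hB 15 0 φ₀ [x] (W1 hx) (exists_enum x)
        exact ⟨f, hf, hf', hF 16 0 φ₀ (fun l => chName c (nth l 0)) (fun l y => Iff.rfl) [f]
          (W1 hf)⟩
      enumw := fun f hf z hz hex => hB 17 0 φ₀ [f, z] (W2 hf hz) hex
      opair := fun x hx y hy => hF 18 0 φ₀ (fun l => ZFSet.pair (nth l 0) (nth l 1))
        (fun l y => Iff.rfl) [x, y] (W2 hx hy)
      sepw := by
        intro x hx z hz p hp hex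
        obtain ⟨s, hs, hps⟩ := hex
        obtain ⟨y, hy, p', s', e, rfl, h1, h2⟩ := hB 19 0 φ₀ [x, z, c p] (W3 hx hz hp)
          ⟨c s, p, s, rfl, rfl, hs, hps⟩
        have e' : p = p' := hc e
        subst e'
        exact ⟨s', hy, h1, h2⟩
      sub := by
        intro x hx y hy hns
        have hex : ∃ z, z ∈ x ∧ z ∉ y := by
          by_contra hcon
          push Not at hcon
          exact hns fun z hz => hcon z hz
        exact hB 20 0 φ₀ [x, y] (W2 hx hy) hex
      rank := fun x hx => hF 21 0 φ₀ (fun l => (nth l 0).rank.toZFSet)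
        (fun l y => Iff.rfl) [x] (W1 hx)
      skol := fun φ l hl hex => hB 22 0 φ l hl hex
      gupair := fun x hx y hy => hF 23 0 φ₀ (fun l => ({nth l 0, nth l 1} : U))
        (fun l y => Iff.rfl) [x, y] (W2 hx hy)
      gunion := fun x hx => hF 24 0 φ₀ (fun l => ZFSet.sUnion (nth l 0))
        (fun l y => Iff.rfl) [x] (W1 hx)
      gpower := fun x hx => hF 25 0 φ₀ (fun l => ZFSet.powerset (nth l 0))
        (fun l y => Iff.rfl) [x] (W1 hx)
      gsep := fun φ l hl x hx => hF 26 0 φ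
        (fun l => ZFSet.sep (fun u => Sat Set.univ φ (u :: l.tail)) (nth l 0))
        (fun l y => Iff.rfl) (x :: l) (hl.cons hx)
      gcoll := by
        intro φ l hl a ha
        exact hB 27 0 φ (a :: l) (hl.cons ha)
          (exists_coll' (fun z y => Sat Set.univ φ (y :: z :: l)) a)
      gch := fun x hx => hB 28 0 φ₀ [x] (W1 hx) (exists_gch x)
      gchw := fun h hh v hv hex => hB 29 0 φ₀ [h, v] (W2 hh hv) hex }
  · intro p hp D hD hex
    obtain ⟨q, hq, hqD⟩ := hex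
    obtain ⟨y, hy, p', q', e, hle, rfl, hyD⟩ := hB 30 0 φ₀ [c p, D] (W2 hp hD)
      ⟨c q, p, q, rfl, hq, rfl, hqD⟩
    have e' : p = p' := hc e
    subst e'
    exact ⟨q', hle, hy, hyD⟩

/-! ### generic filters exist -/

theorem exists_gen {c : P → U} {M : Set U} (hMc : M.Countable) (htop : c ⊤ ∈ M)
    (hD : ∀ p, c p ∈ M → ∀ D ∈ M, (∃ q ≤ p, c q ∈ D) → ∃ q ≤ p, c q ∈ M ∧ c q ∈ D)
    {p₀ : P} (hp₀ : c p₀ ∈ M) : ∃ G : Set P, IsGen c M G ∧ p₀ ∈ G := by
  classical
  obtain ⟨e, he⟩ := hMc.exists_eq_range ⟨_, htop⟩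
  have heM : ∀ n, e n ∈ M := fun n => he ▸ ⟨n, rfl⟩
  -- a descending sequence
  let step : ℕ → {p : P // c p ∈ M} → {p : P // c p ∈ M} := fun n p =>
    if h : ∃ q ≤ p.1, c q ∈ M ∧ c q ∈ e n then ⟨h.choose, h.choose_spec.2.1⟩ else p
  have hstep : ∀ n p, (step n p).1 ≤ p.1 := by
    intro n p
    simp only [step]
    split_ifs with h
    · exact h.choose_spec.1
    · exact le_refl _
  let s : ℕ → {p : P // c p ∈ M} := fun n => Nat.rec ⟨p₀, hp₀⟩ step n
  have hs : ∀ n, s (n + 1) = step n (s n) := fun n => rfl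
  have hanti : Antitone (fun n => (s n).1) := antitone_nat_of_succ_le fun n => by
    rw [hs]
    exact hstep _ _
  refine ⟨{q | c q ∈ M ∧ ∃ n, (s n).1 ≤ q}, ?_, ⟨hp₀, 0, le_refl _⟩⟩
  exact
  { sub := fun p hp => hp.1
    top := ⟨htop, 0, le_top⟩
    up := by
      rintro p ⟨_, n, hn⟩ q hpq hq
      exact ⟨hq, n, hn.trans hpq⟩
    dir := by
      rintro p ⟨_, n, hn⟩ q ⟨_, m, hm⟩
      exact ⟨(s (max n m)).1, ⟨(s _).2, max n m, le_refl _⟩,
        (hanti (le_max_left n m)).trans hn, (hanti (le_max_right n m)).trans hm⟩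
    gen := by
      intro D hDM hdense
      have : D ∈ Set.range e := he ▸ hDM
      obtain ⟨n, rfl⟩ := this
      have h : ∃ q ≤ (s n).1, c q ∈ M ∧ c q ∈ e n := hD _ (s n).2 _ hDM (hdense _)
      refine ⟨(s (n + 1)).1, ⟨(s (n + 1)).2, n + 1, le_refl _⟩, ?_⟩
      rw [hs]
      simp only [step, dif_pos h]
      exact h.choose_spec.2.2 }

/-- every type injects into the sets -/
theorem exists_code (P : Type) : ∃ c : P → U, Function.Injective c := by
  refine ⟨fun p => (Ordinal.typein (WellOrderingRel (α := P)) p).toZFSet, ?_⟩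
  intro a b h
  exact Ordinal.typein_injective _ (Ordinal.toZFSet_injective h)

end Pool.Agent.MP8322
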