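import Pool.Agent.MP_8322c3_lc.Calc

set_option autoImplicit false

namespace Pool.Agent.MP8322

variable {W : Set U}

/-- collection scheme -/
def Coll (W : Set U) : Prop := ∀ (φ : Fml) (l : List U), WL W l → ∀ a ∈ W,
  ∃ b ∈ W, ∀ u ∈ a, (∃ v ∈ W, Sat W φ (v :: u :: l)) → ∃ v ∈ b, Sat W φ (v :: u :: l)

/-- every set is covered by the range of a function on a set of ordinals -/
def Ch (W : Set U) : Prop := ∀ s ∈ W, ∃ h ∈ W, (∀ v ∈ s, ∃ α, ZFSet.pair α v ∈ h) ∧
  (∀ α v, ZFSet.pair α v ∈ h → α.IsOrdinal) ∧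
  (∀ α v v', ZFSet.pair α v ∈ h → ZFSet.pair α v' ∈ h → v = v')

theorem Dfn.sat (φ : Fml) : Dfn W (fun l => Sat W φ l) := ⟨φ, fun _ _ => Iff.rfl⟩

theorem Nice.toZFC (hW : Nice W) (hc : Coll W) (hh : Ch W) : IsTransModelZFC W where
  transitive := hW.trans
  extensionality := by
    intro x hx y hy h
    ext z
    constructor
    · intro hz
      exact (h z (hW.trans _ hx _ hz)).1 hz
    · intro hz
      exact (h z (hW.trans _ hy _ hz)).2 hz
  foundation := by
    rintro x hx ⟨y, _, hyx⟩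
    obtain ⟨z, hz, hxz⟩ := ZFSet.regularity x (by
      rintro rfl
      exact ZFSet.notMem_empty _ hyx)
    refine ⟨z, hW.trans _ hx _ hz, hz, ?_⟩
    rintro w _ ⟨h1, h2⟩
    have : w ∈ x ∩ z := by simp [h1, h2]
    rw [hxz] at this
    exact ZFSet.notMem_empty _ this
  pairing := by
    intro x hx y hy
    exact ⟨{x, y}, hW.upair x hx y hy, fun u _ => by simp⟩
  union := by
    intro x hx
    refine ⟨_, hW.sUnion x hx, fun u _ => ?_⟩
    rw [ZFSet.mem_sUnion]
    constructor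
    · rintro ⟨y, h1, h2⟩
      exact ⟨y, hW.trans _ hx _ h1, h1, h2⟩
    · rintro ⟨y, _, h1, h2⟩
      exact ⟨y, h1, h2⟩
  powerset := by
    intro x hx
    refine ⟨_, hW.power x hx, fun u hu => ?_⟩
    rw [ZFSet.mem_sep, ZFSet.mem_powerset]
    constructor
    · rintro ⟨h1, _⟩ v _ hv
      exact h1 hv
    · intro h
      exact ⟨fun v hv => h v (hW.trans _ hu _ hv) hv, hu⟩
  infinity := by
    refine ⟨_, hW.omega, ⟨∅, hW.empty, ZFSet.omega_zero, fun u _ => ZFSet.notMem_empty u⟩, ?_⟩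
    intro u hu hu'
    refine ⟨Insert.insert u u, hW.insert hu hu, ZFSet.omega_succ hu', fun t _ => ?_⟩
    rw [ZFSet.mem_insert_iff]
    tauto
  separation := by
    intro φ l hl a ha
    exact ⟨_, hW.sep φ l hl a ha, fun u _ => ZFSet.mem_sep⟩
  replacement := by
    intro φ l hl a ha hfun
    obtain ⟨b₀, hb₀, hb⟩ := hc φ l hl a ha
    have h1 : Dfn W (fun L => ∃ u ∈ nth L 1, Sat W φ (nth L 0 :: u :: L.tail.tail)) := by
      apply Dfn.bex hW (DfnT.var hW.empty 1)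
      refine (Dfn.sat φ).reindex (fun L => nth L.tail 0 :: nth L 0 :: L.tail.tail.tail)
        (fun i => match i with | 0 => 1 | 1 => 0 | i + 2 => i + 3) ?_ ?_
      · intro L i
        match i with
        | 0 => simp [nth_tail]
        | 1 => simp
        | i + 2 => simp [nth_tail]
      · intro L hL
        exact WL.cons (hL.tail.get hW.empty 0) (WL.cons (hL.get hW.empty 0) hL.tail.tail.tail)
    refine ⟨_, hW.sepD h1 (l := a :: l) (WL.cons ha hl) hb₀, fun v hv => ?_⟩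
    rw [ZFSet.mem_sep]
    simp only [nth_cons_zero, nth_cons_succ, List.tail_cons]
    constructor
    · rintro ⟨_, u, hu, hs⟩
      exact ⟨u, hW.trans _ ha _ hu, hu, hs⟩
    · rintro ⟨u, huW, hu, hs⟩
      refine ⟨?_, u, hu, hs⟩
      obtain ⟨v', hv', hs'⟩ := hb u hu ⟨v, hv, hs⟩
      obtain ⟨v₀, _, hv₀⟩ := hfun u huW hu
      have e1 := (hv₀ v hv).1 hs
      have e2 := (hv₀ v' (hW.trans _ hb₀ _ hv')).1 hs'
      rw [e1, ← e2]
      exact hv'
  choice := by
    intro a ha hne hdisj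
    obtain ⟨h, hhW, hcov, hord, hfun⟩ := hh _ (hW.sUnion a ha)
    -- `v ∈ u ∈ a` and `v` is listed first among the elements of `u`
    have h1 : Dfn W (fun L => ∃ u ∈ nth L 1, nth L 0 ∈ u ∧ ∃ α ∈ W,
        ZFSet.pair α (nth L 0) ∈ nth L 2 ∧ ∀ β ∈ α, ∀ w ∈ u, ZFSet.pair β w ∉ nth L 2) := by
      have he := hW.empty
      apply Dfn.bex hW (DfnT.var he 1)
      simp only [nth_tail, Nat.reduceAdd]
      refine (Dfn.mem he (DfnT.var he 1) (DfnT.var he 0)).and ?_
      apply Dfn.ex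
      simp only [nth_tail, Nat.reduceAdd]
      refine (Dfn.mem he (DfnT.pair hW (DfnT.var he 0) (DfnT.var he 2)) (DfnT.var he 4)).and ?_
      apply Dfn.ball hW (DfnT.var he 0)
      simp only [nth_tail, Nat.reduceAdd]
      apply Dfn.ball hW (DfnT.var he 2)
      simp only [nth_tail, Nat.reduceAdd]
      exact (Dfn.mem he (DfnT.pair hW (DfnT.var he 1) (DfnT.var he 0)) (DfnT.var he 6)).not
    have h2 := hW.sepD h1 (l := [a, h]) ((WL.nil.cons hhW).cons ha) (hW.sUnion a ha)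
    refine ⟨_, h2, fun x hxW hxa => ?_⟩
    obtain ⟨y, hyW, hyx⟩ := hne x hxW hxa
    -- least ordinal
    have hex : ∃ α, α.IsOrdinal ∧ ∃ v ∈ x, ZFSet.pair α v ∈ h := by
      obtain ⟨α, hα⟩ := hcov y (ZFSet.mem_sUnion.2 ⟨x, hxa, hyx⟩)
      exact ⟨α, hord _ _ hα, y, hyx, hα⟩
    obtain ⟨α, ⟨hα, v, hvx, hvh⟩, hmin⟩ := WellFounded.has_min ZFSet.mem_wf
      {α : U | α.IsOrdinal ∧ ∃ v ∈ x, ZFSet.pair α v ∈ h} hex
    refine ⟨v, hW.trans _ hxW _ hvx, fun u huW => ?_⟩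
    rw [ZFSet.mem_sep]
    simp only [nth_cons_zero, nth_cons_succ]
    constructor
    · rintro ⟨⟨_, x', hx'a, hux', α', hα'W, hα'u, hα'min⟩, hux⟩
      have hxx : x' = x := by
        by_contra hne'
        exact hdisj x' (hW.trans _ ha _ hx'a) x hxW hx'a hxa hne' u huW ⟨hux', hux⟩
      subst hxx
      have hα' := hord _ _ hα'u
      rcases hα.mem_trichotomous hα' with h3 | h3 | h3
      · exact absurd hvh (hα'min α h3 v hvx)
      · subst h3
        exact hfun _ _ _ hα'u hvh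
      · exact absurd h3 (hmin α' ⟨hα', u, hux, hα'u⟩)
    · rintro rfl
      refine ⟨⟨ZFSet.mem_sUnion.2 ⟨x, hxa, hvx⟩, x, hxa, hvx, α, ?_, hvh, ?_⟩, hvx⟩
      · exact hW.fst (hW.trans _ hhW _ hvh)
      · intro β hβ w hw hβw
        exact hmin β ⟨hord _ _ hβw, w, hw, hβw⟩ hβ

end Pool.Agent.MP8322
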