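import Pool.Agent.MP_8322c3_lc.Forcing
import Pool.Agent.MP_8322c3_lc.ZFC

set_option autoImplicit false

namespace Pool.Agent.MP8322

variable {P : Type} [Preorder P] [OrderTop P]

/-- name of an unordered pair -/
def upn (c : P → U) (x y : U) : U := {ZFSet.pair x (c ⊤), ZFSet.pair y (c ⊤)}

/-- name of an ordered pair -/
def opn (c : P → U) (x y : U) : U := upn c (upn c x x) (upn c x y)

/-- canonical name of a ground model set -/
noncomputable def check (c : P → U) (x : U) : U :=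
  ZFSet.range (fun y : {y : U // y ∈ x} => ZFSet.pair (check c y.1) (c ⊤))
termination_by x.rank
decreasing_by exact ZFSet.rank_lt_of_mem y.2

theorem mem_check {c : P → U} {x z : U} :
    z ∈ check c x ↔ ∃ y ∈ x, z = ZFSet.pair (check c y) (c ⊤) := by
  rw [check, ZFSet.mem_range]
  constructor
  · rintro ⟨⟨y, hy⟩, h⟩
    exact ⟨y, hy, h.symm⟩
  · rintro ⟨y, hy, h⟩
    exact ⟨⟨y, hy⟩, h.symm⟩

/-- union of union: contains the domain of a name -/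
def dd (x : U) : U := ZFSet.sUnion (ZFSet.sUnion x)

theorem mem_dd {x z a : U} (h : ZFSet.pair z a ∈ x) : z ∈ dd x := by
  refine ZFSet.mem_sUnion.2 ⟨{z}, ZFSet.mem_sUnion.2 ⟨_, h, ?_⟩, ?_⟩
  · simp [ZFSet.pair]
  · simp

/-- name for `{v ∈ x : φ(v, l)}` -/
noncomputable def sepName (c : P → U) (φ : Fml) (l : List U) (x : U) : U :=
  ZFSet.sep (fun w => ∃ z p s, w = ZFSet.pair z (c p) ∧ ZFSet.pair z (c s) ∈ x ∧ p ≤ s ∧
    Fc c φ (z :: l) p) (ZFSet.prod (dd x) (ZFSet.range c))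

theorem mem_sepName {c : P → U} (hc : Function.Injective c) {φ : Fml} {l : List U} {x z : U}
    {p : P} : ZFSet.pair z (c p) ∈ sepName c φ l x ↔
      ∃ s, ZFSet.pair z (c s) ∈ x ∧ p ≤ s ∧ Fc c φ (z :: l) p := by
  unfold sepName
  rw [ZFSet.mem_sep]
  constructor
  · rintro ⟨_, z', p', s, h1, h2, h3, h4⟩
    obtain ⟨rfl, h5⟩ := ZFSet.pair_inj.1 h1
    have := hc h5
    subst this
    exact ⟨s, h2, h3, h4⟩
  · rintro ⟨s, h2, h3, h4⟩
    refine ⟨?_, z, p, s, rfl, h2, h3, h4⟩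
    rw [ZFSet.pair_mem_prod]
    exact ⟨mem_dd h2, ZFSet.mem_range.2 ⟨p, rfl⟩⟩

def collProp (c : P → U) (φ : Fml) (l : List U) (a B : U) : Prop :=
  ∀ z ∈ dd a, ∀ p : P, (∃ y, Fc c φ (y :: z :: l) p) → ∃ y ∈ B, Fc c φ (y :: z :: l) p

/-- `f` injects `dd x` into the ordinals -/
def EnumProp (x f : U) : Prop :=
  (∀ z ∈ dd x, ∃ α, ZFSet.pair z α ∈ f) ∧ (∀ z α, ZFSet.pair z α ∈ f → α.IsOrdinal) ∧
  (∀ z z' α, ZFSet.pair z α ∈ f → ZFSet.pair z' α ∈ f → z = z')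

noncomputable def pfst (w : U) : U := Classical.epsilon (fun z => ∃ α, w = ZFSet.pair z α)

noncomputable def psnd (w : U) : U := Classical.epsilon (fun α => ∃ z, w = ZFSet.pair z α)

theorem pfst_pair (z α : U) : pfst (ZFSet.pair z α) = z := by
  have h : ∃ z', ∃ α', ZFSet.pair z α = ZFSet.pair z' α' := ⟨z, α, rfl⟩
  obtain ⟨α', hα'⟩ := Classical.epsilon_spec h
  exact (ZFSet.pair_inj.1 hα').1.symm

theorem psnd_pair (z α : U) : psnd (ZFSet.pair z α) = α := by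
  have h : ∃ α', ∃ z', ZFSet.pair z α = ZFSet.pair z' α' := ⟨α, z, rfl⟩
  obtain ⟨z', hz'⟩ := Classical.epsilon_spec h
  exact (ZFSet.pair_inj.1 hz').2.symm

instance smallPairs (f : U) :
    Small.{0} {w : U // w ∈ f ∧ ∃ z α, w = ZFSet.pair z α} := by
  refine small_of_injective (β := {y : U // y ∈ f}) (f := fun y => ⟨y.1, y.2.1⟩) ?_
  intro a b h
  exact Subtype.ext (Subtype.mk.inj h)

/-- name of the inverse of `f` -/
noncomputable def chName (c : P → U) (f : U) : U :=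
  ZFSet.range (fun w : {w : U // w ∈ f ∧ ∃ z α, w = ZFSet.pair z α} =>
    ZFSet.pair (opn c (check c (psnd w.1)) (pfst w.1)) (c ⊤))

theorem mem_chName {c : P → U} {f w : U} :
    w ∈ chName c f ↔ ∃ z α, ZFSet.pair z α ∈ f ∧
      w = ZFSet.pair (opn c (check c α) z) (c ⊤) := by
  unfold chName
  rw [ZFSet.mem_range]
  constructor
  · rintro ⟨⟨v, hv, z, α, rfl⟩, rfl⟩
    refine ⟨z, α, hv, ?_⟩
    simp only [pfst_pair, psnd_pair]
  · rintro ⟨z, α, h, rfl⟩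
    refine ⟨⟨ZFSet.pair z α, h, z, α, rfl⟩, ?_⟩
    simp only [pfst_pair, psnd_pair]

/-- closure properties of the countable model -/
structure Env (c : P → U) (M : Set U) : Prop extends Env0 c M where
  ctop : c ⊤ ∈ M
  upn : ∀ x ∈ M, ∀ y ∈ M, upn c x y ∈ M
  opnInv : ∀ x y, opn c x y ∈ M → x ∈ M ∧ y ∈ M
  check : ∀ x ∈ M, check c x ∈ M
  uncheck : ∀ x, MP8322.check c x ∈ M → x ∈ M
  num : ∀ n, num n ∈ M
  omega : ZFSet.omega ∈ M
  unionCover : ∀ x ∈ M, ZFSet.prod (ZFSet.sUnion (dd (dd x))) {c ⊤} ∈ M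
  powCover : ∀ x ∈ M, ZFSet.prod (ZFSet.powerset (ZFSet.prod (dd x) (ZFSet.range c))) {c ⊤} ∈ M
  sepn : ∀ φ l, WL M l → ∀ x ∈ M, sepName c φ l x ∈ M
  coll : ∀ φ l, WL M l → ∀ a ∈ M, ∃ B ∈ M, ZFSet.prod B {c ⊤} ∈ M ∧ collProp c φ l a B
  collw : ∀ φ l, WL M l → ∀ B ∈ M, ∀ z ∈ M, ∀ p, c p ∈ M → (∃ y ∈ B, Fc c φ (y :: z :: l) p) →
    ∃ y ∈ M, y ∈ B ∧ Fc c φ (y :: z :: l) p
  enum : ∀ x ∈ M, ∃ f ∈ M, EnumProp x f ∧ chName c f ∈ M
  enumw : ∀ f ∈ M, ∀ z ∈ M, (∃ α, ZFSet.pair z α ∈ f) → ∃ α ∈ M, ZFSet.pair z α ∈ f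
  opair : ∀ x ∈ M, ∀ y ∈ M, ZFSet.pair x y ∈ M
  sepw : ∀ x ∈ M, ∀ z ∈ M, ∀ p, c p ∈ M → (∃ s, ZFSet.pair z (c s) ∈ x ∧ p ≤ s) →
    ∃ s, c s ∈ M ∧ ZFSet.pair z (c s) ∈ x ∧ p ≤ s
  sub : ∀ x ∈ M, ∀ y ∈ M, ¬ x ⊆ y → ∃ z ∈ M, z ∈ x ∧ z ∉ y
  rank : ∀ x ∈ M, x.rank.toZFSet ∈ M
  skol : ∀ φ l, WL M l → (∃ x, Sat Set.univ φ (x :: l)) → ∃ x ∈ M, Sat Set.univ φ (x :: l)
  gupair : ∀ x ∈ M, ∀ y ∈ M, ({x, y} : U) ∈ M
  gunion : ∀ x ∈ M, ZFSet.sUnion x ∈ M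
  gpower : ∀ x ∈ M, ZFSet.powerset x ∈ M
  gsep : ∀ φ l, WL M l → ∀ x ∈ M, ZFSet.sep (fun u => Sat Set.univ φ (u :: l)) x ∈ M
  gcoll : ∀ φ l, WL M l → ∀ a ∈ M, ∃ B ∈ M, ∀ z ∈ a,
    (∃ y, Sat Set.univ φ (y :: z :: l)) → ∃ y ∈ B, Sat Set.univ φ (y :: z :: l)
  gch : ∀ x ∈ M, ∃ h ∈ M, (∀ v ∈ x, ∃ α, ZFSet.pair α v ∈ h) ∧
    (∀ w ∈ h, ∃ α v, w = ZFSet.pair α v ∧ α.IsOrdinal) ∧
    (∀ α v v', ZFSet.pair α v ∈ h → ZFSet.pair α v' ∈ h → v = v')
  gchw : ∀ h ∈ M, ∀ v ∈ M, (∃ α, ZFSet.pair α v ∈ h) → ∃ α ∈ M, ZFSet.pair α v ∈ h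

variable {c : P → U} {M : Set U} {G : Set P}

theorem val_upn (hG : IsGen c M G) {x y : U} (hx : x ∈ M) (hy : y ∈ M) :
    val c M G (upn c x y) = {val c M G x, val c M G y} := by
  ext v
  rw [mem_val, ZFSet.mem_pair]
  constructor
  · rintro ⟨w, _, ⟨p, _, hp⟩, rfl⟩
    rw [upn, ZFSet.mem_pair] at hp
    rcases hp with h | h
    · rw [(ZFSet.pair_inj.1 h).1]; exact Or.inl rfl
    · rw [(ZFSet.pair_inj.1 h).1]; exact Or.inr rfl
  · rintro (rfl | rfl)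
    · exact ⟨x, hx, ⟨⊤, hG.top, by simp [upn]⟩, rfl⟩
    · exact ⟨y, hy, ⟨⊤, hG.top, by simp [upn]⟩, rfl⟩

theorem val_opn (hM : Env c M) (hG : IsGen c M G) {x y : U} (hx : x ∈ M) (hy : y ∈ M) :
    val c M G (opn c x y) = ZFSet.pair (val c M G x) (val c M G y) := by
  rw [opn, val_upn hG (hM.upn x hx x hx) (hM.upn x hx y hy), val_upn hG hx hx, val_upn hG hx hy]
  simp [ZFSet.pair]

theorem Env.opn (hM : Env c M) {x y : U} (hx : x ∈ M) (hy : y ∈ M) : MP8322.opn c x y ∈ M :=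
  hM.upn _ (hM.upn x hx x hx) _ (hM.upn x hx y hy)

theorem val_prodTop (hG : IsGen c M G) (a v : U) :
    v ∈ val c M G (ZFSet.prod a {c ⊤}) ↔ ∃ y ∈ M, y ∈ a ∧ val c M G y = v := by
  rw [mem_val]
  constructor
  · rintro ⟨y, hy, ⟨p, _, hp⟩, rfl⟩
    rw [ZFSet.pair_mem_prod] at hp
    exact ⟨y, hy, hp.1, rfl⟩
  · rintro ⟨y, hy, hya, rfl⟩
    exact ⟨y, hy, ⟨⊤, hG.top, by simp [ZFSet.pair_mem_prod, hya]⟩, rfl⟩

theorem val_sepName (hM : Env c M) (hG : IsGen c M G) {φ : Fml} {l : List U} (hl : WL M l)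
    {x : U} (hx : x ∈ M) : val c M G (sepName c φ l x) =
      ZFSet.sep (fun u => Sat (Ext c M G) φ (u :: l.map (val c M G))) (val c M G x) := by
  ext v
  rw [ZFSet.mem_sep, mem_val]
  constructor
  · rintro ⟨z, hz, ⟨p, hp, hpz⟩, rfl⟩
    obtain ⟨s, hs, hps, hF⟩ := (mem_sepName hM.inj).1 hpz
    obtain ⟨s', hs'M, hs', hps'⟩ := hM.sepw x hx z hz p (hG.sub p hp) ⟨s, hs, hps⟩
    refine ⟨mem_val.2 ⟨z, hz, ⟨s', hG.up p hp s' hps' hs'M, hs'⟩, rfl⟩, ?_⟩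
    have := (truth hM.toEnv0 hG φ (z :: l) (hl.cons hz)).2 ⟨p, hp, hF⟩
    simpa using this
  · rintro ⟨hv, hs⟩
    obtain ⟨z, hz, ⟨s, hs', hzs⟩, rfl⟩ := mem_val.1 hv
    obtain ⟨p, hp, hF⟩ := (truth hM.toEnv0 hG φ (z :: l) (hl.cons hz)).1 (by simpa using hs)
    obtain ⟨q, hq, hqp, hqs⟩ := hG.dir p hp s hs'
    exact ⟨z, hz, ⟨q, hq, (mem_sepName hM.inj).2 ⟨s, hzs, hqs, hF.mono hqp⟩⟩, rfl⟩

theorem val_empty : val c M G ∅ = ∅ := by
  rw [ZFSet.eq_empty]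
  intro y hy
  obtain ⟨z, _, ⟨p, _, hp⟩, _⟩ := mem_val.1 hy
  exact ZFSet.notMem_empty _ hp

theorem val_check {hM : Env c M} (hG : IsGen c M G) (x v : U) :
    v ∈ val c M G (check c x) ↔ ∃ y ∈ M, y ∈ x ∧ val c M G (check c y) = v := by
  rw [mem_val]
  constructor
  · rintro ⟨w, hw, ⟨p, _, hp⟩, rfl⟩
    obtain ⟨y, hy, e⟩ := mem_check.1 hp
    obtain ⟨rfl, _⟩ := ZFSet.pair_inj.1 e
    exact ⟨y, hM.uncheck y hw, hy, rfl⟩
  · rintro ⟨y, hy, hyx, rfl⟩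
    exact ⟨check c y, hM.check y hy, ⟨⊤, hG.top, mem_check.2 ⟨y, hyx, rfl⟩⟩, rfl⟩

theorem val_check_num (hM : Env c M) (hG : IsGen c M G) (n : ℕ) :
    val c M G (check c (num n)) = num n := by
  induction n with
  | zero =>
    show val c M G (check c ∅) = (∅ : U)
    rw [ZFSet.eq_empty]
    intro v hv
    obtain ⟨y, _, hy, _⟩ := (val_check (hM := hM) hG _ _).1 hv
    exact ZFSet.notMem_empty _ hy
  | succ n ih =>
    ext v
    rw [val_check (hM := hM) hG, num, ZFSet.mem_insert_iff]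
    constructor
    · rintro ⟨y, hyM, hy, rfl⟩
      rcases ZFSet.mem_insert_iff.1 hy with rfl | hy
      · exact Or.inl ih
      · right
        rw [← ih, val_check (hM := hM) hG]
        exact ⟨y, hyM, hy, rfl⟩
    · rintro (rfl | hv)
      · exact ⟨num n, hM.num n, ZFSet.mem_insert _ _, ih⟩
      · rw [← ih, val_check (hM := hM) hG] at hv
        obtain ⟨y, hyM, hy, rfl⟩ := hv
        exact ⟨y, hyM, ZFSet.mem_insert_of_mem _ hy, rfl⟩

theorem val_check_omega (hM : Env c M) (hG : IsGen c M G) :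
    val c M G (check c ZFSet.omega) = ZFSet.omega := by
  ext v
  rw [val_check (hM := hM) hG, mem_omega_iff]
  constructor
  · rintro ⟨y, _, hy, rfl⟩
    obtain ⟨n, rfl⟩ := (mem_omega_iff y).1 hy
    exact ⟨n, val_check_num hM hG n⟩
  · rintro ⟨n, rfl⟩
    exact ⟨num n, hM.num n, num_mem_omega n, val_check_num hM hG n⟩

theorem exists_names {l : List U} (hl : WL (Ext c M G) l) :
    ∃ l', WL M l' ∧ l'.map (val c M G) = l := by
  induction l with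
  | nil => exact ⟨[], WL.nil, rfl⟩
  | cons x l ih =>
    obtain ⟨l', h1, h2⟩ := ih (fun y hy => hl y (List.mem_cons_of_mem _ hy))
    obtain ⟨y, hy, rfl⟩ := hl x List.mem_cons_self
    exact ⟨y :: l', h1.cons hy, by simp [h2]⟩

theorem Ext.trans : ∀ x ∈ Ext c M G, ∀ y ∈ x, y ∈ Ext c M G := by
  rintro _ ⟨x, _, rfl⟩ y hy
  obtain ⟨z, hz, _, rfl⟩ := mem_val.1 hy
  exact ⟨z, hz, rfl⟩

theorem Ext.sep (hM : Env c M) (hG : IsGen c M G) (φ : Fml) (l : List U)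
    (hl : WL (Ext c M G) l) (a : U) (ha : a ∈ Ext c M G) :
    ZFSet.sep (fun u => Sat (Ext c M G) φ (u :: l)) a ∈ Ext c M G := by
  obtain ⟨l', hl', rfl⟩ := exists_names hl
  obtain ⟨x, hx, rfl⟩ := ha
  exact ⟨_, hM.sepn φ l' hl' x hx, val_sepName hM hG hl' hx⟩

theorem Ext.nice (hM : Env c M) (hG : IsGen c M G) : Nice (Ext c M G) where
  trans := Ext.trans
  empty := ⟨∅, hM.empty, val_empty⟩
  upair := by
    rintro _ ⟨x, hx, rfl⟩ _ ⟨y, hy, rfl⟩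
    exact ⟨_, hM.upn x hx y hy, val_upn hG hx hy⟩
  sUnion := by
    rintro _ ⟨x, hx, rfl⟩
    -- cover, then separate
    have h1 : val c M G (ZFSet.prod (ZFSet.sUnion (dd (dd x))) {c ⊤}) ∈ Ext c M G := ⟨_, hM.unionCover x hx, rfl⟩
    have h2 := Ext.sep hM hG (.ex (.and (.mem 0 2) (.mem 1 0))) [val c M G x]
      (WL.nil.cons ⟨x, hx, rfl⟩) _ h1
    have : ZFSet.sUnion (val c M G x) = ZFSet.sep (fun u => Sat (Ext c M G)
        (.ex (.and (.mem 0 2) (.mem 1 0))) (u :: [val c M G x]))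
        (val c M G (ZFSet.prod (ZFSet.sUnion (dd (dd x))) {c ⊤})) := by
      ext v
      rw [ZFSet.mem_sep, ZFSet.mem_sUnion, val_prodTop hG]
      simp only [Sat, nth_cons_zero, nth_cons_succ]
      constructor
      · rintro ⟨z, hz, hvz⟩
        have hz' := hz
        obtain ⟨y, hy, ⟨p, _, hp⟩, rfl⟩ := mem_val.1 hz
        obtain ⟨w, hw, ⟨q, _, hq⟩, rfl⟩ := mem_val.1 hvz
        refine ⟨⟨w, hw, ?_, rfl⟩, _, ⟨y, hy, rfl⟩, hz', hvz⟩
        have h3 := mem_dd hp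
        have h4 : w ∈ dd y := mem_dd hq
        -- w ∈ dd y, y ∈ dd x
        obtain ⟨a, ha, hwa⟩ := ZFSet.mem_sUnion.1 h4
        obtain ⟨b, hb, hab⟩ := ZFSet.mem_sUnion.1 ha
        exact ZFSet.mem_sUnion.2 ⟨a, ZFSet.mem_sUnion.2 ⟨b, ZFSet.mem_sUnion.2 ⟨y, h3, hb⟩, hab⟩,
          hwa⟩
      · rintro ⟨_, z, _, hz, hvz⟩
        exact ⟨z, hz, hvz⟩
    rw [this]
    exact h2
  power := by
    rintro _ ⟨x, hx, rfl⟩
    have h1 : val c M G (ZFSet.prod (ZFSet.powerset (ZFSet.prod (dd x) (ZFSet.range c))) {c ⊤}) ∈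
      Ext c M G := ⟨_, hM.powCover x hx, rfl⟩
    have h2 := Ext.sep hM hG (.neg (.ex (.and (.mem 0 1) (.neg (.mem 0 2))))) [val c M G x]
      (WL.nil.cons ⟨x, hx, rfl⟩) _ h1
    have : ZFSet.sep (fun y => y ∈ Ext c M G) (ZFSet.powerset (val c M G x)) =
        ZFSet.sep (fun u => Sat (Ext c M G)
          (.neg (.ex (.and (.mem 0 1) (.neg (.mem 0 2))))) (u :: [val c M G x]))
        (val c M G (ZFSet.prod (ZFSet.powerset (ZFSet.prod (dd x) (ZFSet.range c))) {c ⊤})) := by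
      ext v
      rw [ZFSet.mem_sep, ZFSet.mem_sep, val_prodTop hG, ZFSet.mem_powerset]
      simp only [Sat, nth_cons_zero, nth_cons_succ]
      constructor
      · rintro ⟨hvx, μ, hμ, rfl⟩
        have hl : WL M [μ] := WL.nil.cons hμ
        have hval := val_sepName hM hG (φ := .mem 0 1) hl hx
        have heq : val c M G (sepName c (.mem 0 1) [μ] x) = val c M G μ := by
          rw [hval]
          ext u
          rw [ZFSet.mem_sep]
          simp only [Sat, List.map_cons, nth_cons_zero, nth_cons_succ]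
          exact ⟨fun h => h.2, fun h => ⟨hvx h, h⟩⟩
        refine ⟨⟨_, hM.sepn _ _ hl x hx, ?_, heq⟩, ?_⟩
        · rw [ZFSet.mem_powerset]
          exact ZFSet.sep_subset
        · rintro ⟨u, _, hu, hu'⟩
          exact hu' (hvx hu)
      · rintro ⟨⟨μ, hμ, _, rfl⟩, hno⟩
        refine ⟨?_, μ, hμ, rfl⟩
        intro u hu
        by_contra hcon
        exact hno ⟨u, Ext.trans _ ⟨μ, hμ, rfl⟩ _ hu, hu, hcon⟩
    rw [this]
    exact h2
  omega := ⟨_, hM.check _ hM.omega, val_check_omega hM hG⟩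
  sep := Ext.sep hM hG

theorem Ext.coll (hM : Env c M) (hG : IsGen c M G) : Coll (Ext c M G) := by
  intro φ l hl a ha
  obtain ⟨l', hl', rfl⟩ := exists_names hl
  obtain ⟨x, hx, rfl⟩ := ha
  obtain ⟨B, hB, hB', hBc⟩ := hM.coll φ l' hl' x hx
  refine ⟨_, ⟨_, hB', rfl⟩, ?_⟩
  rintro u hu ⟨v, ⟨y, hy, rfl⟩, hs⟩
  obtain ⟨z, hz, ⟨s, _, hzs⟩, rfl⟩ := mem_val.1 hu
  obtain ⟨p, hp, hF⟩ := (truth hM.toEnv0 hG φ (y :: z :: l') ((hl'.cons hz).cons hy)).1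
    (by simpa using hs)
  obtain ⟨y', hy', hy'B, hF'⟩ := hM.collw φ l' hl' B hB z hz p (hG.sub p hp)
    (hBc z (mem_dd hzs) p ⟨y, hF⟩)
  refine ⟨val c M G y', (val_prodTop hG _ _).2 ⟨y', hy', hy'B, rfl⟩, ?_⟩
  have := (truth hM.toEnv0 hG φ (y' :: z :: l') ((hl'.cons hz).cons hy')).2 ⟨p, hp, hF'⟩
  simpa using this

theorem val_check_injOn (hM : Env c M) (hG : IsGen c M G) :
    ∀ x ∈ M, ∀ y ∈ M, val c M G (check c x) = val c M G (check c y) → x = y := by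
  have main : ∀ (o : Ordinal.{0}) (x : U), x.rank = o → x ∈ M → ∀ y ∈ M,
      val c M G (check c x) = val c M G (check c y) → x = y := by
    intro o
    induction o using WellFoundedLT.induction with
    | _ o ih =>
      intro x hx hxM y hyM hval
      by_contra hne
      have hns : ¬ x ⊆ y ∨ ¬ y ⊆ x := by
        by_contra hcon
        push Not at hcon
        apply hne
        ext z
        exact ⟨fun h => hcon.1 h, fun h => hcon.2 h⟩
      rcases hns with hns | hns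
      · obtain ⟨z, hz, hzx, hzy⟩ := hM.sub x hxM y hyM hns
        have h1 : val c M G (check c z) ∈ val c M G (check c x) :=
          (val_check (hM := hM) hG _ _).2 ⟨z, hz, hzx, rfl⟩
        rw [hval, val_check (hM := hM) hG] at h1
        obtain ⟨z', hz', hz'y, e⟩ := h1
        have := ih z.rank (hx ▸ ZFSet.rank_lt_of_mem hzx) z rfl hz z' hz' e.symm
        exact hzy (this ▸ hz'y)
      · obtain ⟨z, hz, hzy, hzx⟩ := hM.sub y hyM x hxM hns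
        have h1 : val c M G (check c z) ∈ val c M G (check c y) :=
          (val_check (hM := hM) hG _ _).2 ⟨z, hz, hzy, rfl⟩
        rw [← hval, val_check (hM := hM) hG] at h1
        obtain ⟨z', hz', hz'x, e⟩ := h1
        have := ih z'.rank (hx ▸ ZFSet.rank_lt_of_mem hz'x) z' rfl hz' z hz e
        exact hzx (this ▸ hz'x)
  exact fun x hx => main _ x rfl hx

theorem val_check_trans (hM : Env c M) (hG : IsGen c M G) {x : U} (hx : x.IsTransitive) :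
    (val c M G (check c x)).IsTransitive := by
  intro u hu v hv
  obtain ⟨y, hy, hyx, rfl⟩ := (val_check (hM := hM) hG _ _).1 hu
  obtain ⟨z, hz, hzy, rfl⟩ := (val_check (hM := hM) hG _ _).1 hv
  exact (val_check (hM := hM) hG _ _).2 ⟨z, hz, hx y hyx hzy, rfl⟩

theorem val_check_ord (hM : Env c M) (hG : IsGen c M G) {x : U} (hx : x.IsOrdinal) :
    (val c M G (check c x)).IsOrdinal := by
  rw [ZFSet.isOrdinal_iff_forall_mem_isTransitive]
  refine ⟨val_check_trans hM hG hx.isTransitive, fun u hu => ?_⟩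
  obtain ⟨y, _, hyx, rfl⟩ := (val_check (hM := hM) hG _ _).1 hu
  exact val_check_trans hM hG (hx.mem hyx).isTransitive

theorem Ext.ch (hM : Env c M) (hG : IsGen c M G) : Ch (Ext c M G) := by
  rintro _ ⟨x, hx, rfl⟩
  obtain ⟨f, hf, ⟨hf1, hf2, hf3⟩, hch⟩ := hM.enum x hx
  have key : ∀ α' v', ZFSet.pair α' v' ∈ val c M G (chName c f) → ∃ z ∈ M, ∃ α ∈ M,
      ZFSet.pair z α ∈ f ∧ α' = val c M G (check c α) ∧ v' = val c M G z := by
    intro α' v' h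
    obtain ⟨w, hw, ⟨p, _, hp⟩, hval⟩ := mem_val.1 h
    obtain ⟨z, α, hzα, e⟩ := mem_chName.1 hp
    obtain ⟨rfl, _⟩ := ZFSet.pair_inj.1 e
    obtain ⟨h1, h2⟩ := hM.opnInv _ _ hw
    rw [val_opn hM hG h1 h2] at hval
    obtain ⟨e1, e2⟩ := ZFSet.pair_inj.1 hval
    exact ⟨z, h2, α, hM.uncheck _ h1, hzα, e1.symm, e2.symm⟩
  refine ⟨_, ⟨_, hch, rfl⟩, ?_, ?_, ?_⟩
  · intro v hv
    obtain ⟨z, hz, ⟨s, _, hzs⟩, rfl⟩ := mem_val.1 hv
    obtain ⟨α, hα, hzα⟩ := hM.enumw f hf z hz (hf1 z (mem_dd hzs))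
    refine ⟨val c M G (check c α), ?_⟩
    rw [← val_opn hM hG (hM.check α hα) hz]
    exact mem_val.2 ⟨_, hM.opn (hM.check α hα) hz, ⟨⊤, hG.top, mem_chName.2 ⟨z, α, hzα, rfl⟩⟩, rfl⟩
  · intro α' v' h
    obtain ⟨z, _, α, _, hzα, rfl, _⟩ := key α' v' h
    exact val_check_ord hM hG (hf2 z α hzα)
  · intro α' v v' h h'
    obtain ⟨z, _, α, hα, hzα, e1, rfl⟩ := key α' v h
    obtain ⟨z', _, β, hβ, hzβ, e2, rfl⟩ := key α' v' h'
    have := val_check_injOn hM hG α hα β hβ (e1.symm.trans e2)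
    subst this
    rw [hf3 z z' α hzα hzβ]

theorem Ext.zfc (hM : Env c M) (hG : IsGen c M G) : IsTransModelZFC (Ext c M G) :=
  (Ext.nice hM hG).toZFC (Ext.coll hM hG) (Ext.ch hM hG)

/-! ### the ground model -/

/-- the image of `x` in the (collapsed) ground model -/
noncomputable def pj (c : P → U) (M : Set U) (G : Set P) (x : U) : U := val c M G (check c x)

/-- the (collapsed) ground model -/
def Gr (c : P → U) (M : Set U) (G : Set P) : Set U := {v | ∃ x ∈ M, pj c M G x = v}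

theorem mem_pj (hM : Env c M) (hG : IsGen c M G) {x v : U} :
    v ∈ pj c M G x ↔ ∃ y ∈ M, y ∈ x ∧ pj c M G y = v := val_check (hM := hM) hG x v

theorem pj_inj (hM : Env c M) (hG : IsGen c M G) {x y : U} (hx : x ∈ M) (hy : y ∈ M) :
    pj c M G x = pj c M G y ↔ x = y :=
  ⟨val_check_injOn hM hG x hx y hy, fun h => by rw [h]⟩

theorem pj_mem (hM : Env c M) (hG : IsGen c M G) {x y : U} (hx : x ∈ M) (hy : y ∈ M) :
    pj c M G x ∈ pj c M G y ↔ x ∈ y := by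
  rw [mem_pj hM hG]
  constructor
  · rintro ⟨z, hz, hzy, e⟩
    rw [← (pj_inj hM hG hz hx).1 e]
    exact hzy
  · intro h
    exact ⟨x, hx, h, rfl⟩

theorem pj_subset (hM : Env c M) (hG : IsGen c M G) {x y : U} (hx : x ∈ M) (hy : y ∈ M) :
    pj c M G x ⊆ pj c M G y ↔ x ⊆ y := by
  constructor
  · intro h
    by_contra hcon
    obtain ⟨z, hz, hzx, hzy⟩ := hM.sub x hx y hy hcon
    exact hzy ((pj_mem hM hG hz hy).1 (h ((pj_mem hM hG hz hx).2 hzx)))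
  · intro h v hv
    obtain ⟨z, hz, hzx, rfl⟩ := (mem_pj hM hG).1 hv
    exact (pj_mem hM hG hz hy).2 (h hzx)

theorem Gr.trans (hM : Env c M) (hG : IsGen c M G) :
    ∀ x ∈ Gr c M G, ∀ y ∈ x, y ∈ Gr c M G := by
  rintro _ ⟨x, _, rfl⟩ y hy
  obtain ⟨z, hz, _, rfl⟩ := (mem_pj hM hG).1 hy
  exact ⟨z, hz, rfl⟩

theorem pj_empty (hM : Env c M) (hG : IsGen c M G) : pj c M G ∅ = ∅ := by
  rw [ZFSet.eq_empty]
  intro v hv
  obtain ⟨z, _, hz, _⟩ := (mem_pj hM hG).1 hv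
  exact ZFSet.notMem_empty _ hz

theorem nth_map_pj (hM : Env c M) (hG : IsGen c M G) (l : List U) (i : ℕ) :
    nth (l.map (pj c M G)) i = pj c M G (nth l i) := by
  unfold nth
  by_cases h : i < l.length
  · rw [List.getD_eq_getElem _ _ h, List.getD_eq_getElem _ _ (by simpa using h)]
    simp
  · rw [List.getD_eq_default _ _ (not_lt.1 h), List.getD_eq_default _ _ (by simpa using h)]
    exact (pj_empty hM hG).symm

theorem elem (hM : Env c M) (hG : IsGen c M G) (φ : Fml) : ∀ (l : List U), WL M l →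
    (Sat (Gr c M G) φ (l.map (pj c M G)) ↔ Sat Set.univ φ l) := by
  induction φ with
  | mem i j =>
    intro l hl
    simp only [Sat, nth_map_pj hM hG]
    exact pj_mem hM hG (hl.get hM.empty i) (hl.get hM.empty j)
  | eq i j =>
    intro l hl
    simp only [Sat, nth_map_pj hM hG]
    exact pj_inj hM hG (hl.get hM.empty i) (hl.get hM.empty j)
  | neg φ ih =>
    intro l hl
    simp only [Sat, ih l hl]
  | and φ ψ ih1 ih2 =>
    intro l hl
    simp only [Sat, ih1 l hl, ih2 l hl]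
  | ex φ ih =>
    intro l hl
    simp only [Sat]
    constructor
    · rintro ⟨_, ⟨x, hx, rfl⟩, hs⟩
      exact ⟨x, trivial, (ih (x :: l) (hl.cons hx)).1 (by simpa using hs)⟩
    · rintro ⟨x, _, hs⟩
      obtain ⟨y, hy, hs'⟩ := hM.skol φ l hl ⟨x, hs⟩
      refine ⟨_, ⟨y, hy, rfl⟩, ?_⟩
      simpa using (ih (y :: l) (hl.cons hy)).2 hs'

theorem exists_names_pj {l : List U} (hl : WL (Gr c M G) l) :
    ∃ l', WL M l' ∧ l'.map (pj c M G) = l := by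
  induction l with
  | nil => exact ⟨[], WL.nil, rfl⟩
  | cons x l ih =>
    obtain ⟨l', h1, h2⟩ := ih (fun y hy => hl y (List.mem_cons_of_mem _ hy))
    obtain ⟨y, hy, rfl⟩ := hl x List.mem_cons_self
    exact ⟨y :: l', h1.cons hy, by simp [h2]⟩

theorem pj_upair (hM : Env c M) (hG : IsGen c M G) {x y : U} (hx : x ∈ M) (hy : y ∈ M) :
    pj c M G {x, y} = {pj c M G x, pj c M G y} := by
  ext v
  rw [mem_pj hM hG, ZFSet.mem_pair]
  constructor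
  · rintro ⟨z, _, hz, rfl⟩
    rcases ZFSet.mem_pair.1 hz with rfl | rfl
    · exact Or.inl rfl
    · exact Or.inr rfl
  · rintro (rfl | rfl)
    · exact ⟨x, hx, by simp, rfl⟩
    · exact ⟨y, hy, by simp, rfl⟩

theorem pj_pair (hM : Env c M) (hG : IsGen c M G) {x y : U} (hx : x ∈ M) (hy : y ∈ M) :
    pj c M G (ZFSet.pair x y) = ZFSet.pair (pj c M G x) (pj c M G y) := by
  have h1 : ({x} : U) ∈ M := by simpa using hM.gupair x hx x hx
  have h2 : pj c M G {x} = {pj c M G x} := by simpa using pj_upair hM hG hx hx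
  show pj c M G {{x}, {x, y}} = _
  rw [pj_upair hM hG h1 (hM.gupair x hx y hy), h2, pj_upair hM hG hx hy]
  rfl

theorem Gr.nice (hM : Env c M) (hG : IsGen c M G) : Nice (Gr c M G) where
  trans := Gr.trans hM hG
  empty := ⟨∅, hM.empty, pj_empty hM hG⟩
  upair := by
    rintro _ ⟨x, hx, rfl⟩ _ ⟨y, hy, rfl⟩
    exact ⟨_, hM.gupair x hx y hy, pj_upair hM hG hx hy⟩
  sUnion := by
    rintro _ ⟨x, hx, rfl⟩
    refine ⟨_, hM.gunion x hx, ?_⟩
    ext v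
    rw [mem_pj hM hG, ZFSet.mem_sUnion]
    constructor
    · rintro ⟨z, hz, hzx, rfl⟩
      obtain ⟨y, hyx, hzy⟩ := ZFSet.mem_sUnion.1 hzx
      obtain ⟨y', hy', h1, h2⟩ := hM.skol (.and (.mem 0 1) (.mem 2 0)) [x, z]
        ((WL.nil.cons hz).cons hx) ⟨y, hyx, hzy⟩
      exact ⟨pj c M G y', (pj_mem hM hG hy' hx).2 h1, (pj_mem hM hG hz hy').2 h2⟩
    · rintro ⟨u, hu, hv⟩
      obtain ⟨y, hy, hyx, rfl⟩ := (mem_pj hM hG).1 hu
      obtain ⟨z, hz, hzy, rfl⟩ := (mem_pj hM hG).1 hv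
      exact ⟨z, hz, ZFSet.mem_sUnion.2 ⟨y, hyx, hzy⟩, rfl⟩
  power := by
    rintro _ ⟨x, hx, rfl⟩
    refine ⟨_, hM.gpower x hx, ?_⟩
    ext v
    rw [mem_pj hM hG, ZFSet.mem_sep, ZFSet.mem_powerset]
    constructor
    · rintro ⟨y, hy, hyx, rfl⟩
      exact ⟨(pj_subset hM hG hy hx).2 (ZFSet.mem_powerset.1 hyx), y, hy, rfl⟩
    · rintro ⟨h, y, hy, rfl⟩
      exact ⟨y, hy, ZFSet.mem_powerset.2 ((pj_subset hM hG hy hx).1 h), rfl⟩
  omega := ⟨_, hM.omega, val_check_omega hM hG⟩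
  sep := by
    intro φ l hl a ha
    obtain ⟨l', hl', rfl⟩ := exists_names_pj hl
    obtain ⟨x, hx, rfl⟩ := ha
    refine ⟨_, hM.gsep φ l' hl' x hx, ?_⟩
    ext v
    rw [mem_pj hM hG, ZFSet.mem_sep]
    constructor
    · rintro ⟨z, hz, hzx, rfl⟩
      rw [ZFSet.mem_sep] at hzx
      refine ⟨(pj_mem hM hG hz hx).2 hzx.1, ?_⟩
      have h5 := (elem hM hG φ (z :: l') (hl'.cons hz)).2 hzx.2
      simpa using h5
    · rintro ⟨hv, hs⟩
      obtain ⟨z, hz, hzx, rfl⟩ := (mem_pj hM hG).1 hv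
      refine ⟨z, hz, ?_, rfl⟩
      rw [ZFSet.mem_sep]
      exact ⟨hzx, (elem hM hG φ (z :: l') (hl'.cons hz)).1 (by simpa using hs)⟩

theorem Gr.coll (hM : Env c M) (hG : IsGen c M G) : Coll (Gr c M G) := by
  intro φ l hl a ha
  obtain ⟨l', hl', rfl⟩ := exists_names_pj hl
  obtain ⟨x, hx, rfl⟩ := ha
  obtain ⟨B, hB, hBc⟩ := hM.gcoll φ l' hl' x hx
  refine ⟨_, ⟨_, hB, rfl⟩, ?_⟩
  rintro u hu ⟨v, ⟨y, hy, rfl⟩, hs⟩
  obtain ⟨z, hz, hzx, rfl⟩ := (mem_pj hM hG).1 hu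
  have hs' := (elem hM hG φ (y :: z :: l') ((hl'.cons hz).cons hy)).1 (by simpa using hs)
  obtain ⟨y', hy'B, hs''⟩ := hBc z hzx ⟨y, hs'⟩
  -- find such a `y'` in `M`
  obtain ⟨y'', hy'', h1, h2⟩ := hM.skol (.and (.mem 0 1) (φ.ren
      (fun i => match i with | 0 => 0 | i + 1 => i + 2))) (B :: z :: l') ((hl'.cons hz).cons hB)
      ⟨y', by simpa [Sat] using hy'B, by
        rw [sat_ren _ φ _ _ (y' :: z :: l')]
        · exact hs''
        · intro i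
          cases i with
          | zero => rfl
          | succ i => simp⟩
  have h1' : y'' ∈ B := by simpa [Sat] using h1
  have h2' : Sat Set.univ φ (y'' :: z :: l') := by
    rw [sat_ren _ φ _ _ (y'' :: z :: l')] at h2
    · exact h2
    · intro i
      cases i with
      | zero => rfl
      | succ i => simp
  refine ⟨pj c M G y'', (pj_mem hM hG hy'' hB).2 h1', ?_⟩
  simpa using (elem hM hG φ (y'' :: z :: l') ((hl'.cons hz).cons hy'')).2 h2'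

theorem Gr.ch (hM : Env c M) (hG : IsGen c M G) : Ch (Gr c M G) := by
  rintro _ ⟨x, hx, rfl⟩
  obtain ⟨h, hh, h1, h2, h3⟩ := hM.gch x hx
  have key : ∀ α' v', ZFSet.pair α' v' ∈ pj c M G h → ∃ α ∈ M, ∃ v ∈ M,
      ZFSet.pair α v ∈ h ∧ α.IsOrdinal ∧ α' = pj c M G α ∧ v' = pj c M G v := by
    intro α' v' hp
    obtain ⟨w, hw, hwh, e⟩ := (mem_pj hM hG).1 hp
    obtain ⟨α, v, rfl, hα⟩ := h2 w hwh
    have hαM := hM.fst _ _ hw
    have hvM := hM.snd _ _ hw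
    rw [pj_pair hM hG hαM hvM] at e
    obtain ⟨e1, e2⟩ := ZFSet.pair_inj.1 e
    exact ⟨α, hαM, v, hvM, hwh, hα, e1.symm, e2.symm⟩
  refine ⟨_, ⟨_, hh, rfl⟩, ?_, ?_, ?_⟩
  · intro v hv
    obtain ⟨z, hz, hzx, rfl⟩ := (mem_pj hM hG).1 hv
    obtain ⟨α, hα, hαz⟩ := hM.gchw h hh z hz (h1 z hzx)
    refine ⟨pj c M G α, ?_⟩
    rw [← pj_pair hM hG hα hz]
    exact (pj_mem hM hG (hM.opair α hα z hz) hh).2 hαz
  · intro α' v' hp
    obtain ⟨α, _, v, _, _, hα, rfl, _⟩ := key α' v' hp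
    exact val_check_ord hM hG hα
  · intro α' v v' hp hp'
    obtain ⟨α, hα, v0, _, hαv, _, e1, rfl⟩ := key α' v hp
    obtain ⟨β, hβ, v1, _, hβv, _, e2, rfl⟩ := key α' v' hp'
    have := (pj_inj hM hG hα hβ).1 (e1.symm.trans e2)
    subst this
    rw [h3 _ _ _ hαv hβv]

theorem Gr.zfc (hM : Env c M) (hG : IsGen c M G) : IsTransModelZFC (Gr c M G) :=
  (Gr.nice hM hG).toZFC (Gr.coll hM hG) (Gr.ch hM hG)

theorem Gr_subset_Ext (hM : Env c M) : Gr c M G ⊆ Ext c M G := by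
  rintro _ ⟨x, hx, rfl⟩
  exact ⟨_, hM.check x hx, rfl⟩

theorem rank_val_le (hM : Env c M) (hG : IsGen c M G) : ∀ (o : Ordinal.{0}) (x : U),
    x.rank = o → x ∈ M → (val c M G x).rank ≤ (pj c M G x.rank.toZFSet).rank := by
  intro o
  induction o using WellFoundedLT.induction with
  | _ o ih =>
    intro x hx hxM
    rw [ZFSet.rank_le_iff]
    intro y' hy'
    obtain ⟨y, hy, ⟨p, _, hp⟩, rfl⟩ := mem_val.1 hy'
    have hlt := rank_lt_of_pair hp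
    have h1 := ih _ (hx ▸ hlt) y rfl hy
    refine h1.trans_lt (ZFSet.rank_lt_of_mem ?_)
    rw [pj_mem hM hG (hM.rank y hy) (hM.rank x hxM)]
    exact Ordinal.toZFSet_mem_toZFSet_iff.2 hlt

theorem same_ordinals (hM : Env c M) (hG : IsGen c M G) (α : U) (hα : α.IsOrdinal) :
    α ∈ Gr c M G ↔ α ∈ Ext c M G := by
  refine ⟨fun h => Gr_subset_Ext hM h, ?_⟩
  rintro ⟨x, hx, rfl⟩
  have h1 := rank_val_le hM hG _ x rfl hx
  have hβ : (pj c M G x.rank.toZFSet).IsOrdinal :=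
    val_check_ord hM hG (ZFSet.isOrdinal_toZFSet _)
  have h2 := (ZFSet.IsOrdinal.rank_le_iff_subset hα hβ).1 h1
  have h3 : pj c M G x.rank.toZFSet ∈ Gr c M G := ⟨_, hM.rank x hx, rfl⟩
  rcases (hα.subset_iff_eq_or_mem hβ).1 h2 with h4 | h4
  · rw [h4]; exact h3
  · exact Gr.trans hM hG _ h3 _ h4

end Pool.Agent.MP8322
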