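import Pool.Agent.MP_8322c3_lc.Calc

set_option autoImplicit false

namespace Pool.Agent.MP8322

/-! ### countable sets closed under countably many (choice functions of) relations -/

theorem countable_WL {S : Set U} (hS : S.Countable) : {l : List U | WL S l}.Countable := by
  haveI : Countable S := hS.to_subtype
  refine (Set.countable_range (fun l : List S => l.map Subtype.val)).mono ?_
  intro l hl
  refine ⟨l.pmap (fun x hx => ⟨x, hx⟩) hl, ?_⟩
  simp [List.map_pmap]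

theorem exists_closed {ι : Type} [Countable ι] (R : ι → List U → U → Prop) :
    ∃ M : Set U, M.Countable ∧ ∀ i l, WL M l → (∃ y, R i l y) → ∃ y ∈ M, R i l y := by
  classical
  let F : ι → List U → U := fun i l => if h : ∃ y, R i l y then h.choose else ∅
  have hF : ∀ i l, (∃ y, R i l y) → R i l (F i l) := by
    intro i l h
    simp only [F, dif_pos h]
    exact h.choose_spec
  let S : ℕ → Set U := fun n => Nat.rec ∅ (fun _ T => T ∪ ⋃ i, F i '' {l | WL T l}) n
  have hS : ∀ n, S (n + 1) = S n ∪ ⋃ i, F i '' {l | WL (S n) l} := fun n => rfl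
  have hcount : ∀ n, (S n).Countable := by
    intro n
    induction n with
    | zero => exact Set.countable_empty
    | succ n ih =>
      rw [hS]
      exact ih.union (Set.countable_iUnion fun i => (countable_WL ih).image _)
  have hmono : Monotone S := monotone_nat_of_le_succ fun n => by
    rw [hS]
    exact Set.subset_union_left
  refine ⟨⋃ n, S n, Set.countable_iUnion hcount, ?_⟩
  intro i l hl hy
  have : ∃ n, WL (S n) l := by
    induction l with
    | nil => exact ⟨0, WL.nil⟩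
    | cons x l ih =>
      -- the tail need not satisfy the existence hypothesis, so argue directly
      have aux : ∀ l : List U, WL (⋃ n, S n) l → ∃ n, WL (S n) l := by
        intro l
        induction l with
        | nil => intro _; exact ⟨0, WL.nil⟩
        | cons x l ih =>
          intro hl
          obtain ⟨n, hn⟩ := ih (fun y hy => hl y (List.mem_cons_of_mem _ hy))
          obtain ⟨m, hm⟩ := Set.mem_iUnion.1 (hl x List.mem_cons_self)
          refine ⟨max m n, WL.cons (hmono (le_max_left m n) hm) ?_⟩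
          exact fun y hy => hmono (le_max_right m n) (hn y hy)
      exact aux _ hl
  obtain ⟨n, hn⟩ := this
  refine ⟨F i l, Set.mem_iUnion.2 ⟨n + 1, ?_⟩, hF i l hy⟩
  rw [hS]
  exact Or.inr (Set.mem_iUnion.2 ⟨i, ⟨l, hn, rfl⟩⟩)

/-! ### the forcing relation -/

variable {P : Type} [Preorder P]

theorem rank_lt_of_pair {x z a : U} (h : ZFSet.pair z a ∈ x) : z.rank < x.rank := by
  have h1 : z ∈ ({z} : U) := by simp
  have h2 : ({z} : U) ∈ ZFSet.pair z a := by simp [ZFSet.pair]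
  exact ((ZFSet.rank_lt_of_mem h1).trans (ZFSet.rank_lt_of_mem h2)).trans (ZFSet.rank_lt_of_mem h)

/-- `p` forces `x = y` -/
def FEq (c : P → U) (x y : U) (p : P) : Prop :=
  (∀ z s, (h : ZFSet.pair z (c s) ∈ x) → ∀ q ≤ p, q ≤ s →
    ∃ r ≤ q, ∃ w t, ZFSet.pair w (c t) ∈ y ∧ r ≤ t ∧ FEq c z w r) ∧
  (∀ w t, ZFSet.pair w (c t) ∈ y → ∀ q ≤ p, q ≤ t →
    ∃ r ≤ q, ∃ z s, ∃ _ : ZFSet.pair z (c s) ∈ x, r ≤ s ∧ FEq c z w r)
termination_by x.rank
decreasing_by all_goals exact rank_lt_of_pair (by assumption)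

/-- strong form of forcing `z ∈ y` -/
def SM (c : P → U) (z y : U) (p : P) : Prop :=
  ∃ w t, ZFSet.pair w (c t) ∈ y ∧ p ≤ t ∧ FEq c z w p

/-- the mirror image: some element of `x` is forced to be equal to `w` -/
def SM' (c : P → U) (w x : U) (p : P) : Prop :=
  ∃ z s, ZFSet.pair z (c s) ∈ x ∧ p ≤ s ∧ FEq c z w p

/-- `p` forces `z ∈ y` -/
def FMem (c : P → U) (z y : U) (p : P) : Prop := ∀ q ≤ p, ∃ r ≤ q, SM c z y r

theorem feq_iff (c : P → U) (x y : U) (p : P) : FEq c x y p ↔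
    (∀ z s, ZFSet.pair z (c s) ∈ x → ∀ q ≤ p, q ≤ s → ∃ r ≤ q, SM c z y r) ∧
    (∀ w t, ZFSet.pair w (c t) ∈ y → ∀ q ≤ p, q ≤ t → ∃ r ≤ q, SM' c w x r) := by
  rw [FEq]
  refine and_congr Iff.rfl ?_
  unfold SM'
  simp only [exists_prop]

theorem FEq.mono {c : P → U} {x y : U} {p q : P} (h : FEq c x y p) (hq : q ≤ p) :
    FEq c x y q := by
  rw [feq_iff] at h ⊢
  exact ⟨fun z s hz r hr => h.1 z s hz r (hr.trans hq),
    fun z s hz r hr => h.2 z s hz r (hr.trans hq)⟩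

theorem FMem.mono {c : P → U} {x y : U} {p q : P} (h : FMem c x y p) (hq : q ≤ p) :
    FMem c x y q := fun r hr => h r (hr.trans hq)

theorem FEq.refl (c : P → U) (x : U) : ∀ p, FEq c x x p := by
  induction x using ZFSet.inductionOn with
  | _ x ih =>
    -- we use induction on the rank instead
    have main : ∀ (o : Ordinal.{0}) (x : U), x.rank = o → ∀ p, FEq c x x p := by
      intro o
      induction o using WellFoundedLT.induction with
      | _ o ih =>
        intro x hx p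
        rw [feq_iff]
        constructor
        · intro z s hz q _ hs
          exact ⟨q, le_refl _, z, s, hz, hs, ih _ (hx ▸ rank_lt_of_pair hz) z rfl q⟩
        · intro z s hz q _ hs
          exact ⟨q, le_refl _, z, s, hz, hs, ih _ (hx ▸ rank_lt_of_pair hz) z rfl q⟩
    exact main _ x rfl

/-- the forcing relation -/
def Fc (c : P → U) : Fml → List U → P → Prop
  | .mem i j, l, p => FMem c (nth l i) (nth l j) p
  | .eq i j, l, p => FEq c (nth l i) (nth l j) p
  | .neg φ, l, p => ∀ q ≤ p, ¬ Fc c φ l q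
  | .and φ ψ, l, p => Fc c φ l p ∧ Fc c ψ l p
  | .ex φ, l, p => ∀ q ≤ p, ∃ r ≤ q, ∃ x, Fc c φ (x :: l) r

theorem Fc.mono {c : P → U} {φ : Fml} : ∀ {l : List U} {p q : P}, Fc c φ l p → q ≤ p →
    Fc c φ l q := by
  induction φ with
  | mem i j => exact fun h hq => FMem.mono h hq
  | eq i j => exact fun h hq => FEq.mono h hq
  | neg φ _ => exact fun h hq r hr => h r (hr.trans hq)
  | and φ ψ ih1 ih2 => exact fun h hq => ⟨ih1 h.1 hq, ih2 h.2 hq⟩
  | ex φ _ => exact fun h hq r hr => h r (hr.trans hq)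

/-! ### generic filters -/

variable [OrderTop P]

structure IsGen (c : P → U) (M : Set U) (G : Set P) : Prop where
  sub : ∀ p ∈ G, c p ∈ M
  top : ⊤ ∈ G
  up : ∀ p ∈ G, ∀ q, p ≤ q → c q ∈ M → q ∈ G
  dir : ∀ p ∈ G, ∀ q ∈ G, ∃ r ∈ G, r ≤ p ∧ r ≤ q
  gen : ∀ D ∈ M, (∀ p : P, ∃ q ≤ p, c q ∈ D) → ∃ p ∈ G, c p ∈ D

/-- the dense set of conditions deciding `∃ w, T l w` -/
noncomputable def decSet (c : P → U) (T : List U → U → P → Prop) (l : List U) : U :=
  ZFSet.range (fun p : {p : P // (∃ w, T l w p) ∨ ∀ q ≤ p, ∀ w, ¬ T l w q} => c p.1)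

structure Dec (c : P → U) (M : Set U) (T : List U → U → P → Prop) : Prop where
  mem : ∀ l, WL M l → decSet c T l ∈ M
  wit : ∀ l, WL M l → ∀ p, c p ∈ M → (∃ w, T l w p) → ∃ w ∈ M, T l w p

theorem IsGen.decide {c : P → U} {M : Set U} {G : Set P} (hc : Function.Injective c)
    (hG : IsGen c M G) {T : List U → U → P → Prop} (hT : Dec c M T) {l : List U} (hl : WL M l) :
    (∃ p ∈ G, ∃ w ∈ M, T l w p) ∨ (∃ p ∈ G, ∀ q ≤ p, ∀ w, ¬ T l w q) := by
  have hdense : ∀ p : P, ∃ q ≤ p, c q ∈ decSet c T l := by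
    intro p
    by_cases h : ∃ q ≤ p, ∃ w, T l w q
    · obtain ⟨q, hq, hw⟩ := h
      exact ⟨q, hq, ZFSet.mem_range.2 ⟨⟨q, Or.inl hw⟩, rfl⟩⟩
    · push Not at h
      exact ⟨p, le_refl _, ZFSet.mem_range.2 ⟨⟨p, Or.inr h⟩, rfl⟩⟩
  obtain ⟨p, hp, hpD⟩ := hG.gen _ (hT.mem l hl) hdense
  obtain ⟨⟨q, hq⟩, hqp⟩ := ZFSet.mem_range.1 hpD
  have : q = p := hc hqp
  subst this
  rcases hq with hq | hq
  · exact Or.inl ⟨q, hp, hT.wit l hl q (hG.sub q hp) hq⟩
  · exact Or.inr ⟨q, hp, hq⟩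

/-! ### evaluation of names -/

instance smallVal (c : P → U) (M : Set U) (G : Set P) (x : U) :
    Small.{0} {y : U // y ∈ M ∧ ∃ p ∈ G, ZFSet.pair y (c p) ∈ x} := by
  refine small_of_injective (β := {y : U // y ∈ ZFSet.sUnion (ZFSet.sUnion x)})
    (f := fun y => ⟨y.1, ?_⟩) ?_
  · obtain ⟨p, _, hp⟩ := y.2.2
    refine ZFSet.mem_sUnion.2 ⟨{y.1}, ZFSet.mem_sUnion.2 ⟨_, hp, ?_⟩, ?_⟩
    · simp [ZFSet.pair]
    · simp
  · intro a b h
    exact Subtype.ext (Subtype.mk.inj h)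

/-- the value of a name -/
noncomputable def val (c : P → U) (M : Set U) (G : Set P) (x : U) : U :=
  ZFSet.range (fun y : {y : U // y ∈ M ∧ ∃ p ∈ G, ZFSet.pair y (c p) ∈ x} => val c M G y.1)
termination_by x.rank
decreasing_by
  obtain ⟨p, _, hp⟩ := y.2.2
  exact rank_lt_of_pair hp

theorem mem_val {c : P → U} {M : Set U} {G : Set P} {x z : U} :
    z ∈ val c M G x ↔ ∃ y ∈ M, (∃ p ∈ G, ZFSet.pair y (c p) ∈ x) ∧ val c M G y = z := by
  rw [val, ZFSet.mem_range]
  constructor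
  · rintro ⟨⟨y, h1, h2⟩, h3⟩
    exact ⟨y, h1, h2, h3⟩
  · rintro ⟨y, h1, h2, h3⟩
    exact ⟨⟨y, h1, h2⟩, h3⟩

/-! ### the truth lemma -/

def Tmem (c : P → U) (l : List U) (w : U) (p : P) : Prop :=
  ∃ u t, w = ZFSet.pair u (c t) ∧ w ∈ nth l 1 ∧ p ≤ t ∧ FEq c (nth l 0) u p

def Tmem' (c : P → U) (l : List U) (w : U) (p : P) : Prop :=
  ∃ u t, w = ZFSet.pair u (c t) ∧ w ∈ nth l 1 ∧ p ≤ t ∧ FEq c u (nth l 0) p

def Tbad (c : P → U) (l : List U) (w : U) (p : P) : Prop :=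
  (∃ z s, w = ZFSet.pair z (c s) ∧ w ∈ nth l 0 ∧ p ≤ s ∧ ∀ r ≤ p, ¬ SM c z (nth l 1) r) ∨
  (∃ z s, w = ZFSet.pair z (c s) ∧ w ∈ nth l 1 ∧ p ≤ s ∧ ∀ r ≤ p, ¬ SM' c z (nth l 0) r)

def Tex (c : P → U) (φ : Fml) (l : List U) (w : U) (p : P) : Prop := Fc c φ (w :: l) p

def Tf (c : P → U) (φ : Fml) (l : List U) (w : U) (p : P) : Prop := w = ∅ ∧ Fc c φ l p

/-- closure properties needed for the truth lemma -/
structure Env0 (c : P → U) (M : Set U) : Prop where
  inj : Function.Injective c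
  empty : (∅ : U) ∈ M
  fst : ∀ x y, ZFSet.pair x y ∈ M → x ∈ M
  snd : ∀ x y, ZFSet.pair x y ∈ M → y ∈ M
  dmem : Dec c M (Tmem c)
  dmem' : Dec c M (Tmem' c)
  dbad : Dec c M (Tbad c)
  dex : ∀ φ, Dec c M (Tex c φ)
  df : ∀ φ, Dec c M (Tf c φ)

variable {c : P → U} {M : Set U} {G : Set P}

theorem val_eq_iff (hM : Env0 c M) (hG : IsGen c M G) : ∀ (o : Ordinal.{0}) (x y : U),
    x.rank = o → x ∈ M → y ∈ M → (val c M G x = val c M G y ↔ ∃ p ∈ G, FEq c x y p) := by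
  intro o
  induction o using WellFoundedLT.induction with
  | _ o ih =>
    intro x y hx hxM hyM
    have IH : ∀ z s, ZFSet.pair z (c s) ∈ x → z ∈ M → ∀ w ∈ M,
        (val c M G z = val c M G w ↔ ∃ p ∈ G, FEq c z w p) :=
      fun z s hz hzM w hwM => ih _ (hx ▸ rank_lt_of_pair hz) z w rfl hzM hwM
    constructor
    · intro hval
      rcases hG.decide hM.inj hM.dbad (l := [x, y]) (WL.nil.cons hyM |>.cons hxM) with
        ⟨p, hp, w, hw, hT⟩ | ⟨p, hp, hT⟩
      · exfalso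
        rcases hT with ⟨z, s, rfl, hzx, hps, hno⟩ | ⟨z, s, rfl, hzy, hps, hno⟩
        · simp only [nth_cons_zero, nth_cons_succ] at hzx hno
          have hzM := hM.fst _ _ hw
          have hsG := hG.up p hp s hps (hM.snd _ _ hw)
          have h1 : val c M G z ∈ val c M G y := by
            rw [← hval]
            exact mem_val.2 ⟨z, hzM, ⟨s, hsG, hzx⟩, rfl⟩
          obtain ⟨u, huM, ⟨t, ht, hut⟩, hvu⟩ := mem_val.1 h1
          obtain ⟨q, hq, hfe⟩ := (IH z s hzx hzM u huM).1 hvu.symm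
          obtain ⟨r, hr, hrp, hrq⟩ := hG.dir p hp q hq
          obtain ⟨r', hr', hr'r, hr't⟩ := hG.dir r hr t ht
          exact hno r' (hr'r.trans hrp) ⟨u, t, hut, hr't, hfe.mono (hr'r.trans hrq)⟩
        · simp only [nth_cons_zero, nth_cons_succ] at hzy hno
          have hzM := hM.fst _ _ hw
          have hsG := hG.up p hp s hps (hM.snd _ _ hw)
          have h1 : val c M G z ∈ val c M G x := by
            rw [hval]
            exact mem_val.2 ⟨z, hzM, ⟨s, hsG, hzy⟩, rfl⟩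
          obtain ⟨u, huM, ⟨t, ht, hut⟩, hvu⟩ := mem_val.1 h1
          obtain ⟨q, hq, hfe⟩ := (IH u t hut huM z hzM).1 hvu
          obtain ⟨r, hr, hrp, hrq⟩ := hG.dir p hp q hq
          obtain ⟨r', hr', hr'r, hr't⟩ := hG.dir r hr t ht
          exact hno r' (hr'r.trans hrp) ⟨u, t, hut, hr't, hfe.mono (hr'r.trans hrq)⟩
      · refine ⟨p, hp, ?_⟩
        rw [feq_iff]
        constructor
        · intro z s hz q hq hqs
          by_contra hcon
          push Not at hcon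
          exact hT q hq _ (Or.inl ⟨z, s, rfl, by simpa using hz, hqs, by simpa using hcon⟩)
        · intro z s hz q hq hqs
          by_contra hcon
          push Not at hcon
          exact hT q hq _ (Or.inr ⟨z, s, rfl, by simpa using hz, hqs, by simpa using hcon⟩)
    · rintro ⟨p, hp, hfe⟩
      rw [feq_iff] at hfe
      ext v
      constructor
      · intro hv
        obtain ⟨z, hzM, ⟨s, hs, hzs⟩, rfl⟩ := mem_val.1 hv
        rcases hG.decide hM.inj hM.dmem (l := [z, y]) (WL.nil.cons hyM |>.cons hzM) with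
          ⟨q, hq, w, hw, u, t, rfl, hwy, hqt, hfe'⟩ | ⟨q, hq, hT⟩
        · simp only [nth_cons_zero, nth_cons_succ] at hwy hfe'
          have huM := hM.fst _ _ hw
          have htG := hG.up q hq t hqt (hM.snd _ _ hw)
          rw [(IH z s hzs hzM u huM).2 ⟨q, hq, hfe'⟩]
          exact mem_val.2 ⟨u, huM, ⟨t, htG, hwy⟩, rfl⟩
        · exfalso
          obtain ⟨r, hr, hrp, hrq⟩ := hG.dir p hp q hq
          obtain ⟨r', hr', hr'r, hr's⟩ := hG.dir r hr s hs
          obtain ⟨r'', hr'', u, t, hut, hr''t, hfe'⟩ := hfe.1 z s hzs r' (hr'r.trans hrp) hr's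
          exact hT r'' (hr''.trans (hr'r.trans hrq)) _
            ⟨u, t, rfl, by simpa using hut, hr''t, by simpa using hfe'⟩
      · intro hv
        obtain ⟨z, hzM, ⟨s, hs, hzs⟩, rfl⟩ := mem_val.1 hv
        rcases hG.decide hM.inj hM.dmem' (l := [z, x]) (WL.nil.cons hxM |>.cons hzM) with
          ⟨q, hq, w, hw, u, t, rfl, hwy, hqt, hfe'⟩ | ⟨q, hq, hT⟩
        · simp only [nth_cons_zero, nth_cons_succ] at hwy hfe'
          have huM := hM.fst _ _ hw
          have htG := hG.up q hq t hqt (hM.snd _ _ hw)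
          rw [← (IH u t hwy huM z hzM).2 ⟨q, hq, hfe'⟩]
          exact mem_val.2 ⟨u, huM, ⟨t, htG, hwy⟩, rfl⟩
        · exfalso
          obtain ⟨r, hr, hrp, hrq⟩ := hG.dir p hp q hq
          obtain ⟨r', hr', hr'r, hr's⟩ := hG.dir r hr s hs
          obtain ⟨r'', hr'', u, t, hut, hr''t, hfe'⟩ := hfe.2 z s hzs r' (hr'r.trans hrp) hr's
          exact hT r'' (hr''.trans (hr'r.trans hrq)) _
            ⟨u, t, rfl, by simpa using hut, hr''t, by simpa using hfe'⟩

theorem val_mem_iff (hM : Env0 c M) (hG : IsGen c M G) {z y : U} (hz : z ∈ M) (hy : y ∈ M) :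
    val c M G z ∈ val c M G y ↔ ∃ p ∈ G, FMem c z y p := by
  constructor
  · intro h
    obtain ⟨u, huM, ⟨t, ht, hut⟩, hvu⟩ := mem_val.1 h
    obtain ⟨q, hq, hfe⟩ := (val_eq_iff hM hG _ z u rfl hz huM).1 hvu.symm
    obtain ⟨r, hr, hrq, hrt⟩ := hG.dir q hq t ht
    exact ⟨r, hr, fun q' hq' => ⟨q', le_refl _, u, t, hut, hq'.trans hrt,
      hfe.mono (hq'.trans hrq)⟩⟩
  · rintro ⟨p, hp, hpm⟩
    rcases hG.decide hM.inj hM.dmem (l := [z, y]) (WL.nil.cons hy |>.cons hz) with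
      ⟨q, hq, w, hw, u, t, rfl, hwy, hqt, hfe'⟩ | ⟨q, hq, hT⟩
    · simp only [nth_cons_zero, nth_cons_succ] at hwy hfe'
      have huM := hM.fst _ _ hw
      have htG := hG.up q hq t hqt (hM.snd _ _ hw)
      rw [(val_eq_iff hM hG _ z u rfl hz huM).2 ⟨q, hq, hfe'⟩]
      exact mem_val.2 ⟨u, huM, ⟨t, htG, hwy⟩, rfl⟩
    · exfalso
      obtain ⟨r, hr, hrp, hrq⟩ := hG.dir p hp q hq
      obtain ⟨r', hr', u, t, hut, hrt, hfe⟩ := hpm r hrp
      exact hT r' (hr'.trans hrq) _ ⟨u, t, rfl, by simpa using hut, hrt, by simpa using hfe⟩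

/-- the generic extension -/
def Ext (c : P → U) (M : Set U) (G : Set P) : Set U := {v | ∃ x ∈ M, val c M G x = v}

theorem nth_map_val (hM : Env0 c M) (l : List U) (i : ℕ) :
    nth (l.map (val c M G)) i = val c M G (nth l i) := by
  unfold nth
  by_cases h : i < l.length
  · rw [List.getD_eq_getElem _ _ h, List.getD_eq_getElem _ _ (by simpa using h)]
    simp
  · rw [List.getD_eq_default _ _ (not_lt.1 h), List.getD_eq_default _ _ (by simpa using h)]
    symm
    rw [ZFSet.eq_empty]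
    intro y hy
    obtain ⟨z, _, ⟨p, _, hp⟩, _⟩ := mem_val.1 hy
    exact ZFSet.notMem_empty _ hp

theorem truth (hM : Env0 c M) (hG : IsGen c M G) (φ : Fml) : ∀ (l : List U), WL M l →
    (Sat (Ext c M G) φ (l.map (val c M G)) ↔ ∃ p ∈ G, Fc c φ l p) := by
  induction φ with
  | mem i j =>
    intro l hl
    simp only [Sat, nth_map_val hM, Fc]
    exact val_mem_iff hM hG (hl.get hM.empty i) (hl.get hM.empty j)
  | eq i j =>
    intro l hl
    simp only [Sat, nth_map_val hM, Fc]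
    exact val_eq_iff hM hG _ _ _ rfl (hl.get hM.empty i) (hl.get hM.empty j)
  | neg φ ih =>
    intro l hl
    simp only [Sat, Fc, ih l hl]
    constructor
    · intro h
      rcases hG.decide hM.inj (hM.df φ) hl with ⟨p, hp, w, _, hT⟩ | ⟨p, hp, hT⟩
      · exact absurd ⟨p, hp, hT.2⟩ h
      · exact ⟨p, hp, fun q hq hF => hT q hq ∅ ⟨rfl, hF⟩⟩
    · rintro ⟨p, hp, h⟩ ⟨q, hq, hF⟩
      obtain ⟨r, _, hrp, hrq⟩ := hG.dir p hp q hq
      exact h r hrp (hF.mono hrq)
  | and φ ψ ih1 ih2 =>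
    intro l hl
    simp only [Sat, Fc, ih1 l hl, ih2 l hl]
    constructor
    · rintro ⟨⟨p, hp, h1⟩, ⟨q, hq, h2⟩⟩
      obtain ⟨r, hr, hrp, hrq⟩ := hG.dir p hp q hq
      exact ⟨r, hr, h1.mono hrp, h2.mono hrq⟩
    · rintro ⟨p, hp, h1, h2⟩
      exact ⟨⟨p, hp, h1⟩, ⟨p, hp, h2⟩⟩
  | ex φ ih =>
    intro l hl
    simp only [Sat, Fc]
    constructor
    · rintro ⟨v, ⟨x, hx, rfl⟩, hv⟩
      obtain ⟨p, hp, hF⟩ := (ih (x :: l) (hl.cons hx)).1 (by simpa using hv)
      exact ⟨p, hp, fun q hq => ⟨q, le_refl _, x, hF.mono hq⟩⟩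
    · rintro ⟨p, hp, h⟩
      rcases hG.decide hM.inj (hM.dex φ) hl with ⟨q, hq, w, hw, hT⟩ | ⟨q, hq, hT⟩
      · refine ⟨val c M G w, ⟨w, hw, rfl⟩, ?_⟩
        have := (ih (w :: l) (hl.cons hw)).2 ⟨q, hq, hT⟩
        simpa using this
      · exfalso
        obtain ⟨r, _, hrp, hrq⟩ := hG.dir p hp q hq
        obtain ⟨r', hr', x, hx⟩ := h r hrp
        exact hT r' (hr'.trans hrq) x hx

end Pool.Agent.MP8322
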