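import Mathlib

set_option autoImplicit false

namespace Pool.Agent.Results.MP_8322c3_lc.AmalgIffNotCH

open FirstOrder Cardinal

/-- Formulas of `L_{ω₁,ω}` over the vocabulary `L` whose free variables are among `Fin n`. -/
inductive Form (L : FirstOrder.Language.{0, 0}) : ℕ → Type
  | eq {n : ℕ} (t₁ t₂ : L.Term (Fin n)) : Form L n
  | rel {n l : ℕ} (R : L.Relations l) (ts : Fin l → L.Term (Fin n)) : Form L n
  | neg {n : ℕ} (φ : Form L n) : Form L n
  | conj {n : ℕ} (φ : ℕ → Form L n) : Form L n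
  | all {n : ℕ} (φ : Form L (n + 1)) : Form L n

/-- Satisfaction of an `L_{ω₁,ω}`-formula in an `L`-structure. -/
def Form.Realize {L : FirstOrder.Language.{0, 0}} (M : Type) [L.Structure M] :
    {n : ℕ} → Form L n → (Fin n → M) → Prop
  | _, .eq t₁ t₂, v => t₁.realize v = t₂.realize v
  | _, .rel R ts, v => Language.Structure.RelMap R (fun i => (ts i).realize v)
  | _, .neg φ, v => ¬ φ.Realize M v
  | _, .conj φ, v => ∀ k, (φ k).Realize M v
  | _, .all φ, v => ∀ x : M, φ.Realize M (Fin.snoc v x)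

/-- `M` is a model of the sentence `φ` of cardinality `κ`. -/
structure IsModel {L : FirstOrder.Language.{0, 0}} (φ : Form L 0) (κ : Cardinal.{0})
    (M : Type) [L.Structure M] : Prop where
  card : #M = κ
  sat : φ.Realize M Fin.elim0

/-- The models of `φ` of cardinality `κ` have the amalgamation property
(all maps are embeddings of structures, i.e. isomorphisms onto substructures). -/
def AP {L : FirstOrder.Language.{0, 0}} (φ : Form L 0) (κ : Cardinal.{0}) : Prop :=
  ∀ (M₀ M₁ M₂ : Type) [L.Structure M₀] [L.Structure M₁] [L.Structure M₂],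
    IsModel φ κ M₀ → IsModel φ κ M₁ → IsModel φ κ M₂ →
    ∀ (i₁ : M₀ ↪[L] M₁) (i₂ : M₀ ↪[L] M₂),
      ∃ (N : Type) (_ : L.Structure N), IsModel φ κ N ∧
        ∃ (f₁ : M₁ ↪[L] N) (f₂ : M₂ ↪[L] N), f₁.comp i₁ = f₂.comp i₂

/-- The amalgamation spectrum of an `L_{ω₁,ω}`-sentence. -/
def APSpec {L : FirstOrder.Language.{0, 0}} (φ : Form L 0) : Set Cardinal.{0} :=
  {κ | ℵ₀ ≤ κ ∧ (∃ (M : Type) (_ : L.Structure M), IsModel φ κ M) ∧ AP φ κ}

section sugar

variable {L : FirstOrder.Language.{0, 0}} {n : ℕ}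

def Form.and (φ ψ : Form L n) : Form L n := .conj (fun k => Nat.casesOn k φ (fun _ => ψ))

def Form.imp (φ ψ : Form L n) : Form L n := .neg (.and φ (.neg ψ))

def Form.iff (φ ψ : Form L n) : Form L n := .and (.imp φ ψ) (.imp ψ φ)

variable (M : Type) [L.Structure M] (v : Fin n → M)

@[simp] theorem realize_neg (φ : Form L n) : (Form.neg φ).Realize M v ↔ ¬ φ.Realize M v := by
  simp [Form.Realize]

@[simp] theorem realize_conj (φ : ℕ → Form L n) :
    (Form.conj φ).Realize M v ↔ ∀ k, (φ k).Realize M v := by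
  simp [Form.Realize]

@[simp] theorem realize_all (φ : Form L (n + 1)) :
    (Form.all φ).Realize M v ↔ ∀ x : M, φ.Realize M (Fin.snoc v x) := by
  simp [Form.Realize]

@[simp] theorem realize_and (φ ψ : Form L n) :
    (Form.and φ ψ).Realize M v ↔ φ.Realize M v ∧ ψ.Realize M v := by
  simp only [Form.and, realize_conj]
  constructor
  · intro h
    exact ⟨h 0, h 1⟩
  · rintro ⟨h0, h1⟩ k
    cases k with
    | zero => exact h0
    | succ k => exact h1

@[simp] theorem realize_imp (φ ψ : Form L n) :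
    (Form.imp φ ψ).Realize M v ↔ (φ.Realize M v → ψ.Realize M v) := by
  simp [Form.imp]

@[simp] theorem realize_iff (φ ψ : Form L n) :
    (Form.iff φ ψ).Realize M v ↔ (φ.Realize M v ↔ ψ.Realize M v) := by
  simp [Form.iff, iff_iff_implies_and_implies]

end sugar

/-- Relation symbols: one unary `P`, and binary `E k` for `k : ℕ`. -/
inductive Rels : ℕ → Type
  | P : Rels 1
  | E (k : ℕ) : Rels 2

/-- The vocabulary: one unary relation symbol, countably many binary ones, no function symbols. -/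
def LL : FirstOrder.Language.{0, 0} := ⟨fun _ => Empty, Rels⟩

/-- The atomic formula `E_k(x_i, x_j)`. -/
def atomE (n k : ℕ) (i j : Fin n) : Form LL n :=
  .rel (L := LL) (Rels.E k) (fun a => Language.var (if a = 0 then i else j))

/-- The formula `x_i = x_j`. -/
def atomEq (n : ℕ) (i j : Fin n) : Form LL n := .eq (Language.var i) (Language.var j)

/-- `E_k` is symmetric for every `k`. -/
def symF : Form LL 0 := .conj fun k => .all (.all (.imp (atomE 2 k 0 1) (atomE 2 k 1 0)))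

/-- For distinct `x,y,z`, it is not the case that `{x,y}`, `{y,z}`, `{x,z}` all have the same
colour, where the colour of a pair is the set of all `k` with `E_k(x,y)`. -/
def triF : Form LL 0 := .all (.all (.all (.neg
  (.and (.and (.neg (atomEq 3 0 1)) (.and (.neg (atomEq 3 1 2)) (.neg (atomEq 3 0 2))))
    (.conj fun k => .and (.iff (atomE 3 k 0 1) (atomE 3 k 1 2))
      (.iff (atomE 3 k 1 2) (atomE 3 k 0 2)))))))

/-- The sentence: a symmetric colouring of pairs by subsets of `ℕ` without monochromatic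
triangles (and a unary predicate with no axiom). -/
def phi : Form LL 0 := .and symF triF

variable {M : Type} [LL.Structure M]

def RE (k : ℕ) (x y : M) : Prop :=
  Language.Structure.RelMap (L := LL) (M := M) (n := 2) (Rels.E k) (fun a => if a = 0 then x else y)

def RP (x : M) : Prop :=
  Language.Structure.RelMap (L := LL) (M := M) (n := 1) Rels.P (fun _ => x)

theorem realize_atomE (n k : ℕ) (i j : Fin n) (v : Fin n → M) :
    (atomE n k i j).Realize M v ↔ RE k (v i) (v j) := by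
  unfold atomE RE
  simp only [Form.Realize]
  have : (fun a : Fin 2 => Language.Term.realize v
      (Language.var (L := LL) (if a = 0 then i else j))) =
      (fun a => if a = 0 then v i else v j) := by
    funext a
    by_cases h : a = 0 <;> simp [h]
  rw [this]

theorem realize_atomEq (n : ℕ) (i j : Fin n) (v : Fin n → M) :
    (atomEq n i j).Realize M v ↔ v i = v j := by
  simp [atomEq, Form.Realize]

variable (M) in
theorem realize_phi : phi.Realize M Fin.elim0 ↔
    (∀ k (x y : M), RE k x y → RE k y x) ∧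
    (∀ x y z : M, x ≠ y → y ≠ z → x ≠ z →
      ¬ (∀ k, (RE k x y ↔ RE k y z) ∧ (RE k y z ↔ RE k x z))) := by
  simp only [phi, symF, triF, realize_and, realize_conj, realize_all, realize_imp, realize_neg,
    realize_iff, realize_atomE, realize_atomEq]
  refine and_congr ?_ ?_
  · rfl
  · constructor
    · intro h x y z hxy hyz hxz hk
      exact h x y z ⟨⟨hxy, hyz, hxz⟩, hk⟩
    · rintro h x y z ⟨⟨hxy, hyz, hxz⟩, hk⟩
      exact h x y z hxy hyz hxz hk

/-- The colour of the pair `(x, y)`: a subset of `ℕ`. -/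
def col (x y : M) : Set ℕ := {k | RE k x y}

theorem col_eq_iff {N : Type} [LL.Structure N] (x y : M) (z w : N) :
    col x y = col z w ↔ ∀ k, (RE k x y ↔ RE k z w) := by
  unfold col
  rw [Set.ext_iff]
  rfl

variable (M) in
theorem phi_iff : phi.Realize M Fin.elim0 ↔
    (∀ x y : M, col x y = col y x) ∧
    (∀ x y z : M, x ≠ y → y ≠ z → x ≠ z → ¬ (col x y = col y z ∧ col y z = col x z)) := by
  rw [realize_phi]
  refine and_congr ?_ ?_
  · constructor
    · intro h x y
      ext k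
      exact ⟨h k x y, h k y x⟩
    · intro h k x y hk
      have : k ∈ col x y := hk
      rw [h] at this
      exact this
  · constructor
    · intro h x y z h1 h2 h3 h4
      refine h x y z h1 h2 h3 ?_
      intro k
      exact ⟨(col_eq_iff _ _ _ _).1 h4.1 k, (col_eq_iff _ _ _ _).1 h4.2 k⟩
    · intro h x y z h1 h2 h3 h4
      refine h x y z h1 h2 h3 ⟨?_, ?_⟩
      · rw [col_eq_iff]
        exact fun k => (h4 k).1
      · rw [col_eq_iff]
        exact fun k => (h4 k).2

/-- The structure given by a colouring and a unary predicate. -/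
@[reducible] def structOf {N : Type} (c : N → N → Set ℕ) (P : N → Prop) : LL.Structure N where
  funMap := fun {_} f _ => Empty.elim f
  RelMap := fun {_} r => match r with
    | Rels.P => fun v => P (v 0)
    | Rels.E k => fun v => k ∈ c (v 0) (v 1)

theorem col_structOf {N : Type} (c : N → N → Set ℕ) (P : N → Prop) (x y : N) :
    @col N (structOf c P) x y = c x y := by
  ext k
  show k ∈ c (if (0 : Fin 2) = 0 then x else y) (if (1 : Fin 2) = 0 then x else y) ↔ _
  simp

theorem RP_structOf {N : Type} (c : N → N → Set ℕ) (P : N → Prop) (x : N) :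
    @RP N (structOf c P) x ↔ P x := Iff.rfl

theorem relMap_E (k : ℕ) (v : Fin 2 → M) :
    Language.Structure.RelMap (L := LL) (M := M) (n := 2) (Rels.E k) v ↔ k ∈ col (v 0) (v 1) := by
  unfold col RE
  have : v = (fun a : Fin 2 => if a = 0 then v 0 else v 1) := by
    funext a
    fin_cases a <;> simp
  rw [Set.mem_ofPred_eq, ← this]

theorem relMap_P (v : Fin 1 → M) :
    Language.Structure.RelMap (L := LL) (M := M) (n := 1) Rels.P v ↔ RP (v 0) := by
  unfold RP
  have : v = (fun _ : Fin 1 => v 0) := by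
    funext a
    fin_cases a
    simp
  rw [← this]

/-- Build an embedding from a colour-preserving injection. -/
def mkEmb {N : Type} [LL.Structure N] (f : M → N) (hf : Function.Injective f)
    (hc : ∀ x y, col (f x) (f y) = col x y) (hP : ∀ x, RP (f x) ↔ RP x) : M ↪[LL] N where
  toFun := f
  inj' := hf
  map_fun' := fun {_} g _ => Empty.elim g
  map_rel' := fun {_} r v => by
    cases r with
    | P =>
      rw [relMap_P, relMap_P]
      exact hP (v 0)
    | E k =>
      rw [relMap_E, relMap_E]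
      simp only [Function.comp]
      rw [hc]

theorem emb_col {N : Type} [LL.Structure N] (f : M ↪[LL] N) (x y : M) :
    col (f x) (f y) = col x y := by
  ext k
  have h := f.map_rel (Rels.E k : LL.Relations 2) (fun a => if a = 0 then x else y)
  have e : (f ∘ fun a : Fin 2 => if a = 0 then x else y) =
      fun a : Fin 2 => if a = 0 then f x else f y := by
    funext a
    by_cases h : a = 0 <;> simp [h]
  rw [e] at h
  exact h

theorem emb_RP {N : Type} [LL.Structure N] (f : M ↪[LL] N) (x : M) : RP (f x) ↔ RP x := by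
  exact f.map_rel (Rels.P : LL.Relations 1) (fun _ => x)

section positive

variable {M₀ M₁ M₂ : Type} [LL.Structure M₀] [LL.Structure M₁] [LL.Structure M₂]
  (i₁ : M₀ ↪[LL] M₁) (i₂ : M₀ ↪[LL] M₂) (r : Set ℕ)

open Classical in
/-- colour between a point of `M₁` and a point of `M₂` -/
noncomputable def cross (x : M₁) (y : M₂) : Set ℕ :=
  if h : ∃ a, i₁ a = x then col (i₂ h.choose) y else r

/-- the points of `M₂` outside `M₀` -/
abbrev Rest : Type := {y : M₂ // ∀ a, i₂ a ≠ y}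

noncomputable def colN : M₁ ⊕ Rest i₂ → M₁ ⊕ Rest i₂ → Set ℕ
  | .inl x, .inl y => col x y
  | .inr x, .inr y => col x.1 y.1
  | .inl x, .inr y => cross i₁ i₂ r x y.1
  | .inr y, .inl x => cross i₁ i₂ r x y.1

def predN : M₁ ⊕ Rest i₂ → Prop
  | .inl x => RP x
  | .inr y => RP y.1

theorem cross_of (a : M₀) (y : M₂) : cross i₁ i₂ r (i₁ a) y = col (i₂ a) y := by
  unfold cross
  have h : ∃ b, i₁ b = i₁ a := ⟨a, rfl⟩
  rw [dif_pos h, i₁.injective h.choose_spec]

theorem cross_not {x : M₁} (hx : ¬ ∃ a, i₁ a = x) (y : M₂) : cross i₁ i₂ r x y = r := by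
  unfold cross
  rw [dif_neg hx]

open Classical in
noncomputable def f2 (y : M₂) : M₁ ⊕ Rest i₂ :=
  if h : ∃ a, i₂ a = y then .inl (i₁ h.choose) else .inr ⟨y, fun a ha => h ⟨a, ha⟩⟩

theorem f2_of (a : M₀) : f2 i₁ i₂ (i₂ a) = .inl (i₁ a) := by
  unfold f2
  have h : ∃ b, i₂ b = i₂ a := ⟨a, rfl⟩
  rw [dif_pos h, i₂.injective h.choose_spec]

theorem f2_not {y : M₂} (hy : ∀ a, i₂ a ≠ y) : f2 i₁ i₂ y = .inr ⟨y, hy⟩ := by
  unfold f2
  rw [dif_neg]
  rintro ⟨a, ha⟩
  exact hy a ha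

theorem f2_cases (y : M₂) : (∃ a, i₂ a = y) ∨ (∀ a, i₂ a ≠ y) := by
  by_cases h : ∃ a, i₂ a = y
  · exact Or.inl h
  · exact Or.inr (fun a ha => h ⟨a, ha⟩)

theorem f2_injective : Function.Injective (f2 i₁ i₂) := by
  intro y z h
  rcases f2_cases i₂ y with ⟨a, rfl⟩ | hy <;> rcases f2_cases i₂ z with ⟨b, rfl⟩ | hz
  · rw [f2_of, f2_of] at h
    have := i₁.injective (Sum.inl.inj h)
    rw [this]
  · rw [f2_of, f2_not i₁ i₂ hz] at h
    exact absurd h (by simp)
  · rw [f2_of, f2_not i₁ i₂ hy] at h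
    exact absurd h (by simp)
  · rw [f2_not i₁ i₂ hy, f2_not i₁ i₂ hz] at h
    simpa using h

theorem colN_f2 (hs₂ : ∀ x y : M₂, col x y = col y x) (y z : M₂) :
    colN i₁ i₂ r (f2 i₁ i₂ y) (f2 i₁ i₂ z) = col y z := by
  rcases f2_cases i₂ y with ⟨a, rfl⟩ | hy <;> rcases f2_cases i₂ z with ⟨b, rfl⟩ | hz
  · rw [f2_of, f2_of]
    show col (i₁ a) (i₁ b) = _
    rw [emb_col, emb_col]
  · rw [f2_of, f2_not i₁ i₂ hz]
    show cross i₁ i₂ r (i₁ a) z = _
    rw [cross_of]
  · rw [f2_of, f2_not i₁ i₂ hy]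
    show cross i₁ i₂ r (i₁ b) y = _
    rw [cross_of, hs₂]
  · rw [f2_not i₁ i₂ hy, f2_not i₁ i₂ hz]
    rfl

theorem colN_symm (hs₁ : ∀ x y : M₁, col x y = col y x) (hs₂ : ∀ x y : M₂, col x y = col y x)
    (u v : M₁ ⊕ Rest i₂) : colN i₁ i₂ r u v = colN i₁ i₂ r v u := by
  rcases u with x | x <;> rcases v with y | y
  · exact hs₁ x y
  · rfl
  · rfl
  · exact hs₂ x.1 y.1

theorem colN_cross {u v : M₁ ⊕ Rest i₂} (hu : ∀ y, f2 i₁ i₂ y ≠ u) (hv : ∀ x, Sum.inl x ≠ v) :
    colN i₁ i₂ r u v = r := by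
  rcases u with x | x
  · rcases v with y | y
    · exact absurd rfl (hv y)
    · apply cross_not
      rintro ⟨a, rfl⟩
      exact hu (i₂ a) (f2_of i₁ i₂ a)
  · exact absurd (f2_not i₁ i₂ x.2) (hu x.1)

theorem noTri
    (hs₁ : ∀ x y : M₁, col x y = col y x) (hs₂ : ∀ x y : M₂, col x y = col y x)
    (ht₁ : ∀ x y z : M₁, x ≠ y → y ≠ z → x ≠ z → ¬ (col x y = col y z ∧ col y z = col x z))
    (ht₂ : ∀ x y z : M₂, x ≠ y → y ≠ z → x ≠ z → ¬ (col x y = col y z ∧ col y z = col x z))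
    (hr₁ : ∀ x y : M₁, col x y ≠ r) (hr₂ : ∀ x y : M₂, col x y ≠ r)
    (u v w : M₁ ⊕ Rest i₂) (huv : u ≠ v) (hvw : v ≠ w) (huw : u ≠ w) :
    ¬ (colN i₁ i₂ r u v = colN i₁ i₂ r v w ∧ colN i₁ i₂ r v w = colN i₁ i₂ r u w) := by
  rintro ⟨h1, h2⟩
  -- two sides
  have side : ∀ n : M₁ ⊕ Rest i₂, (∃ x, Sum.inl x = n) ∨ (∃ y, f2 i₁ i₂ y = n) := by
    rintro (x | y)
    · exact Or.inl ⟨x, rfl⟩
    · exact Or.inr ⟨y.1, f2_not i₁ i₂ y.2⟩
  have symm := colN_symm i₁ i₂ r hs₁ hs₂
  -- general claim: an element off side 1, an element off side 2, and a third point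
  have key : ∀ p q t : M₁ ⊕ Rest i₂, (∀ x, Sum.inl x ≠ p) → (∀ y, f2 i₁ i₂ y ≠ q) →
      colN i₁ i₂ r q p = colN i₁ i₂ r p t → colN i₁ i₂ r q p = colN i₁ i₂ r q t → False := by
    intro p q t hp hq e1 e2
    have hc := colN_cross i₁ i₂ r hq hp
    rw [hc] at e1 e2
    rcases side t with ⟨x, rfl⟩ | ⟨y, rfl⟩
    · rcases side q with ⟨x', rfl⟩ | ⟨y', hy'⟩
      · exact hr₁ x' x e2.symm
      · exact hq y' hy'
    · rcases side p with ⟨x', hx'⟩ | ⟨y', rfl⟩
      · exact hp x' hx'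
      · rw [colN_f2 i₁ i₂ r hs₂] at e1
        exact hr₂ y' y e1.symm
  by_cases a1 : ∀ n ∈ ({u, v, w} : Set (M₁ ⊕ Rest i₂)), ∃ x, Sum.inl x = n
  · obtain ⟨x, rfl⟩ := a1 u (by simp)
    obtain ⟨y, rfl⟩ := a1 v (by simp)
    obtain ⟨z, rfl⟩ := a1 w (by simp)
    exact ht₁ x y z (fun h => huv (by rw [h])) (fun h => hvw (by rw [h]))
      (fun h => huw (by rw [h])) ⟨h1, h2⟩
  by_cases a2 : ∀ n ∈ ({u, v, w} : Set (M₁ ⊕ Rest i₂)), ∃ y, f2 i₁ i₂ y = n
  · obtain ⟨x, rfl⟩ := a2 u (by simp)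
    obtain ⟨y, rfl⟩ := a2 v (by simp)
    obtain ⟨z, rfl⟩ := a2 w (by simp)
    rw [colN_f2 i₁ i₂ r hs₂, colN_f2 i₁ i₂ r hs₂] at h1
    rw [colN_f2 i₁ i₂ r hs₂, colN_f2 i₁ i₂ r hs₂] at h2
    exact ht₂ x y z (fun h => huv (by rw [h])) (fun h => hvw (by rw [h]))
      (fun h => huw (by rw [h])) ⟨h1, h2⟩
  push Not at a1 a2
  obtain ⟨p, hpm, hp⟩ := a1
  obtain ⟨q, hqm, hq⟩ := a2
  have hpq : p ≠ q := by
    rintro rfl
    rcases side p with ⟨x, hx⟩ | ⟨y, hy⟩
    · exact hp x hx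
    · exact hq y hy
  simp only [Set.mem_insert_iff, Set.mem_singleton_iff] at hpm hqm
  have e1 := h1
  have e2 := h2
  have e3 := h1.trans h2
  rcases hpm with rfl | rfl | rfl <;> rcases hqm with rfl | rfl | rfl
  · exact hpq rfl
  · exact key p q w hp hq (by rw [symm q p]; exact e3) (by rw [symm q p]; exact e1)
  · exact key p q v hp hq (by rw [symm q p]; exact e3.symm) (by rw [symm q p, symm q v]; exact e2.symm)
  · exact key p q w hp hq e1 e3
  · exact hpq rfl
  · exact key p q u hp hq (by rw [symm q p, symm p u]; exact e1.symm)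
      (by rw [symm q p, symm q u]; exact e2)
  · exact key p q v hp hq (by rw [symm p v]; exact e2.symm) e3.symm
  · exact key p q u hp hq (by rw [symm p u]; exact e2) (by rw [symm q u]; exact e1.symm)
  · exact hpq rfl

theorem amalg {κ : Cardinal.{0}} (hκ : ℵ₀ ≤ κ) (hc : κ < 𝔠)
    (m₁ : IsModel phi κ M₁) (m₂ : IsModel phi κ M₂) :
    ∃ (N : Type) (_ : LL.Structure N), IsModel phi κ N ∧
        ∃ (f₁ : M₁ ↪[LL] N) (f₂ : M₂ ↪[LL] N), f₁.comp i₁ = f₂.comp i₂ := by
  obtain ⟨hs₁, ht₁⟩ := (phi_iff M₁).1 m₁.sat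
  obtain ⟨hs₂, ht₂⟩ := (phi_iff M₂).1 m₂.sat
  -- a colour not used in `M₁` or `M₂`
  obtain ⟨r, hr⟩ : ∃ r : Set ℕ, r ∉ Set.range (fun p : M₁ × M₁ => col p.1 p.2) ∪
      Set.range (fun p : M₂ × M₂ => col p.1 p.2) := by
    by_contra hcon
    push Not at hcon
    have huniv : (Set.range (fun p : M₁ × M₁ => col p.1 p.2) ∪
      Set.range (fun p : M₂ × M₂ => col p.1 p.2)) = Set.univ := Set.eq_univ_of_forall hcon
    have h1 : #(Set.range (fun p : M₁ × M₁ => col p.1 p.2)) ≤ κ := by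
      refine mk_range_le.trans ?_
      rw [mk_prod, lift_id, m₁.card]
      exact (mul_eq_self hκ).le
    have h2 : #(Set.range (fun p : M₂ × M₂ => col p.1 p.2)) ≤ κ := by
      refine mk_range_le.trans ?_
      rw [mk_prod, lift_id, m₂.card]
      exact (mul_eq_self hκ).le
    have h3 : #(Set.univ : Set (Set ℕ)) ≤ κ := by
      rw [← huniv]
      refine (mk_union_le _ _).trans ?_
      exact (add_le_add h1 h2).trans (add_eq_self hκ).le
    rw [mk_univ, mk_set, mk_nat] at h3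
    exact absurd (lt_of_lt_of_le hc (by simpa using h3)) (lt_irrefl _)
  have hr₁ : ∀ x y : M₁, col x y ≠ r := fun x y h => hr (Or.inl ⟨(x, y), h⟩)
  have hr₂ : ∀ x y : M₂, col x y ≠ r := fun x y h => hr (Or.inr ⟨(x, y), h⟩)
  let S : LL.Structure (M₁ ⊕ Rest i₂) := structOf (colN i₁ i₂ r) (predN i₂)
  have hcol : ∀ u v : M₁ ⊕ Rest i₂, col u v = colN i₁ i₂ r u v :=
    fun u v => col_structOf _ _ u v
  refine ⟨M₁ ⊕ Rest i₂, S, ⟨?_, ?_⟩, mkEmb Sum.inl Sum.inl_injective ?_ ?_,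
    mkEmb (f2 i₁ i₂) (f2_injective i₁ i₂) ?_ ?_, ?_⟩
  · rw [mk_sum, lift_id, lift_id, m₁.card]
    refine add_eq_left hκ ?_
    rw [← m₂.card]
    exact mk_subtype_le _
  · rw [phi_iff]
    refine ⟨?_, ?_⟩
    · intro x y
      rw [hcol, hcol]
      exact colN_symm i₁ i₂ r hs₁ hs₂ x y
    · intro x y z h1 h2 h3
      rw [hcol, hcol, hcol]
      exact noTri i₁ i₂ r hs₁ hs₂ ht₁ ht₂ hr₁ hr₂ x y z h1 h2 h3
  · intro x y
    rw [hcol]
    rfl
  · intro x
    exact Iff.rfl
  · intro x y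
    rw [hcol]
    exact colN_f2 i₁ i₂ r hs₂ x y
  · intro y
    show predN i₂ (f2 i₁ i₂ y) ↔ RP y
    rcases f2_cases i₂ y with ⟨a, rfl⟩ | hy
    · rw [f2_of]
      show RP (i₁ a) ↔ _
      rw [emb_RP, emb_RP]
    · rw [f2_not i₁ i₂ hy]
      exact Iff.rfl
  · ext a
    exact (f2_of i₁ i₂ a).symm

end positive

/-- the singleton of the first place where `a` and `b` differ -/
def dcol (a b : Set ℕ) : Set ℕ := {n | ¬ (n ∈ a ↔ n ∈ b) ∧ ∀ m < n, (m ∈ a ↔ m ∈ b)}

theorem dcol_symm (a b : Set ℕ) : dcol a b = dcol b a := by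
  ext n
  show (¬ (n ∈ a ↔ n ∈ b) ∧ ∀ m < n, (m ∈ a ↔ m ∈ b)) ↔
    (¬ (n ∈ b ↔ n ∈ a) ∧ ∀ m < n, (m ∈ b ↔ m ∈ a))
  rw [iff_comm (a := n ∈ a)]
  refine and_congr Iff.rfl ?_
  exact forall_congr' fun m => forall_congr' fun _ => iff_comm

theorem dcol_nonempty {a b : Set ℕ} (h : a ≠ b) : ∃ n, n ∈ dcol a b := by
  classical
  have h' : ∃ n, ¬ (n ∈ a ↔ n ∈ b) := by
    by_contra hc
    push Not at hc
    exact h (Set.ext hc)
  refine ⟨Nat.find h', Nat.find_spec h', fun m hm => ?_⟩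
  exact not_not.1 (Nat.find_min h' hm)

theorem dcol_noTri (a b c : Set ℕ) (hab : a ≠ b) :
    ¬ (dcol a b = dcol b c ∧ dcol b c = dcol a c) := by
  rintro ⟨h1, h2⟩
  obtain ⟨n, hn⟩ := dcol_nonempty hab
  have hn2 : n ∈ dcol b c := h1 ▸ hn
  have hn3 : n ∈ dcol a c := h2 ▸ hn2
  have e1 := hn.1
  have e2 := hn2.1
  have e3 := hn3.1
  tauto

theorem exists_model {κ : Cardinal.{0}} (hc : κ ≤ 𝔠) :
    ∃ (M : Type) (_ : LL.Structure M), IsModel phi κ M := by
  have : κ ≤ #(Set ℕ) := by rw [mk_set, mk_nat]; simpa using hc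
  obtain ⟨s, hs⟩ := Cardinal.le_mk_iff_exists_set.1 this
  let S : LL.Structure s := structOf (fun x y => dcol x.1 y.1) (fun _ => False)
  have hcol : ∀ u v : s, col u v = dcol u.1 v.1 := fun u v => col_structOf _ _ u v
  refine ⟨s, S, hs, ?_⟩
  rw [phi_iff]
  refine ⟨?_, ?_⟩
  · intro x y
    rw [hcol, hcol, dcol_symm]
  · intro x y z h1 h2 h3
    rw [hcol, hcol, hcol]
    exact dcol_noTri x.1 y.1 z.1 (fun h => h1 (Subtype.ext h))

def colO : Option (Set ℕ) → Option (Set ℕ) → Set ℕ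
  | some a, some b => dcol a b
  | none, some b => b
  | some a, none => a
  | none, none => ∅

/-- the small structure: all subsets of `ℕ` -/
def O0 : Type := Set ℕ

/-- one more point, satisfying the unary predicate -/
def O1 : Type := Option (Set ℕ)

/-- one more point, not satisfying the unary predicate -/
def O2 : Type := Option (Set ℕ)

instance : LL.Structure O0 := structOf dcol (fun _ => False)
instance : LL.Structure O1 := structOf colO (fun x => x = none)
instance : LL.Structure O2 := structOf colO (fun _ => False)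

theorem col1 (a b : O1) : col a b = colO a b :=
  col_structOf (N := O1) colO (fun x => x = (none : Option (Set ℕ))) a b
theorem col2 (a b : O2) : col a b = colO a b :=
  col_structOf (N := O2) colO (fun _ => False) a b
theorem col0 (a b : O0) : col a b = dcol a b :=
  col_structOf (N := O0) dcol (fun _ => False) a b

theorem colO_symm : ∀ x y : Option (Set ℕ), colO x y = colO y x := by
  rintro (_ | x) (_ | y)
  · rfl
  · rfl
  · rfl
  · exact dcol_symm x y

theorem colO_noTri : ∀ x y z : Option (Set ℕ), x ≠ y → y ≠ z → x ≠ z →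
    ¬ (colO x y = colO y z ∧ colO y z = colO x z) := by
  rintro (_ | x) (_ | y) (_ | z) h1 h2 h3 ⟨e1, e2⟩
  · exact h1 rfl
  · exact h1 rfl
  · exact h3 rfl
  · have : y = z := e1.trans e2
    exact h2 (by rw [this])
  · exact h2 rfl
  · have : x = z := e1
    exact h3 (by rw [this])
  · have : y = x := e2
    exact h1 (by rw [this])
  · exact dcol_noTri x y z (fun h => h1 (by rw [h])) ⟨e1, e2⟩

theorem mk_optionSet : #(Option (Set ℕ)) = 𝔠 := by
  rw [mk_option, mk_set, mk_nat, two_power_aleph0]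
  exact add_one_eq aleph0_le_continuum

theorem model0 : IsModel phi 𝔠 O0 := by
  refine ⟨?_, ?_⟩
  · show #(Set ℕ) = 𝔠
    rw [mk_set, mk_nat, two_power_aleph0]
  · rw [phi_iff]
    refine ⟨?_, ?_⟩
    · intro x y
      rw [col0, col0]
      exact dcol_symm x y
    · intro x y z h1 h2 h3
      rw [col0, col0, col0]
      exact dcol_noTri x y z h1

theorem model1 : IsModel phi 𝔠 O1 := by
  refine ⟨mk_optionSet, ?_⟩
  rw [phi_iff]
  have e : ∀ a b : O1, col a b = colO a b := col1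
  refine ⟨?_, ?_⟩
  · intro x y
    rw [e, e]
    exact colO_symm x y
  · intro x y z h1 h2 h3
    rw [e, e, e]
    exact colO_noTri x y z h1 h2 h3

theorem model2 : IsModel phi 𝔠 O2 := by
  refine ⟨mk_optionSet, ?_⟩
  rw [phi_iff]
  have e : ∀ a b : O2, col a b = colO a b := col2
  refine ⟨?_, ?_⟩
  · intro x y
    rw [e, e]
    exact colO_symm x y
  · intro x y z h1 h2 h3
    rw [e, e, e]
    exact colO_noTri x y z h1 h2 h3

def s1 (x : O0) : O1 := (some x : Option (Set ℕ))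
def s2 (x : O0) : O2 := (some x : Option (Set ℕ))
def n1 : O1 := (none : Option (Set ℕ))
def n2 : O2 := (none : Option (Set ℕ))

def j1 : O0 ↪[LL] O1 := mkEmb s1 (fun _ _ h => Option.some_injective _ h)
  (fun x y => by rw [col1, col0]; rfl)
  (fun x => by
    show ((some x : Option (Set ℕ)) = none) ↔ False
    simp)

def j2 : O0 ↪[LL] O2 := mkEmb s2 (fun _ _ h => Option.some_injective _ h)
  (fun x y => by rw [col2, col0]; rfl)
  (fun x => Iff.rfl)

theorem not_AP_continuum : ¬ AP phi 𝔠 := by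
  intro hAP
  obtain ⟨N, SN, hN, f₁, f₂, hcomm⟩ := hAP O0 O1 O2 model0 model1 model2 j1 j2
  obtain ⟨hsN, htN⟩ := (phi_iff N).1 hN.sat
  have hu : RP (f₁ n1) := (emb_RP f₁ n1).2 (rfl : (none : Option (Set ℕ)) = none)
  have hv : ¬ RP (f₂ n2) := fun h => (emb_RP f₂ n2).1 h
  have huv : f₁ n1 ≠ f₂ n2 := fun h => hv (h ▸ hu)
  have hw : ∀ r : O0, f₁ (s1 r) = f₂ (s2 r) := fun r => DFunLike.congr_fun hcomm r
  have c1 : ∀ r : O0, col (f₁ n1) (f₁ (s1 r)) = r := by
    intro r
    rw [emb_col, col1]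
    rfl
  have c2 : ∀ r : O0, col (f₂ n2) (f₂ (s2 r)) = r := by
    intro r
    rw [emb_col, col2]
    rfl
  have d1 : ∀ r : O0, f₁ n1 ≠ f₁ (s1 r) := fun r h => by
    have := f₁.injective h
    exact absurd this (Option.some_ne_none (α := Set ℕ) r).symm
  have d2 : ∀ r : O0, f₂ n2 ≠ f₂ (s2 r) := fun r h => by
    have := f₂.injective h
    exact absurd this (Option.some_ne_none (α := Set ℕ) r).symm
  obtain ⟨r, hr⟩ : ∃ r : O0, col (f₁ n1) (f₂ n2) = r := ⟨_, rfl⟩
  refine htN (f₁ n1) (f₂ n2) (f₂ (s2 r)) huv (d2 r) (by rw [← hw]; exact d1 r) ⟨?_, ?_⟩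
  · rw [c2, hr]
  · rw [c2, ← hw, c1]

/-- There is a sentence `φ` of `L_{ω₁,ω}` (in a countable vocabulary) such that for every infinite
cardinal `κ ≤ 2^ℵ₀`: `κ` is in the amalgamation spectrum of `φ` iff `κ < 2^ℵ₀`.
In particular (`κ = ℵ₁`) the sentence has `ℵ₁`-amalgamation iff the continuum hypothesis fails. -/
theorem result : ∃ L : FirstOrder.Language.{0, 0},
    Countable (Σ l, L.Functions l) ∧ Countable (Σ l, L.Relations l) ∧
    ∃ φ : Form L 0,
      (∀ κ : Cardinal.{0}, ℵ₀ ≤ κ → κ ≤ 𝔠 → (κ ∈ APSpec φ ↔ κ < 𝔠)) ∧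
      (ℵ₁ ∈ APSpec φ ↔ (ℵ₁ : Cardinal.{0}) ≠ 𝔠) := by
  have key : ∀ κ : Cardinal.{0}, ℵ₀ ≤ κ → κ ≤ 𝔠 → (κ ∈ APSpec phi ↔ κ < 𝔠) := by
    intro κ h0 hc
    constructor
    · rintro ⟨_, _, hAP⟩
      refine lt_of_le_of_ne hc ?_
      rintro rfl
      exact not_AP_continuum hAP
    · intro hlt
      exact ⟨h0, exists_model hc, fun M₀ M₁ M₂ _ _ _ _ m₁ m₂ i₁ i₂ =>
        amalg i₁ i₂ h0 hlt m₁ m₂⟩
  refine ⟨LL, ?_, ?_, phi, key, ?_⟩
  · have : IsEmpty (Σ l, LL.Functions l) := ⟨fun x => Empty.elim x.2⟩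
    infer_instance
  · have : Function.Injective (fun x : (Σ l, LL.Relations l) =>
        (match x with
          | ⟨_, Rels.P⟩ => 0
          | ⟨_, Rels.E k⟩ => k + 1 : ℕ)) := by
      rintro ⟨_, _ | k⟩ ⟨_, _ | l⟩ h
      · rfl
      · simp at h
      · simp at h
      · simp at h
        rw [h]
    exact this.countable
  · rw [key ℵ₁ aleph0_lt_aleph_one.le aleph_one_le_continuum]
    exact ⟨ne_of_lt, fun h => lt_of_le_of_ne aleph_one_le_continuum h⟩

end Pool.Agent.Results.MP_8322c3_lc.AmalgIffNotCH
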