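import Pool.Agent.MP_8322c3_lc.Extension

set_option autoImplicit false

namespace Pool.Agent.MP8322

/-! ### uniform definability (absoluteness) -/

theorem nice_univ : Nice (Set.univ : Set U) where
  trans := fun _ _ _ _ => trivial
  empty := trivial
  upair := fun _ _ _ _ => trivial
  sUnion := fun _ _ => trivial
  power := fun _ _ => trivial
  omega := trivial
  sep := fun _ _ _ _ _ => trivial

theorem WL_univ (l : List U) : WL Set.univ l := fun _ _ => trivial

/-- `R` is absolute between nice classes -/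
def UD (R : List U → Prop) : Prop :=
  ∃ φ : Fml, ∀ W : Set U, Nice W → ∀ l, WL W l → (Sat W φ l ↔ R l)

/-- `t` is an absolute operation -/
def UDT (t : List U → U) : Prop :=
  (∀ W : Set U, Nice W → ∀ l, WL W l → t l ∈ W) ∧ UD (fun l => nth l 0 = t l.tail)

theorem UD.congr {R R' : List U → Prop} (h : UD R) (hR : ∀ l, R' l ↔ R l) : UD R' := by
  obtain ⟨φ, hφ⟩ := h
  exact ⟨φ, fun W hW l hl => (hφ W hW l hl).trans (hR l).symm⟩

theorem UD.not {R : List U → Prop} (h : UD R) : UD (fun l => ¬ R l) := by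
  obtain ⟨φ, hφ⟩ := h
  exact ⟨.neg φ, fun W hW l hl => by simp only [Sat, hφ W hW l hl]⟩

theorem UD.and {R S : List U → Prop} (h : UD R) (h' : UD S) : UD (fun l => R l ∧ S l) := by
  obtain ⟨φ, hφ⟩ := h
  obtain ⟨ψ, hψ⟩ := h'
  exact ⟨.and φ ψ, fun W hW l hl => by simp only [Sat, hφ W hW l hl, hψ W hW l hl]⟩

theorem UD.or {R S : List U → Prop} (h : UD R) (h' : UD S) : UD (fun l => R l ∨ S l) :=
  (h.not.and h'.not).not.congr fun l => by tauto

theorem UD.imp {R S : List U → Prop} (h : UD R) (h' : UD S) : UD (fun l => R l → S l) :=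
  (h.and h'.not).not.congr fun l => by tauto

theorem UD.iff {R S : List U → Prop} (h : UD R) (h' : UD S) : UD (fun l => R l ↔ S l) :=
  ((h.imp h').and (h'.imp h)).congr fun l => by tauto

theorem UD.reindex {R : List U → Prop} (h : UD R) (g : List U → List U) (f : ℕ → ℕ)
    (hf : ∀ l i, nth (g l) i = nth l (f i))
    (hg : ∀ W : Set U, Nice W → ∀ l, WL W l → WL W (g l)) : UD (fun l => R (g l)) := by
  obtain ⟨φ, hφ⟩ := h
  refine ⟨φ.ren f, fun W hW l hl => ?_⟩
  rw [sat_ren W φ f l (g l) (hf l)]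
  exact hφ W hW _ (hg W hW l hl)

theorem UD.wk {R : List U → Prop} (h : UD R) : UD (fun l => R l.tail) :=
  h.reindex List.tail (fun i => i + 1) nth_tail fun _ _ _ hl => hl.tail

theorem UD.wk1 {R : List U → Prop} (h : UD R) : UD (fun l => R (nth l 0 :: l.tail.tail)) :=
  h.reindex (fun l => nth l 0 :: l.tail.tail)
    (fun i => match i with | 0 => 0 | i + 1 => i + 2) (fun l i => by
      cases i with
      | zero => rfl
      | succ i => simp [nth_tail]) (fun W hW l hl => WL.cons (hl.get hW.empty 0) hl.tail.tail)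

theorem UDT.wk {t : List U → U} (h : UDT t) : UDT (fun l => t l.tail) := by
  refine ⟨fun W hW l hl => h.1 W hW _ hl.tail, ?_⟩
  have := h.2.wk1
  simpa using this

theorem UDT.var (i : ℕ) : UDT (fun l => nth l i) := by
  refine ⟨fun W hW l hl => hl.get hW.empty i, ⟨.eq 0 (i + 1), fun W _ l _ => ?_⟩⟩
  simp only [Sat, nth_tail]

theorem UD.subst {R : List U → Prop} {t : List U → U} (h : UD R) (ht : UDT t) :
    UD (fun l => R (t l :: l)) := by
  obtain ⟨φ, hφ⟩ := h
  obtain ⟨hmem, ψ, hψ⟩ := ht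
  refine ⟨.ex (.and ψ φ), fun W hW l hl => ?_⟩
  simp only [Sat]
  constructor
  · rintro ⟨x, hx, h1, h2⟩
    have e := (hψ W hW _ (hl.cons hx)).1 h1
    have e' : x = t l := by simpa using e
    subst e'
    exact (hφ W hW _ (hl.cons hx)).1 h2
  · intro h
    have hx := hmem W hW l hl
    exact ⟨t l, hx, (hψ W hW _ (hl.cons hx)).2 (by simp), (hφ W hW _ (hl.cons hx)).2 h⟩

theorem UD.mem {a b : List U → U} (ha : UDT a) (hb : UDT b) : UD (fun l => a l ∈ b l) := by
  have h0 : UD (fun l => nth l 1 ∈ nth l 0) := ⟨.mem 1 0, fun W _ l _ => Iff.rfl⟩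
  have h1 := h0.subst hb.wk
  have h2 := h1.subst ha
  simpa using h2

theorem UD.eq {a b : List U → U} (ha : UDT a) (hb : UDT b) : UD (fun l => a l = b l) := by
  have h0 : UD (fun l => nth l 1 = nth l 0) := ⟨.eq 1 0, fun W _ l _ => Iff.rfl⟩
  have h1 := h0.subst hb.wk
  have h2 := h1.subst ha
  simpa using h2

theorem UD.bex {R : U → List U → Prop} {t : List U → U} (ht : UDT t)
    (h : UD (fun l => R (nth l 0) l.tail)) : UD (fun l => ∃ x ∈ t l, R x l) := by
  have h1 : UD (fun l => nth l 0 ∈ t l.tail ∧ R (nth l 0) l.tail) :=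
    (UD.mem (UDT.var 0) ht.wk).and h
  obtain ⟨φ, hφ⟩ := h1
  refine ⟨.ex φ, fun W hW l hl => ?_⟩
  simp only [Sat]
  refine exists_congr fun x => ?_
  constructor
  · rintro ⟨hx, h⟩
    exact (hφ W hW _ (hl.cons hx)).1 h
  · rintro ⟨hx, h⟩
    have hxW := hW.trans _ (ht.1 W hW l hl) _ hx
    exact ⟨hxW, (hφ W hW _ (hl.cons hxW)).2 ⟨hx, h⟩⟩

theorem UD.ball {R : U → List U → Prop} {t : List U → U} (ht : UDT t)
    (h : UD (fun l => R (nth l 0) l.tail)) : UD (fun l => ∀ x ∈ t l, R x l) := by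
  refine (UD.bex (R := fun x l => ¬ R x l) ht h.not).not.congr fun l => ?_
  push Not
  exact Iff.rfl

theorem UDT.of_char {t : List U → U} (ht : ∀ W : Set U, Nice W → ∀ l, WL W l → t l ∈ W)
    (h : UD (fun l => nth l 0 ∈ t l.tail)) : UDT t := by
  refine ⟨ht, ?_⟩
  have h0 : UD (fun l => nth l 0 ∈ nth l 1 ↔ nth l 0 ∈ t l.tail.tail) := by
    apply UD.iff
    · exact UD.mem (UDT.var 0) (UDT.var 1)
    · have := h.wk1
      simpa using this
  obtain ⟨φ, hφ⟩ := h0
  refine ⟨.neg (.ex (.neg φ)), fun W hW l hl => ?_⟩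
  simp only [Sat]
  push Not
  constructor
  · intro h
    ext u
    constructor
    · intro hu
      have huW := hW.trans _ (hl.get hW.empty 0) _ hu
      have := (hφ W hW _ (hl.cons huW)).1 (h u huW)
      exact this.1 (by simpa using hu)
    · intro hu
      have huW := hW.trans _ (ht W hW _ hl.tail) _ hu
      have := (hφ W hW _ (hl.cons huW)).1 (h u huW)
      simpa using this.2 (by simpa using hu)
  · intro h u huW
    refine (hφ W hW _ (hl.cons huW)).2 ?_
    simp [h]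

theorem UDT.upair {a b : List U → U} (ha : UDT a) (hb : UDT b) :
    UDT (fun l => ({a l, b l} : U)) := by
  apply UDT.of_char (fun W hW l hl => hW.upair _ (ha.1 W hW l hl) _ (hb.1 W hW l hl))
  simp only [ZFSet.mem_pair]
  exact (UD.eq (UDT.var 0) ha.wk).or (UD.eq (UDT.var 0) hb.wk)

theorem UDT.singleton {a : List U → U} (ha : UDT a) : UDT (fun l => ({a l} : U)) := by
  have := UDT.upair ha ha
  simpa using this

theorem UDT.pair {a b : List U → U} (ha : UDT a) (hb : UDT b) :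
    UDT (fun l => ZFSet.pair (a l) (b l)) :=
  UDT.upair (UDT.singleton ha) (UDT.upair ha hb)

theorem UDT.sUnion {a : List U → U} (ha : UDT a) : UDT (fun l => ZFSet.sUnion (a l)) := by
  apply UDT.of_char (fun W hW l hl => hW.sUnion _ (ha.1 W hW l hl))
  simp only [ZFSet.mem_sUnion]
  apply UD.bex ha.wk
  simp only [nth_tail, Nat.reduceAdd]
  exact UD.mem (UDT.var 1) (UDT.var 0)

theorem UDT.prod {a b : List U → U} (ha : UDT a) (hb : UDT b) :
    UDT (fun l => ZFSet.prod (a l) (b l)) := by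
  apply UDT.of_char (fun W hW l hl => hW.prod (ha.1 W hW l hl) (hb.1 W hW l hl))
  simp only [ZFSet.mem_prod]
  apply UD.bex ha.wk
  apply UD.bex hb.wk.wk
  simp only [nth_tail, Nat.reduceAdd]
  exact UD.eq (UDT.var 2) (UDT.pair (UDT.var 1) (UDT.var 0))

theorem UDT.empty : UDT (fun _ => (∅ : U)) := by
  apply UDT.of_char (fun W hW l hl => hW.empty)
  exact ⟨.neg (.eq 0 0), fun W _ l _ => by simp [Sat]⟩

theorem UDT.num (n : ℕ) : UDT (fun _ => MP8322.num n) := by
  induction n with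
  | zero => exact UDT.empty
  | succ n ih =>
    apply UDT.of_char (fun W hW l _ => hW.num (n + 1))
    simp only [MP8322.num, ZFSet.mem_insert_iff]
    exact (UD.eq (UDT.var 0) ih).or (UD.mem (UDT.var 0) ih)

theorem UD.subset {a b : List U → U} (ha : UDT a) (hb : UDT b) : UD (fun l => a l ⊆ b l) := by
  have : UD (fun l => ∀ x ∈ a l, x ∈ b l) := by
    apply UD.ball ha
    exact UD.mem (UDT.var 0) hb.wk
  exact this

theorem UDT.dd {a : List U → U} (ha : UDT a) : UDT (fun l => dd (a l)) := ha.sUnion.sUnion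

theorem mem_dd_fst {x z a : U} (h : ZFSet.pair z a ∈ x) : z ∈ dd x := mem_dd h

theorem mem_dd_snd {x z a : U} (h : ZFSet.pair z a ∈ x) : a ∈ dd x := by
  refine ZFSet.mem_sUnion.2 ⟨{z, a}, ZFSet.mem_sUnion.2 ⟨_, h, ?_⟩, ?_⟩
  · simp [ZFSet.pair]
  · simp

theorem UD.isInj {a b f : List U → U} (ha : UDT a) (hb : UDT b) (hf : UDT f) :
    UD (fun l => IsInj (a l) (b l) (f l)) := by
  have h1 : UD (fun l => f l ⊆ ZFSet.prod (a l) (b l) ∧
      (∀ z ∈ a l, ∃ w ∈ b l, ZFSet.pair z w ∈ f l ∧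
        ∀ w' ∈ b l, ZFSet.pair z w' ∈ f l → w' = w) ∧
      ∀ x ∈ dd (f l), ∀ y ∈ dd (f l), ∀ z ∈ dd (f l),
        ZFSet.pair x z ∈ f l → ZFSet.pair y z ∈ f l → x = y) := by
    refine (UD.subset hf (UDT.prod ha hb)).and (UD.and ?_ ?_)
    · apply UD.ball ha
      apply UD.bex hb.wk
      simp only [nth_tail, Nat.reduceAdd]
      refine (UD.mem (UDT.pair (UDT.var 1) (UDT.var 0)) hf.wk.wk).and ?_
      apply UD.ball hb.wk.wk
      simp only [nth_tail, Nat.reduceAdd]
      exact (UD.mem (UDT.pair (UDT.var 2) (UDT.var 0)) hf.wk.wk.wk).imp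
        (UD.eq (UDT.var 0) (UDT.var 1))
    · apply UD.ball hf.dd
      apply UD.ball hf.dd.wk
      apply UD.ball hf.dd.wk.wk
      simp only [nth_tail, Nat.reduceAdd]
      exact (UD.mem (UDT.pair (UDT.var 2) (UDT.var 0)) hf.wk.wk.wk).imp
        ((UD.mem (UDT.pair (UDT.var 1) (UDT.var 0)) hf.wk.wk.wk).imp
          (UD.eq (UDT.var 2) (UDT.var 1)))
  refine h1.congr fun l => ?_
  unfold IsInj ZFSet.IsFunc
  constructor
  · rintro ⟨⟨h1, h2⟩, h3⟩
    refine ⟨h1, fun z hz => ?_, fun x _ y _ z _ => h3 x y z⟩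
    obtain ⟨w, hw, hw'⟩ := h2 z hz
    exact ⟨w, (ZFSet.pair_mem_prod.1 (h1 hw)).2, hw, fun w' _ h => hw' w' h⟩
  · rintro ⟨h1, h2, h3⟩
    refine ⟨⟨h1, fun z hz => ?_⟩, fun x y z hx hy =>
      h3 x (mem_dd_fst hx) y (mem_dd_fst hy) z (mem_dd_snd hx) hx hy⟩
    obtain ⟨w, hw, hw1, hw2⟩ := h2 z hz
    exact ⟨w, hw1, fun w' h => hw2 w' (ZFSet.pair_mem_prod.1 (h1 h)).2 h⟩

theorem UD.isBij {a b f : List U → U} (ha : UDT a) (hb : UDT b) (hf : UDT f) :
    UD (fun l => IsBij (a l) (b l) (f l)) := by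
  have h1 : UD (fun l => IsInj (a l) (b l) (f l) ∧ ∀ z ∈ b l, ∃ x ∈ a l,
      ZFSet.pair x z ∈ f l) := by
    refine (UD.isInj ha hb hf).and ?_
    apply UD.ball hb
    apply UD.bex ha.wk
    simp only [nth_tail, Nat.reduceAdd]
    exact UD.mem (UDT.pair (UDT.var 0) (UDT.var 1)) hf.wk.wk
  refine h1.congr fun l => ?_
  unfold IsBij
  refine and_congr_right fun hi => ?_
  constructor
  · intro h z hz
    obtain ⟨x, hx⟩ := h z hz
    exact ⟨x, (ZFSet.pair_mem_prod.1 (hi.1.1 hx)).1, hx⟩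
  · intro h z hz
    obtain ⟨x, _, hx⟩ := h z hz
    exact ⟨x, hx⟩

variable {P : Type} [Preorder P] [OrderTop P] {c : P → U} {M : Set U} {G : Set P}

theorem abs_pj (hM : Env c M) (hG : IsGen c M G) {R : List U → Prop} (hR : UD R) {l : List U}
    (hl : WL M l) : R (l.map (pj c M G)) ↔ R l := by
  obtain ⟨φ, hφ⟩ := hR
  have h1 : WL (Gr c M G) (l.map (pj c M G)) := by
    intro x hx
    obtain ⟨y, hy, rfl⟩ := List.mem_map.1 hx
    exact ⟨y, hl y hy, rfl⟩
  rw [← hφ _ (Gr.nice hM hG) _ h1, elem hM hG φ l hl, hφ _ nice_univ l (WL_univ l)]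

theorem skolem (hM : Env c M) {R : List U → Prop} (hR : UD R) {l : List U} (hl : WL M l)
    (h : ∃ x, R (x :: l)) : ∃ x ∈ M, R (x :: l) := by
  obtain ⟨φ, hφ⟩ := hR
  obtain ⟨x, hx⟩ := h
  obtain ⟨y, hy, hy'⟩ := hM.skol φ l hl ⟨x, (hφ _ nice_univ _ (WL_univ _)).2 hx⟩
  exact ⟨y, hy, (hφ _ nice_univ _ (WL_univ _)).1 hy'⟩

end Pool.Agent.MP8322
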